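import Pool.Agent.H2.AdS.Gap.Defs

/-!
# Gap theorem, row 9: the leaves of a foliation preserved by the transvections `zt`, `yk`
-/

set_option autoImplicit false

open scoped RealInnerProductSpace
open Filter Topology

namespace Pool.Agent.H2.AdS

variable {Q : Type*} [NormedAddCommGroup Q] [InnerProductSpace ℝ Q]

/-- a leaf different from `Pp` meets `Pp` only in `0` -/
theorem alg_cap_Pp {Λ : Set (Submodule ℝ (W Q))} (hΛ : FolW Λ) (hp : Pp Q ∈ Λ)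
    {P : Submodule ℝ (W Q)} (hP : P ∈ Λ) (hne : P ≠ Pp Q) :
    ∀ x ∈ P, x ∈ Pp Q → x = 0 := by
  intro x hx hx'
  by_contra h0
  exact hne (hΛ.uni P hP _ hp x h0 hx hx')

theorem alg_unique {Λ : Set (Submodule ℝ (W Q))} (hΛ : FolW Λ)
    (hz : ∀ τ, StW Λ (zt τ)) {q b b' : Q} {c c' : ℝ} (h : PH q b c ∈ Λ)
    (h' : PH q b' c' ∈ Λ) : b = b' := by
  have h1 := (hz (c - (1 / 4) * ⟪b, q⟫ + (1 / 4) * ⟪b', q⟫ - c')).map _ h'
  rw [map_zt_PH] at h1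
  have e : c' + (c - (1 / 4) * ⟪b, q⟫ + (1 / 4) * ⟪b', q⟫ - c') =
      c - (1 / 4) * ⟪b, q⟫ + (1 / 4) * ⟪b', q⟫ := by ring
  rw [e] at h1
  have h2 : ptH q b c (1, 0) ∈ PH q b' (c - (1 / 4) * ⟪b, q⟫ + (1 / 4) * ⟪b', q⟫) := by
    refine ⟨?_, ?_, ?_⟩
    · simp [ptH]
    · simp [ptH]
    · simp [ptH]
      ring
  have h3 : ptH q b c (1, 0) ≠ 0 := by
    intro h0
    have h4 : ((1 : ℝ), (0 : ℝ)) = 0 := congrArg Prod.fst h0
    simpa using congrArg Prod.fst h4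
  have h5 := hΛ.uni _ h _ h1 _ h3 (ptH_mem q b c (1, 0)) h2
  exact (PH_inj h5).2.1

theorem alg_R {Λ : Set (Submodule ℝ (W Q))} (hΛ : FolW Λ) (hp : Pp Q ∈ Λ)
    (hz : ∀ τ, StW Λ (zt τ)) :
    ∃ R : Q → Q, ∀ P, P ∈ Λ ↔ P = Pp Q ∨ ∃ q c, P = PH q (R q) c := by
  have h1 : ∀ q : Q, ∃ (b : Q) (c : ℝ), PH q b c ∈ Λ := by
    intro q
    have hx0 : (((1, 0), q, (-(1 / 4) * ‖q‖ ^ 2, 0)) : W Q) ≠ 0 := by
      intro h0
      have h4 : ((1 : ℝ), (0 : ℝ)) = 0 := congrArg Prod.fst h0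
      simpa using congrArg Prod.fst h4
    obtain ⟨P, hP, hxP⟩ := hΛ.cov _ hx0 (by rw [bW_self]; simp)
    have hne : P ≠ Pp Q := by
      intro h0
      rw [h0] at hxP
      have h4 : ((1 : ℝ), (0 : ℝ)) = 0 := hxP.1
      simpa using congrArg Prod.fst h4
    obtain ⟨a, b, c, hPH⟩ := (hΛ.ph P hP).exists_PH (alg_cap_Pp hΛ hp hP hne)
    rw [hPH] at hxP hP
    have h5 : q = a := by
      have h6 := hxP.1
      simpa using h6
    subst h5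
    exact ⟨b, c, hP⟩
  choose R c₀ hR using h1
  refine ⟨R, fun P => ⟨fun hP => ?_, ?_⟩⟩
  · by_cases hne : P = Pp Q
    · exact Or.inl hne
    · obtain ⟨a, b, c, hPH⟩ := (hΛ.ph P hP).exists_PH (alg_cap_Pp hΛ hp hP hne)
      right
      refine ⟨a, c, ?_⟩
      rw [hPH] at hP
      rw [hPH, alg_unique hΛ hz hP (hR a)]
  · rintro (rfl | ⟨q, c, rfl⟩)
    · exact hp
    · have h2 := (hz (c - c₀ q)).map _ (hR q)
      rw [map_zt_PH, add_sub_cancel] at h2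
      exact h2

theorem alg_bL_eq (s : ℝ) (hs : s ≠ 0) (x : W Q) : bL s 0 s hs hs x =
    yk s (zt (1 / s) (yk s (yk (-1) (zt (-1) (yk (-1) x))))) := by
  simp only [bL_apply, yk_apply, zt_apply]
  refine Prod.ext (Prod.ext ?_ ?_) (Prod.ext rfl (Prod.ext ?_ ?_)) <;> field_simp <;> ring

theorem alg_hom {Λ : Set (Submodule ℝ (W Q))} (hΛ : FolW Λ) (h0 : P0 Q ∈ Λ)
    (hz : ∀ τ, StW Λ (zt τ)) (hy : ∀ κ, StW Λ (yk κ)) {R : Q → Q}
    (hR : ∀ P, P ∈ Λ ↔ P = Pp Q ∨ ∃ q c, P = PH q (R q) c) (s : ℝ) (q : Q) :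
    R (s • q) = s • R q := by
  by_cases hs : s = 0
  · subst hs
    rw [zero_smul, zero_smul]
    rcases (hR _).mp h0 with h1 | ⟨a, c, h1⟩
    · exact absurd h1.symm (Pp_ne_PH _ _ _)
    · obtain ⟨h2, h3, -⟩ := PH_inj h1
      rw [← h2] at h3
      exact h3.symm
  · have h1 : PH (s • q) (R (s • q)) 0 ∈ Λ := (hR _).mpr (Or.inr ⟨s • q, 0, rfl⟩)
    have h2 : im (bL s 0 s hs hs) (PH (s • q) (R (s • q)) 0) ∈ Λ := by
      have e : im (bL s 0 s hs hs) (PH (s • q) (R (s • q)) 0) =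
          im (yk s) (im (zt (1 / s)) (im (yk s) (im (yk (-1)) (im (zt (-1))
            (im (yk (-1)) (PH (s • q) (R (s • q)) 0)))))) := by
        ext x
        constructor
        · rintro ⟨z, hz, rfl⟩
          refine ⟨_, ⟨_, ⟨_, ⟨_, ⟨_, ⟨z, hz, rfl⟩, rfl⟩, rfl⟩, rfl⟩, rfl⟩, ?_⟩
          exact (alg_bL_eq s hs z).symm
        · rintro ⟨_, ⟨_, ⟨_, ⟨_, ⟨_, ⟨z, hz, rfl⟩, rfl⟩, rfl⟩, rfl⟩, rfl⟩, rfl⟩
          exact ⟨z, hz, alg_bL_eq s hs z⟩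
      rw [e]
      exact (hy s).map _ ((hz (1 / s)).map _ ((hy s).map _ ((hy (-1)).map _
        ((hz (-1)).map _ ((hy (-1)).map _ h1)))))
    have h3 : PH (s • q) (R (s • q)) 0 =
        PH (s • q) ((0 : ℝ) • q + s • (s⁻¹ • R (s • q))) (s * s * 0) := by
      rw [zero_smul, zero_add, smul_inv_smul₀ hs, mul_zero]
    rw [h3, map_bL_PH] at h2
    rcases (hR _).mp h2 with h4 | ⟨a, c, h4⟩
    · exact absurd h4.symm (Pp_ne_PH _ _ _)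
    · obtain ⟨h5, h6, -⟩ := PH_inj h4
      rw [← h5] at h6
      rw [← h6, smul_inv_smul₀ hs]

theorem im_yk_PH (a b : Q) : ∃ (β : Q) (c : ℝ),
    im (yk 4) (PH a b 0) = PH ((1 + (‖a‖ ^ 2 * ‖b‖ ^ 2 - ⟪a, b⟫ ^ 2))⁻¹ •
      ((1 - ⟪a, b⟫) • a + ‖a‖ ^ 2 • b)) β c := by
  set det : ℝ := 1 + (‖a‖ ^ 2 * ‖b‖ ^ 2 - ⟪a, b⟫ ^ 2) with hdet
  have hpos : 0 < det := by
    have h1 : ⟪a, b⟫ ^ 2 ≤ ‖a‖ ^ 2 * ‖b‖ ^ 2 := by
      rw [← mul_pow]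
      exact sq_le_sq' (neg_le_of_abs_le (abs_real_inner_le_norm a b)) (real_inner_le_norm a b)
    rw [hdet]
    linarith
  have hph : PhW (im (yk 4) (PH a b 0)) := (phW_PH a b 0).map (bW_yk 4)
  obtain ⟨a', β, c, hPH⟩ := hph.exists_PH (by
    rintro _ ⟨z, hz, rfl⟩ hp
    obtain ⟨h1, h2, h3⟩ := hz
    have k1 : z.1.1 - 4 * z.2.2.2 = 0 := congrArg Prod.fst hp.1
    have k2 : z.1.2 + 4 * z.2.2.1 = 0 := congrArg Prod.snd hp.1
    rw [h3, h1] at k1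
    rw [h2, h1] at k2
    simp only [inner_add_right, inner_smul_right, real_inner_self_eq_norm_sq] at k1 k2
    rw [real_inner_comm a b] at k1
    have e1 : det * z.1.1 = 0 := by
      rw [hdet]
      linear_combination (1 - ⟪a, b⟫) * k1 - ‖b‖ ^ 2 * k2
    have e2 : det * z.1.2 = 0 := by
      rw [hdet]
      linear_combination (1 + ⟪a, b⟫) * k2 + ‖a‖ ^ 2 * k1
    have f1 : z.1.1 = 0 := (mul_eq_zero.mp e1).resolve_left hpos.ne'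
    have f2 : z.1.2 = 0 := (mul_eq_zero.mp e2).resolve_left hpos.ne'
    have g1 : z = 0 := by
      rw [eq_ptH (show z ∈ PH a b 0 from ⟨h1, h2, h3⟩)]
      have : z.1 = 0 := Prod.ext f1 f2
      rw [this]
      simp [ptH]
    rw [g1]
    simp)
  refine ⟨β, c, ?_⟩
  rw [hPH]
  have hm : yk 4 (ptH a b 0 (1 - ⟪a, b⟫, ‖a‖ ^ 2)) ∈ PH a' β c := by
    rw [← hPH]
    exact apply_mem_im.mpr (ptH_mem _ _ _ _)
  have h1 := hm.1
  have e1 : (yk 4 (ptH a b 0 (1 - ⟪a, b⟫, ‖a‖ ^ 2))).1.1 = det := by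
    rw [yk_apply]
    simp only [ptH, inner_add_right, inner_smul_right, real_inner_self_eq_norm_sq]
    rw [real_inner_comm a b, hdet]
    ring
  have e2 : (yk 4 (ptH a b 0 (1 - ⟪a, b⟫, ‖a‖ ^ 2))).1.2 = 0 := by
    rw [yk_apply]
    simp only [ptH, inner_add_right, inner_smul_right, real_inner_self_eq_norm_sq]
    ring
  have e3 : (yk 4 (ptH a b 0 (1 - ⟪a, b⟫, ‖a‖ ^ 2))).2.1 = (1 - ⟪a, b⟫) • a + ‖a‖ ^ 2 • b := rfl
  rw [e1, e2, e3, zero_smul, add_zero] at h1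
  rw [h1, inv_smul_smul₀ hpos.ne']

end Pool.Agent.H2.AdS
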