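import Pool.Agent.H2.AdS.Gap.Trans
import Pool.Agent.H2.AdS.Gap.Alg1

/-!
# Good leaves: leaves whose transvections preserve the foliation
-/

set_option autoImplicit false

open scoped RealInnerProductSpace
open Filter Topology

namespace Pool.Agent.H2.AdS

variable {Q : Type*} [NormedAddCommGroup Q] [InnerProductSpace ℝ Q]

/-- the infinitesimal transvection, `x ↦ x + b(x, u) w - b(x, w) u` -/
noncomputable def tvL (u w : W Q) : W Q →ₗ[ℝ] W Q where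
  toFun x := x + bW x u • w - bW x w • u
  map_add' x y := by
    rw [bW_add_left, bW_add_left, add_smul, add_smul]; abel
  map_smul' s x := by
    rw [bW_smul_left, bW_smul_left, RingHom.id_apply, smul_sub, smul_add, smul_smul, smul_smul]

/-- all transvections of `P` preserve `Λ` -/
def Good (Λ : Set (Submodule ℝ (W Q))) (P : Submodule ℝ (W Q)) : Prop :=
  ∀ u ∈ P, ∀ w ∈ P, ∀ P' ∈ Λ, P'.map (tvL u w) ∈ Λ

theorem alg2_tvL_apply (u w x : W Q) : tvL u w x = x + bW x u • w - bW x w • u := rfl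

theorem alg2_tvL_map {γ : W Q ≃ₗ[ℝ] W Q} (hγ : ∀ x y, bW (γ x) (γ y) = bW x y) (u w x : W Q) :
    tvL (γ u) (γ w) (γ x) = γ (tvL u w x) := by
  rw [alg2_tvL_apply, alg2_tvL_apply, hγ, hγ, map_sub, map_add, map_smul, map_smul]

theorem alg2_map_tvL {γ : W Q ≃ₗ[ℝ] W Q} (hγ : ∀ x y, bW (γ x) (γ y) = bW x y) (u w : W Q)
    (P : Submodule ℝ (W Q)) : (im γ P).map (tvL (γ u) (γ w)) = im γ (P.map (tvL u w)) := by
  ext x
  constructor
  · rintro ⟨_, ⟨z, hz, rfl⟩, rfl⟩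
    refine ⟨tvL u w z, ⟨z, hz, rfl⟩, ?_⟩
    exact (alg2_tvL_map hγ u w z).symm
  · rintro ⟨_, ⟨z, hz, rfl⟩, rfl⟩
    refine ⟨γ z, ⟨z, hz, rfl⟩, ?_⟩
    exact alg2_tvL_map hγ u w z

theorem good_im {Λ : Set (Submodule ℝ (W Q))} (hΛ : FolW Λ) {γ : W Q ≃ₗ[ℝ] W Q}
    (hγ : StW Λ γ) {P : Submodule ℝ (W Q)} (hP : Good Λ P) : Good Λ (im γ P) := by
  rintro _ ⟨u, hu, rfl⟩ _ ⟨w, hw, rfl⟩ P' hP'
  have h1 := hP u hu w hw (im γ.symm P') ((hγ.symm hΛ).map P' hP')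
  have h2 := hγ.map _ h1
  rw [← alg2_map_tvL hγ.iso, im_symm'] at h2
  exact h2

theorem alg2_tvL_Pp {u w : W Q} (hu : u ∈ Pp Q) (hw : w ∈ Pp Q) : tvL u w =
    ((zt (2 * (u.2.2.1 * w.2.2.2 - u.2.2.2 * w.2.2.1)) : W Q ≃ₗ[ℝ] W Q) :
      W Q →ₗ[ℝ] W Q) := by
  obtain ⟨u1, u2, u3, u4⟩ := u
  obtain ⟨w1, w2, w3, w4⟩ := w
  obtain ⟨h1, h2⟩ := hu
  obtain ⟨h3, h4⟩ := hw
  change u1 = 0 at h1
  change u2 = 0 at h2
  change w1 = 0 at h3
  change w2 = 0 at h4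
  subst h1 h2 h3 h4
  refine LinearMap.ext fun x => ?_
  change x + bW x _ • _ - bW x _ • _ = zt _ x
  rw [zt_apply]
  refine Prod.ext (Prod.ext ?_ ?_) (Prod.ext ?_ (Prod.ext ?_ ?_))
  · simp
  · simp
  · simp
  · simp only [bW, Prod.fst_add, Prod.snd_add, Prod.fst_sub, Prod.snd_sub, Prod.smul_fst,
      Prod.smul_snd, smul_eq_mul, inner_zero_right, Prod.fst_zero, Prod.snd_zero]
    ring
  · simp only [bW, Prod.fst_add, Prod.snd_add, Prod.fst_sub, Prod.snd_sub, Prod.smul_fst,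
      Prod.smul_snd, smul_eq_mul, inner_zero_right, Prod.fst_zero, Prod.snd_zero]
    ring

theorem alg2_tvL_P0 {u w : W Q} (hu : u ∈ P0 Q) (hw : w ∈ P0 Q) : tvL u w =
    ((yk (2 * (u.1.1 * w.1.2 - u.1.2 * w.1.1)) : W Q ≃ₗ[ℝ] W Q) : W Q →ₗ[ℝ] W Q) := by
  rw [mem_P0] at hu hw
  obtain ⟨⟨u1, u2⟩, u3, u4⟩ := u
  obtain ⟨⟨w1, w2⟩, w3, w4⟩ := w
  obtain ⟨h1, h2⟩ := hu
  obtain ⟨h3, h4⟩ := hw
  change u3 = 0 at h1
  change u4 = 0 at h2
  change w3 = 0 at h3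
  change w4 = 0 at h4
  subst h1 h2 h3 h4
  refine LinearMap.ext fun x => ?_
  change x + bW x _ • _ - bW x _ • _ = yk _ x
  rw [yk_apply]
  refine Prod.ext (Prod.ext ?_ ?_) (Prod.ext ?_ (Prod.ext ?_ ?_))
  · simp only [bW, Prod.fst_add, Prod.snd_add, Prod.fst_sub, Prod.snd_sub, Prod.smul_fst,
      Prod.smul_snd, smul_eq_mul, inner_zero_right, Prod.fst_zero, Prod.snd_zero]
    ring
  · simp only [bW, Prod.fst_add, Prod.snd_add, Prod.fst_sub, Prod.snd_sub, Prod.smul_fst,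
      Prod.smul_snd, smul_eq_mul, inner_zero_right, Prod.fst_zero, Prod.snd_zero]
    ring
  · simp
  · simp
  · simp

theorem good_Pp {Λ : Set (Submodule ℝ (W Q))} (hz : ∀ τ, StW Λ (zt τ)) : Good Λ (Pp Q) := by
  intro u hu w hw P' hP'
  rw [alg2_tvL_Pp hu hw]
  exact (hz _).map P' hP'

theorem good_P0 {Λ : Set (Submodule ℝ (W Q))} (hy : ∀ κ, StW Λ (yk κ)) : Good Λ (P0 Q) := by
  intro u hu w hw P' hP'
  rw [alg2_tvL_P0 hu hw]
  exact (hy _).map P' hP'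

/-! ### the Heisenberg isometries -/

/-- the Heisenberg isometry as a linear map -/
noncomputable def alg2_hL (a b : Q) (c : ℝ) : W Q →ₗ[ℝ] W Q where
  toFun x := (x.1, x.2.1 + (x.1.1 • a + x.1.2 • b),
    (x.2.2.1 + (-(1 / 4) * ⟪a, x.1.1 • a + x.1.2 • b⟫ - c * x.1.2) - 1 / 2 * ⟪a, x.2.1⟫,
      x.2.2.2 + (-(1 / 4) * ⟪b, x.1.1 • a + x.1.2 • b⟫ + c * x.1.1) - 1 / 2 * ⟪b, x.2.1⟫))
  map_add' x y := by
    refine Prod.ext rfl (Prod.ext ?_ (Prod.ext ?_ ?_))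
    · simp only [Prod.fst_add, Prod.snd_add, add_smul]; abel
    · simp only [Prod.fst_add, Prod.snd_add, add_smul, inner_add_right]; ring
    · simp only [Prod.fst_add, Prod.snd_add, add_smul, inner_add_right]; ring
  map_smul' s x := by
    refine Prod.ext rfl (Prod.ext ?_ (Prod.ext ?_ ?_))
    · simp only [Prod.smul_fst, Prod.smul_snd, RingHom.id_apply, smul_add, smul_smul,
        smul_eq_mul]
    · simp only [Prod.smul_fst, Prod.smul_snd, RingHom.id_apply, inner_smul_right,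
        inner_add_right, smul_eq_mul]; ring
    · simp only [Prod.smul_fst, Prod.smul_snd, RingHom.id_apply, inner_smul_right,
        inner_add_right, smul_eq_mul]; ring

theorem alg2_hL_apply (a b : Q) (c : ℝ) (x : W Q) : alg2_hL a b c x =
    (x.1, x.2.1 + (x.1.1 • a + x.1.2 • b),
    (x.2.2.1 + (-(1 / 4) * ⟪a, x.1.1 • a + x.1.2 • b⟫ - c * x.1.2) - 1 / 2 * ⟪a, x.2.1⟫,
      x.2.2.2 + (-(1 / 4) * ⟪b, x.1.1 • a + x.1.2 • b⟫ + c * x.1.1) -
        1 / 2 * ⟪b, x.2.1⟫)) := rfl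

theorem alg2_hL_inv (a b : Q) (c : ℝ) (x : W Q) :
    alg2_hL (-a) (-b) (-c) (alg2_hL a b c x) = x := by
  refine Prod.ext rfl (Prod.ext ?_ (Prod.ext ?_ ?_))
  · simp only [alg2_hL_apply, smul_neg]; abel
  · simp only [alg2_hL_apply, smul_neg, inner_add_right, inner_neg_left, inner_neg_right]; ring
  · simp only [alg2_hL_apply, smul_neg, inner_add_right, inner_neg_left, inner_neg_right]; ring

/-- the Heisenberg isometry -/
noncomputable def alg2_hs (a b : Q) (c : ℝ) : W Q ≃ₗ[ℝ] W Q :=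
  LinearEquiv.ofLinearMap (alg2_hL a b c) (alg2_hL (-a) (-b) (-c))
    (LinearMap.ext fun x => by
      have h := alg2_hL_inv (-a) (-b) (-c) x
      simpa using h)
    (LinearMap.ext fun x => alg2_hL_inv a b c x)

theorem alg2_hs_apply (a b : Q) (c : ℝ) (x : W Q) : alg2_hs a b c x =
    (x.1, x.2.1 + (x.1.1 • a + x.1.2 • b),
    (x.2.2.1 + (-(1 / 4) * ⟪a, x.1.1 • a + x.1.2 • b⟫ - c * x.1.2) - 1 / 2 * ⟪a, x.2.1⟫,
      x.2.2.2 + (-(1 / 4) * ⟪b, x.1.1 • a + x.1.2 • b⟫ + c * x.1.1) -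
        1 / 2 * ⟪b, x.2.1⟫)) := rfl

theorem alg2_hs_symm (a b : Q) (c : ℝ) : (alg2_hs a b c).symm = alg2_hs (-a) (-b) (-c) := by
  refine LinearEquiv.ext fun x => ?_
  rw [LinearEquiv.symm_apply_eq]
  have h := alg2_hL_inv (-a) (-b) (-c) x
  rw [neg_neg, neg_neg, neg_neg] at h
  exact h.symm

theorem alg2_hs_bW (a b : Q) (c : ℝ) (x y : W Q) :
    bW (alg2_hs a b c x) (alg2_hs a b c y) = bW x y := by
  simp only [alg2_hs_apply, bW, inner_add_left, inner_add_right, inner_smul_left,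
    inner_smul_right]
  rw [real_inner_comm x.2.1 a, real_inner_comm x.2.1 b, real_inner_comm a b]
  simp
  ring

theorem alg2_hs_PH (a b n₁ n₂ : Q) (c c' : ℝ) : im (alg2_hs a b c) (PH n₁ n₂ c') =
    PH (a + n₁) (b + n₂) (c + c' + 1 / 4 * (⟪a, n₂⟫ - ⟪n₁, b⟫)) := by
  have key : ∀ y : ℝ × ℝ, alg2_hs a b c (ptH n₁ n₂ c' y) =
      ptH (a + n₁) (b + n₂) (c + c' + 1 / 4 * (⟪a, n₂⟫ - ⟪n₁, b⟫)) y := by
    intro y
    refine Prod.ext rfl (Prod.ext ?_ (Prod.ext ?_ ?_))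
    · simp only [alg2_hs_apply, ptH, smul_add]; abel
    · simp only [alg2_hs_apply, ptH, smul_add, inner_add_left, inner_add_right,
        inner_smul_right]
      rw [real_inner_comm n₁ a, real_inner_comm b n₁]
      ring
    · simp only [alg2_hs_apply, ptH, smul_add, inner_add_left, inner_add_right,
        inner_smul_right]
      rw [real_inner_comm n₂ a, real_inner_comm b n₁, real_inner_comm n₂ b]
      ring
  ext x
  constructor
  · rintro ⟨w, hw, rfl⟩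
    change alg2_hs a b c w ∈ _
    rw [eq_ptH hw, key]
    exact ptH_mem _ _ _ _
  · intro hx
    refine ⟨ptH n₁ n₂ c' x.1, ptH_mem _ _ _ _, ?_⟩
    change alg2_hs a b c _ = x
    rw [key]
    exact (eq_ptH hx).symm

theorem alg2_hs_Pp (a b : Q) (c : ℝ) : im (alg2_hs a b c) (Pp Q) = Pp Q := by
  have key : ∀ x ∈ Pp Q, alg2_hs a b c x = x := by
    intro x hx
    obtain ⟨h1, h2⟩ := hx
    rw [alg2_hs_apply, h1, h2]
    refine Prod.ext h1.symm (Prod.ext ?_ (Prod.ext ?_ ?_))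
    · simp [h2]
    · simp
    · simp
  ext x
  constructor
  · rintro ⟨w, hw, rfl⟩
    change alg2_hs a b c w ∈ _
    rw [key w hw]; exact hw
  · intro hx
    exact ⟨x, hx, key x hx⟩

theorem alg2_hs_zt (a b : Q) (c τ : ℝ) (x : W Q) :
    alg2_hs a b c (zt τ x) = zt τ (alg2_hs a b c x) := by
  refine Prod.ext rfl (Prod.ext rfl (Prod.ext ?_ ?_))
  · simp only [alg2_hs_apply, zt_apply]; ring
  · simp only [alg2_hs_apply, zt_apply]; ring

theorem alg2_hs_P0 (a b : Q) (c : ℝ) : im (alg2_hs a b c) (P0 Q) = PH a b c := by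
  rw [P0, alg2_hs_PH]
  simp

theorem good_iff [FiniteDimensional ℝ Q] {Λ : Set (Submodule ℝ (W Q))} (hΛ : FolW Λ)
    (h0 : P0 Q ∈ Λ)
    (hz : ∀ τ, StW Λ (zt τ)) (hy : ∀ κ, StW Λ (yk κ)) {R : Q → Q}
    (hR : ∀ P, P ∈ Λ ↔ P = Pp Q ∨ ∃ q c, P = PH q (R q) c) (a : Q) (c : ℝ) :
    Good Λ (PH a (R a) c) ↔ ∀ x, R (x + a) = R x + R a := by
  constructor
  · intro hgood
    have hmem : PH a (R a) c ∈ Λ := (hR _).mpr (Or.inr ⟨a, c, rfl⟩)
    -- the conjugated foliation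
    set n : W Q ≃ₗ[ℝ] W Q := alg2_hs a (R a) c with hn
    have hni : ∀ x y, bW (n x) (n y) = bW x y := alg2_hs_bW _ _ _
    have hsi : ∀ x y, bW (n.symm x) (n.symm y) = bW x y := by
      intro x y
      rw [← hni, n.apply_symm_apply, n.apply_symm_apply]
    have hΛn : FolW (mapS n.symm Λ) := hΛ.mapS hsi
    have h0n : P0 Q ∈ mapS n.symm Λ := by
      refine ⟨_, hmem, ?_⟩
      rw [← alg2_hs_P0 a (R a) c, im_symm]
    have hzn : ∀ τ, StW (mapS n.symm Λ) (zt τ) := by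
      intro τ
      have h1 := (hz τ).conj hsi
      have h2 : n.symm.symm.trans ((zt τ).trans n.symm) = zt τ := by
        refine LinearEquiv.ext fun x => ?_
        change n.symm (zt τ (n x)) = zt τ x
        rw [LinearEquiv.symm_apply_eq, hn, alg2_hs_zt]
      rwa [h2] at h1
    have hyn : ∀ κ, StW (mapS n.symm Λ) (yk κ) := by
      intro κ
      refine ⟨bW_yk κ, ?_⟩
      rintro _ ⟨P, hP, rfl⟩
      set u : W Q := ((1, 0), 0, 0) with hu
      set w : W Q := ((0, κ / 2), 0, 0) with hw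
      have huP : u ∈ P0 Q := mem_P0.mpr ⟨rfl, rfl⟩
      have hwP : w ∈ P0 Q := mem_P0.mpr ⟨rfl, rfl⟩
      have h1 : tvL u w = ((yk κ : W Q ≃ₗ[ℝ] W Q) : W Q →ₗ[ℝ] W Q) := by
        rw [alg2_tvL_P0 huP hwP]
        have e : 2 * (u.1.1 * w.1.2 - u.1.2 * w.1.1) = κ := by
          simp only [hu, hw]; ring
        rw [e]
      have hnu : n u ∈ PH a (R a) c := by
        rw [← alg2_hs_P0 a (R a) c]; exact apply_mem_im.mpr huP
      have hnw : n w ∈ PH a (R a) c := by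
        rw [← alg2_hs_P0 a (R a) c]; exact apply_mem_im.mpr hwP
      refine ⟨P.map (tvL (n u) (n w)), hgood _ hnu _ hnw P hP, ?_⟩
      change (im n.symm P).map ((yk κ : W Q ≃ₗ[ℝ] W Q) : W Q →ₗ[ℝ] W Q) = _
      rw [← h1, ← alg2_map_tvL hsi, n.symm_apply_apply, n.symm_apply_apply]
    have hRn : ∀ P, P ∈ mapS n.symm Λ ↔
        P = Pp Q ∨ ∃ q c', P = PH q ((fun x => R (x + a) - R a) q) c' := by
      intro P
      constructor
      · rintro ⟨P', hP', rfl⟩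
        rcases (hR P').mp hP' with rfl | ⟨q, c', rfl⟩
        · left
          rw [hn, alg2_hs_symm]
          exact alg2_hs_Pp _ _ _
        · right
          refine ⟨q - a, -c + c' + 1 / 4 * (⟪-a, R q⟫ - ⟪q, -(R a)⟫), ?_⟩
          rw [hn, alg2_hs_symm, alg2_hs_PH]
          have e1 : -a + q = q - a := by abel
          have e2 : -(R a) + R q = R (q - a + a) - R a := by
            rw [sub_add_cancel]; abel
          rw [e1, e2]
      · rintro (rfl | ⟨q, c', rfl⟩)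
        · refine ⟨Pp Q, (hR _).mpr (Or.inl rfl), ?_⟩
          rw [hn, alg2_hs_symm, alg2_hs_Pp]
        · refine ⟨PH (q + a) (R (q + a))
            (c' + c - 1 / 4 * (⟪-a, R (q + a)⟫ - ⟪q + a, -(R a)⟫)),
            (hR _).mpr (Or.inr ⟨_, _, rfl⟩), ?_⟩
          rw [hn, alg2_hs_symm, alg2_hs_PH]
          have e1 : -a + (q + a) = q := by abel
          have e2 : -(R a) + R (q + a) = R (q + a) - R a := by abel
          have e3 : -c + (c' + c - 1 / 4 * (⟪-a, R (q + a)⟫ - ⟪q + a, -(R a)⟫)) +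
              1 / 4 * (⟪-a, R (q + a)⟫ - ⟪q + a, -(R a)⟫) = c' := by ring
          rw [e1, e2, e3]
    intro z
    have h1 := alg_hom hΛn h0n hzn hyn hRn 2 ((1 / 2 : ℝ) • (z - a))
    have h2 := alg_hom hΛ h0 hz hy hR 2 ((1 / 2 : ℝ) • (z - a) + a)
    simp only [smul_smul, smul_add] at h1 h2
    norm_num at h1 h2
    have e1 : z - a + (2 : ℝ) • a = z + a := by
      rw [two_smul]; abel
    rw [e1] at h2
    rw [smul_sub, ← h2] at h1
    have h3 : R z = R (z + a) - (2 : ℝ) • R a + R a := by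
      rw [← h1]; abel
    rw [h3, two_smul]
    abel
  · intro hadd
    have hst : StW Λ (alg2_hs a (R a) c) := by
      refine ⟨alg2_hs_bW _ _ _, fun P hP => ?_⟩
      rcases (hR P).mp hP with rfl | ⟨q, c', rfl⟩
      · rw [alg2_hs_Pp]; exact hP
      · rw [alg2_hs_PH]
        refine (hR _).mpr (Or.inr ⟨q + a, c + c' + 1 / 4 * (⟪a, R q⟫ - ⟪q, R a⟫), ?_⟩)
        rw [hadd q, add_comm a q, add_comm (R a) (R q)]
    have h1 := good_im hΛ hst (good_P0 hy)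
    rwa [alg2_hs_P0] at h1

theorem alg_RA [FiniteDimensional ℝ Q] {Λ : Set (Submodule ℝ (W Q))} (hΛ : FolW Λ)
    (h0 : P0 Q ∈ Λ)
    (hz : ∀ τ, StW Λ (zt τ)) (hy : ∀ κ, StW Λ (yk κ)) {R : Q → Q}
    (hR : ∀ P, P ∈ Λ ↔ P = Pp Q ∨ ∃ q c, P = PH q (R q) c) (a : Q)
    (ha : ∀ x, R (x + a) = R x + R a) : ∀ x, R (x + R a) = R x + R (R a) := by
  have hhom := alg_hom hΛ h0 hz hy hR
  have hR0 : R 0 = 0 := by
    have := hhom 0 0
    simpa using this
  -- the additive vectors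
  have hadd : ∀ u v : Q, (∀ x, R (x + u) = R x + R u) → (∀ x, R (x + v) = R x + R v) →
      ∀ x, R (x + (u + v)) = R x + R (u + v) := by
    intro u v hu hv x
    rw [← add_assoc, hv, hu, hv u]
    abel
  have hsm : ∀ (s : ℝ) (u : Q), (∀ x, R (x + u) = R x + R u) →
      ∀ x, R (x + s • u) = R x + R (s • u) := by
    intro s u hu x
    by_cases hs : s = 0
    · rw [hs, zero_smul, add_zero, hR0, add_zero]
    · have e : x + s • u = s • (s⁻¹ • x + u) := by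
        rw [smul_add, smul_smul, mul_inv_cancel₀ hs, one_smul]
      rw [e, hhom, hu, smul_add, ← hhom, ← hhom, smul_smul, mul_inv_cancel₀ hs, one_smul]
  by_cases ha0 : a = 0
  · intro x
    rw [ha0, hR0, add_zero, hR0, add_zero]
  have hgood : Good Λ (PH a (R a) 0) := (good_iff hΛ h0 hz hy hR a 0).mpr ha
  have hgood' := good_im hΛ (hy 4) hgood
  have hmem : im (yk 4) (PH a (R a) 0) ∈ Λ :=
    (hy 4).map _ ((hR _).mpr (Or.inr ⟨a, 0, rfl⟩))
  obtain ⟨β, c, hβ⟩ := im_yk_PH a (R a)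
  set t : ℝ := (1 + (‖a‖ ^ 2 * ‖R a‖ ^ 2 - ⟪a, R a⟫ ^ 2))⁻¹ with ht
  set v : Q := (1 - ⟪a, R a⟫) • a + ‖a‖ ^ 2 • R a with hv
  rw [hβ] at hgood' hmem
  have hβ' : β = R (t • v) := by
    rcases (hR _).mp hmem with h | ⟨q, c', h⟩
    · exact absurd h.symm (Pp_ne_PH _ _ _)
    · obtain ⟨h1, h2, -⟩ := PH_inj h
      rw [h1, h2]
  rw [hβ'] at hgood'
  have h1 := (good_iff hΛ h0 hz hy hR (t • v) c).mp hgood'
  have htpos : 0 < 1 + (‖a‖ ^ 2 * ‖R a‖ ^ 2 - ⟪a, R a⟫ ^ 2) := by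
    have h2 := abs_real_inner_le_norm a (R a)
    have h3 : ⟪a, R a⟫ ^ 2 ≤ (‖a‖ * ‖R a‖) ^ 2 := by
      rw [← sq_abs ⟪a, R a⟫]
      exact pow_le_pow_left₀ (abs_nonneg _) h2 2
    rw [mul_pow] at h3
    linarith
  have ht0 : t ≠ 0 := by
    rw [ht]; exact inv_ne_zero htpos.ne'
  have h4 := hsm t⁻¹ _ h1
  rw [smul_smul, inv_mul_cancel₀ ht0, one_smul] at h4
  have h5 := hadd _ _ h4 (hsm (-(1 - ⟪a, R a⟫)) a ha)
  have e5 : v + -(1 - ⟪a, R a⟫) • a = ‖a‖ ^ 2 • R a := by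
    rw [hv, neg_smul]; abel
  rw [e5] at h5
  have hna : (‖a‖ ^ 2 : ℝ) ≠ 0 := pow_ne_zero 2 (norm_ne_zero_iff.mpr ha0)
  have h6 := hsm (‖a‖ ^ 2)⁻¹ _ h5
  rw [smul_smul, inv_mul_cancel₀ hna, one_smul] at h6
  exact h6

end Pool.Agent.H2.AdS
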