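import Pool.Agent.H2.AdS.Gap.Alg2

/-!
GAP-11: the algebraic end of the gap theorem.
-/

set_option autoImplicit false

open scoped RealInnerProductSpace
open Filter Topology

namespace Pool.Agent.H2.AdS

variable {Q : Type*} [NormedAddCommGroup Q] [InnerProductSpace ℝ Q]

theorem galg_mem_PH_zero (y : ℝ × ℝ) : ((y, (0 : Q), (0, 0)) : W Q) ∈ PH (0 : Q) 0 0 := by
  rw [mem_PH]
  simp

/-- an isometry which preserves `Λ` maps the vectors with `x.2.1` in the good subspace to such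
vectors -/
theorem galg_inv [FiniteDimensional ℝ Q] {Λ : Set (Submodule ℝ (W Q))} (hΛ : FolW Λ)
    (h0 : P0 Q ∈ Λ) (hz : ∀ τ, StW Λ (zt τ)) (hy : ∀ κ, StW Λ (yk κ)) {R : Q → Q}
    (hR : ∀ P, P ∈ Λ ↔ P = Pp Q ∨ ∃ q c, P = PH q (R q) c) (A : Submodule ℝ Q)
    (hA : ∀ a, a ∈ A ↔ ∀ x, R (x + a) = R x + R a) (hRA : ∀ a ∈ A, R a ∈ A)
    (hR0 : R 0 = 0) {γ : W Q ≃ₗ[ℝ] W Q} (hγ : StW Λ γ) {x : W Q} (hx : x.2.1 ∈ A) :
    (γ x).2.1 ∈ A := by
  -- good leaves
  have hgood : ∀ P ∈ Λ, Good Λ P → ∀ z ∈ im γ P, z.2.1 ∈ A := by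
    intro P hP hgP z hz'
    have h1 : Good Λ (im γ P) := good_im hΛ hγ hgP
    have h2 : im γ P ∈ Λ := hγ.map P hP
    rcases (hR _).1 h2 with h3 | ⟨q, c, h3⟩
    · rw [h3] at hz'
      have h4 : z.2.1 = 0 := hz'.2
      rw [h4]
      exact A.zero_mem
    · rw [h3] at h1 hz'
      have h4 : q ∈ A := (hA q).2 ((good_iff hΛ h0 hz hy hR q c).1 h1)
      have h5 := (mem_PH.1 hz').1
      rw [h5]
      exact A.add_mem (A.smul_mem _ h4) (A.smul_mem _ (hRA q h4))
  have hPpΛ : Pp Q ∈ Λ := (hR _).2 (Or.inl rfl)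
  have h1 : ∀ z ∈ Pp Q, (γ z).2.1 ∈ A := fun z hz' =>
    hgood _ hPpΛ (good_Pp hz) _ (apply_mem_im.2 hz')
  have h2 : ∀ a ∈ A, ∀ c, ∀ z ∈ PH a (R a) c, (γ z).2.1 ∈ A := fun a ha c z hz' =>
    hgood _ ((hR _).2 (Or.inr ⟨a, c, rfl⟩))
      ((good_iff hΛ h0 hz hy hR a c).2 ((hA a).1 ha)) _ (apply_mem_im.2 hz')
  have h3 : ∀ y : ℝ × ℝ, (γ ((y, (0 : Q), (0, 0)) : W Q)).2.1 ∈ A := by
    intro y
    refine h2 0 A.zero_mem 0 _ ?_
    rw [hR0]
    exact galg_mem_PH_zero y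
  have e : x = ((x.1, (0 : Q), (0, 0)) : W Q) + (ptH x.2.1 (R x.2.1) 0 (1, 0) -
      (((1, 0), (0 : Q), (0, 0)) : W Q)) +
      (((0, 0), (0 : Q), (x.2.2.1 - (ptH x.2.1 (R x.2.1) 0 (1, 0)).2.2.1,
        x.2.2.2 - (ptH x.2.1 (R x.2.1) 0 (1, 0)).2.2.2)) : W Q) := by
    refine Prod.ext (Prod.ext ?_ ?_) (Prod.ext ?_ (Prod.ext ?_ ?_)) <;> simp [ptH]
  rw [e, map_add, map_add, map_sub]
  refine A.add_mem (A.add_mem (h3 _) (A.sub_mem (h2 _ hx 0 _ (ptH_mem _ _ _ _)) (h3 _))) ?_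
  exact h1 _ ⟨rfl, rfl⟩

theorem gap_alg [FiniteDimensional ℝ Q] (hQ : ∃ q : Q, q ≠ 0) {Λ : Set (Submodule ℝ (W Q))}
    (hΛ : FolW Λ) (hc : CocW Λ) (h0 : P0 Q ∈ Λ) (hp : Pp Q ∈ Λ) (hz : ∀ τ, StW Λ (zt τ))
    (hy : ∀ κ, StW Λ (yk κ)) :
    ∃ S : Q →ₗ[ℝ] Q, (∀ q : Q, q ≠ 0 → ∀ c : ℝ, S q ≠ c • q) ∧ Λ = LamC S := by
  obtain ⟨R, hR⟩ := alg_R hΛ hp hz
  have hhom := fun s q => alg_hom hΛ h0 hz hy hR s q
  have hR0 : R 0 = 0 := by
    have := hhom 0 0
    rwa [zero_smul, zero_smul] at this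
  -- the good subspace
  let A : Submodule ℝ Q :=
    { carrier := {a | ∀ x, R (x + a) = R x + R a}
      zero_mem' := by
        intro x
        rw [add_zero, hR0, add_zero]
      add_mem' := by
        intro a b ha hb x
        have ha' : ∀ x, R (x + a) = R x + R a := ha
        have hb' : ∀ x, R (x + b) = R x + R b := hb
        rw [← add_assoc, hb' (x + a), ha' x, hb' a, add_assoc]
      smul_mem' := by
        intro s a ha x
        have ha' : ∀ x, R (x + a) = R x + R a := ha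
        by_cases hs : s = 0
        · rw [hs, zero_smul, add_zero, hR0, add_zero]
        · have e : x + s • a = s • (s⁻¹ • x + a) := by
            rw [smul_add, smul_smul, mul_inv_cancel₀ hs, one_smul]
          rw [e, hhom, ha', hhom, smul_add, smul_smul, mul_inv_cancel₀ hs, one_smul, hhom] }
  have hA : ∀ a, a ∈ A ↔ ∀ x, R (x + a) = R x + R a := fun a => Iff.rfl
  have hRA : ∀ a ∈ A, R a ∈ A := fun a ha => alg_RA hΛ h0 hz hy hR a ha
  have htop : A = ⊤ := by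
    by_contra hne
    have h1 : Aᗮ ≠ ⊥ := by
      intro h
      exact hne (Submodule.orthogonal_eq_bot_iff.1 h)
    obtain ⟨q, hq, hq0⟩ := Submodule.exists_mem_ne_zero_of_ne_bot h1
    set q₁ : Q := ‖q‖⁻¹ • q with hq₁
    have hq₁A : q₁ ∈ Aᗮ := Submodule.smul_mem _ _ hq
    have hq₁n : ‖q₁‖ = 1 := by
      rw [hq₁, norm_smul, norm_inv, norm_norm, inv_mul_cancel₀ (norm_ne_zero_iff.2 hq0)]
    obtain ⟨K, hK, hK1, hKγ⟩ := hc
    obtain ⟨B, hB⟩ := hK.isBounded.exists_norm_le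
    set T : ℝ := max B 0 + 1 with hT
    set xT : W Q := ((1, 0), T • q₁, (-(1 + T ^ 2) / 4, 0)) with hxT
    have hxT1 : bW xT xT = -1 := by
      rw [bW_self, hxT]
      simp only [norm_smul, hq₁n, mul_one, Real.norm_eq_abs, sq_abs]
      ring
    obtain ⟨γ, hγ, hγK⟩ := hKγ xT hxT1
    set z : W Q := ((0, 0), q₁, (0, 0)) with hz'
    -- the image of `z`
    have h2 : ∀ x : W Q, x.2.1 ∈ A → bW (γ z) x = 0 := by
      intro x hx
      have h3 := galg_inv hΛ h0 hz hy hR A hA hRA hR0 (hγ.symm hΛ) hx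
      have h4 : bW (γ z) x = bW z (γ.symm x) := by
        rw [← hγ.iso z (γ.symm x), LinearEquiv.apply_symm_apply]
      have h5 : ⟪q₁, (γ.symm x).2.1⟫ = 0 :=
        (Submodule.mem_orthogonal' A q₁).1 hq₁A _ h3
      rw [h4]
      simp only [bW, hz', h5]
      ring
    have h6 : (γ z).1.1 = 0 := by
      have := h2 ((0, 0), 0, (1, 0)) A.zero_mem
      simp only [bW, inner_zero_right] at this
      linarith
    have h7 : (γ z).1.2 = 0 := by
      have := h2 ((0, 0), 0, (0, 1)) A.zero_mem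
      simp only [bW, inner_zero_right] at this
      linarith
    have h8 : (γ z).2.2.1 = 0 := by
      have := h2 ((1, 0), 0, (0, 0)) A.zero_mem
      simp only [bW, inner_zero_right] at this
      linarith
    have h9 : (γ z).2.2.2 = 0 := by
      have := h2 ((0, 1), 0, (0, 0)) A.zero_mem
      simp only [bW, inner_zero_right] at this
      linarith
    have h10 : ‖(γ z).2.1‖ = 1 := by
      have h11 := hγ.iso z z
      rw [bW_self, bW_self, h6, h7, hz'] at h11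
      simp only [hq₁n] at h11
      have h12 : ‖(γ z).2.1‖ ^ 2 = 1 := by
        rw [← hz'] at h11
        linarith
      nlinarith [norm_nonneg (γ z).2.1]
    have h13 : T = ⟪(γ z).2.1, (γ xT).2.1⟫ := by
      have h14 : bW z xT = T := by
        simp only [bW, hz', hxT, inner_smul_right, real_inner_self_eq_norm_sq, hq₁n]
        ring
      have h15 := hγ.iso z xT
      rw [h14] at h15
      rw [← h15]
      simp only [bW, h6, h7, h8, h9]
      ring
    have h16 : ‖(γ xT).2.1‖ ≤ B :=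
      ((norm_fst_le _).trans (norm_snd_le _)).trans (hB _ hγK)
    have h17 : T ≤ B := by
      rw [h13]
      refine (real_inner_le_norm _ _).trans ?_
      rw [h10, one_mul]
      exact h16
    have := le_max_left B 0
    linarith
  -- the linear map
  have hadd : ∀ x a, R (x + a) = R x + R a := by
    intro x a
    have : a ∈ A := by rw [htop]; exact Submodule.mem_top
    exact this x
  let S : Q →ₗ[ℝ] Q :=
    { toFun := R
      map_add' := hadd
      map_smul' := fun s q => hhom s q }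
  have hS : ∀ q, S q = R q := fun q => rfl
  refine ⟨S, ?_, ?_⟩
  · intro q hq c hcon
    apply hq
    have h1 : PH q (R q) 0 ∈ Λ := (hR _).2 (Or.inr ⟨q, 0, rfl⟩)
    have h2 : ((-c, 1), (0 : Q), (0, 0)) ∈ PH q (R q) 0 := by
      rw [← hS, hcon, mem_PH]
      simp
    have h3 : (((-c, 1), (0 : Q), (0, 0)) : W Q) ∈ P0 Q := galg_mem_PH_zero (-c, 1)
    have h4 : (((-c, 1), (0 : Q), (0, 0)) : W Q) ≠ 0 := by
      intro h
      have := congrArg (fun x : W Q => x.1.2) h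
      simp at this
    have h5 := hΛ.uni _ h1 _ h0 _ h4 h2 h3
    exact (PH_inj h5).1
  · ext P
    rw [hR]
    exact Iff.rfl

end Pool.Agent.H2.AdS
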