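import Pool.Agent.H2.AdS.Gap.Defs
import Pool.Agent.H2.AdS.Limit

/-!
# GAP-1: bounded sequences of isometries of `W Q`
-/

set_option autoImplicit false

open scoped RealInnerProductSpace
open Filter Topology Metric

namespace Pool.Agent.H2.AdS

variable {Q : Type*} [NormedAddCommGroup Q] [InnerProductSpace ℝ Q]

omit [InnerProductSpace ℝ Q] in
theorem bdd_comp_le (x : W Q) : |x.1.1| ≤ ‖x‖ ∧ |x.1.2| ≤ ‖x‖ ∧ ‖x.2.1‖ ≤ ‖x‖ ∧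
    |x.2.2.1| ≤ ‖x‖ ∧ |x.2.2.2| ≤ ‖x‖ := by
  have h1 : ‖x.1‖ ≤ ‖x‖ := norm_fst_le x
  have h2 : ‖x.2‖ ≤ ‖x‖ := norm_snd_le x
  have h3 : ‖x.2.1‖ ≤ ‖x.2‖ := norm_fst_le x.2
  have h4 : ‖x.2.2‖ ≤ ‖x.2‖ := norm_snd_le x.2
  refine ⟨(norm_fst_le x.1).trans h1, (norm_snd_le x.1).trans h1, h3.trans h2,
    (norm_fst_le x.2.2).trans (h4.trans h2), (norm_snd_le x.2.2).trans (h4.trans h2)⟩

theorem bdd_form_le (x y : W Q) : |bW x y| ≤ 9 * ‖x‖ * ‖y‖ := by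
  obtain ⟨a1, a2, a3, a4, a5⟩ := bdd_comp_le x
  obtain ⟨b1, b2, b3, b4, b5⟩ := bdd_comp_le y
  have hx := norm_nonneg x
  have hy := norm_nonneg y
  have h0 : |⟪x.2.1, y.2.1⟫| ≤ ‖x‖ * ‖y‖ :=
    (abs_real_inner_le_norm _ _).trans (mul_le_mul a3 b3 (norm_nonneg _) hx)
  have hm : ∀ s t : ℝ, |s| ≤ ‖x‖ → |t| ≤ ‖y‖ → |s * t| ≤ ‖x‖ * ‖y‖ := by
    intro s t hs ht
    rw [abs_mul]
    exact mul_le_mul hs ht (abs_nonneg _) hx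
  have c1 := hm _ _ a1 b4
  have c2 := hm _ _ a2 b5
  have c3 := hm _ _ a4 b1
  have c4 := hm _ _ a5 b2
  rw [abs_le] at h0 c1 c2 c3 c4 ⊢
  unfold bW
  constructor
  · nlinarith [h0.1, c1.1, c2.1, c3.1, c4.1]
  · nlinarith [h0.2, c1.2, c2.2, c3.2, c4.2]

theorem bdd_norm_sq_le (x : W Q) : ‖x‖ ^ 2 ≤ bW x (x.2.2, x.2.1, x.1) := by
  have h : bW x (x.2.2, x.2.1, x.1) = ‖x.2.1‖ ^ 2 + 2 * (x.1.1 ^ 2 + x.1.2 ^ 2) +
      2 * (x.2.2.1 ^ 2 + x.2.2.2 ^ 2) := by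
    unfold bW
    rw [real_inner_self_eq_norm_sq]
    ring
  rw [h]
  have h1 := sq_nonneg x.1.1
  have h2 := sq_nonneg x.1.2
  have h3 := sq_nonneg x.2.2.1
  have h4 := sq_nonneg x.2.2.2
  have h5 := sq_nonneg ‖x.2.1‖
  rcases max_choice ‖x.1‖ ‖x.2‖ with hm | hm
  · rw [Prod.norm_def, hm]
    rcases max_choice ‖x.1.1‖ ‖x.1.2‖ with hm' | hm'
    · rw [Prod.norm_def, hm', Real.norm_eq_abs, sq_abs]; linarith
    · rw [Prod.norm_def, hm', Real.norm_eq_abs, sq_abs]; linarith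
  · rw [Prod.norm_def, hm]
    rcases max_choice ‖x.2.1‖ ‖x.2.2‖ with hm' | hm'
    · rw [Prod.norm_def, hm']; linarith
    · rw [Prod.norm_def, hm']
      rcases max_choice ‖x.2.2.1‖ ‖x.2.2.2‖ with hm'' | hm''
      · rw [Prod.norm_def, hm'', Real.norm_eq_abs, sq_abs]; linarith
      · rw [Prod.norm_def, hm'', Real.norm_eq_abs, sq_abs]; linarith

omit [InnerProductSpace ℝ Q] in
theorem bdd_norm_flip (x : W Q) : ‖((x.2.2, x.2.1, x.1) : W Q)‖ = ‖x‖ := by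
  simp only [Prod.norm_def]
  ac_rfl

theorem bdd_tform {𝒰 : Ultrafilter ℕ} {f g : ℕ → W Q} {a b : W Q}
    (hf : Tendsto f 𝒰 (𝓝 a)) (hg : Tendsto g 𝒰 (𝓝 b)) :
    Tendsto (fun n => bW (f n) (g n)) 𝒰 (𝓝 (bW a b)) :=
  (continuous_bW.tendsto (a, b)).comp (hf.prodMk_nhds hg)

section FD

variable [FiniteDimensional ℝ Q]

theorem bdd_ops (𝒰 : Ultrafilter ℕ) (f : ℕ → W Q →L[ℝ] W Q) (M : ℝ)
    (hM : ∀ᶠ n in (𝒰 : Filter ℕ), ‖f n‖ ≤ M) :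
    ∃ g : W Q →L[ℝ] W Q, Tendsto f 𝒰 (𝓝 g) := by
  haveI : ProperSpace (W Q →L[ℝ] W Q) := FiniteDimensional.proper ℝ (W Q →L[ℝ] W Q)
  obtain ⟨g, -, hg⟩ := Limit_ultra (isCompact_closedBall (0 : W Q →L[ℝ] W Q) M) 𝒰 (f := f) (by
      filter_upwards [hM] with n hn
      exact (dist_zero_right (f n)).trans_le hn)
  exact ⟨g, hg⟩

omit [FiniteDimensional ℝ Q] in
theorem bdd_eval {𝒰 : Ultrafilter ℕ} {f : ℕ → W Q →L[ℝ] W Q} {g : W Q →L[ℝ] W Q}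
    (h : Tendsto f 𝒰 (𝓝 g)) {x : ℕ → W Q} {x' : W Q} (hx : Tendsto x 𝒰 (𝓝 x')) :
    Tendsto (fun n => f n (x n)) 𝒰 (𝓝 (g x')) := by
  have h1 : Continuous fun p : (W Q →L[ℝ] W Q) × W Q => p.1 p.2 := by fun_prop
  exact (h1.tendsto (g, x')).comp (h.prodMk_nhds hx)

theorem bdd_inv_norm {F : W Q ≃ₗ[ℝ] W Q} (hF : ∀ x y, bW (F x) (F y) = bW x y) :
    ‖LinearMap.toContinuousLinearMap (F.symm : W Q →ₗ[ℝ] W Q)‖ ≤
      9 * ‖LinearMap.toContinuousLinearMap (F : W Q →ₗ[ℝ] W Q)‖ := by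
  refine ContinuousLinearMap.opNorm_le_bound _ (by positivity) fun y => ?_
  change ‖F.symm y‖ ≤ _
  set z := F.symm y with hz
  have h1 := bdd_norm_sq_le z
  have h2 : bW z (z.2.2, z.2.1, z.1) = bW y (F (z.2.2, z.2.1, z.1)) := by
    rw [← hF, hz, LinearEquiv.apply_symm_apply]
  have h3 := (le_abs_self _).trans (bdd_form_le y (F (z.2.2, z.2.1, z.1)))
  have h4 : ‖F (z.2.2, z.2.1, z.1)‖ ≤
      ‖LinearMap.toContinuousLinearMap (F : W Q →ₗ[ℝ] W Q)‖ * ‖z‖ := by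
    have := (LinearMap.toContinuousLinearMap (F : W Q →ₗ[ℝ] W Q)).le_opNorm (z.2.2, z.2.1, z.1)
    rw [bdd_norm_flip] at this
    exact this
  rw [h2] at h1
  rcases eq_or_lt_of_le (norm_nonneg z) with h5 | h5
  · rw [← h5]
    positivity
  · have h6 : ‖z‖ * ‖z‖ ≤
        (9 * ‖LinearMap.toContinuousLinearMap (F : W Q →ₗ[ℝ] W Q)‖ * ‖y‖) * ‖z‖ := by
      calc ‖z‖ * ‖z‖ = ‖z‖ ^ 2 := by ring
        _ ≤ 9 * ‖y‖ * ‖F (z.2.2, z.2.1, z.1)‖ := h1.trans h3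
        _ ≤ 9 * ‖y‖ * (‖LinearMap.toContinuousLinearMap (F : W Q →ₗ[ℝ] W Q)‖ * ‖z‖) :=
            mul_le_mul_of_nonneg_left h4 (by positivity)
        _ = _ := by ring
    exact le_of_mul_le_mul_right h6 h5

end FD

theorem dich_bdd [FiniteDimensional ℝ Q] {Λ : Set (Submodule ℝ (W Q))} (hΛ : FolW Λ)
    (F : ℕ → W Q ≃ₗ[ℝ] W Q) (hF : ∀ n x y, bW (F n x) (F n y) = bW x y) (𝒰 : Ultrafilter ℕ)
    (M : ℝ) (hM : ∀ᶠ n in (𝒰 : Filter ℕ),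
      ‖LinearMap.toContinuousLinearMap (F n : W Q →ₗ[ℝ] W Q)‖ ≤ M) :
    ∃ g : W Q ≃ₗ[ℝ] W Q, (∀ x y, bW (g x) (g y) = bW x y) ∧
      (∀ R : ℕ → Submodule ℝ (W Q), (∀ n, R n ∈ Λ) → ∀ P' : Submodule ℝ (W Q), PhW P' →
        LimW F 𝒰 R P' → ∃ R' ∈ Λ, P' = im g R') ∧
      ∀ R' ∈ Λ, LimW F 𝒰 (fun _ => R') (im g R') := by
  obtain ⟨f, hf⟩ := bdd_ops 𝒰
    (fun n => LinearMap.toContinuousLinearMap (F n : W Q →ₗ[ℝ] W Q)) M hM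
  obtain ⟨G, hG⟩ := bdd_ops 𝒰
    (fun n => LinearMap.toContinuousLinearMap ((F n).symm : W Q →ₗ[ℝ] W Q)) (9 * M) (by
      filter_upwards [hM] with n hn
      exact (bdd_inv_norm (hF n)).trans (mul_le_mul_of_nonneg_left hn (by norm_num)))
  have hfx : ∀ (x : ℕ → W Q) (x' : W Q), Tendsto x 𝒰 (𝓝 x') →
      Tendsto (fun n => F n (x n)) 𝒰 (𝓝 (f x')) := fun x x' hx => bdd_eval hf hx
  have hGx : ∀ (x : ℕ → W Q) (x' : W Q), Tendsto x 𝒰 (𝓝 x') →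
      Tendsto (fun n => (F n).symm (x n)) 𝒰 (𝓝 (G x')) := fun x x' hx => bdd_eval hG hx
  have hfG : ∀ x, f (G x) = x := fun x => by
    refine tendsto_nhds_unique (hfx _ _ (hGx (fun _ => x) x tendsto_const_nhds))
      (tendsto_const_nhds.congr fun n => ?_)
    exact ((F n).apply_symm_apply x).symm
  have hGf : ∀ x, G (f x) = x := fun x => by
    refine tendsto_nhds_unique (hGx _ _ (hfx (fun _ => x) x tendsto_const_nhds))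
      (tendsto_const_nhds.congr fun n => ?_)
    exact ((F n).symm_apply_apply x).symm
  have hfF : ∀ x y, bW (f x) (f y) = bW x y := fun x y =>
    tendsto_nhds_unique (bdd_tform (hfx _ x tendsto_const_nhds) (hfx _ y tendsto_const_nhds))
      (tendsto_const_nhds.congr fun n => (hF n x y).symm)
  let g : W Q ≃ₗ[ℝ] W Q := LinearEquiv.ofLinearMap (f : W Q →ₗ[ℝ] W Q) (G : W Q →ₗ[ℝ] W Q)
    (LinearMap.ext hfG) (LinearMap.ext hGf)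
  have hg : ∀ x, g x = f x := fun x => rfl
  have hgs : ∀ x, g.symm x = G x := fun x => rfl
  have hgiso : ∀ x y, bW (g x) (g y) = bW x y := hfF
  refine ⟨g, hgiso, ?_, ?_⟩
  · intro R hR P' hP' hlim
    obtain ⟨x₁, hx₁, hx₁y⟩ := hP'.graph (1, 0)
    have hx₁0 : x₁ ≠ 0 := by
      rintro rfl
      simpa using congrArg Prod.fst hx₁y
    have hGx₁0 : G x₁ ≠ 0 := by
      intro h
      apply hx₁0
      rw [← hfG x₁, h, map_zero]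
    have key : ∀ x ∈ P', ∃ u : ℕ → W Q, (∀ n, u n ∈ R n) ∧ Tendsto u 𝒰 (𝓝 (G x)) := by
      intro x hx
      obtain ⟨u, hu, hux⟩ := hlim x hx
      refine ⟨u, hu, (hGx _ _ hux).congr fun n => ?_⟩
      exact (F n).symm_apply_apply (u n)
    obtain ⟨u₁, hu₁, hu₁l⟩ := key x₁ hx₁
    obtain ⟨R', hR', hR'1, -⟩ := hΛ.closed 𝒰 R u₁ u₁ (G x₁) (G x₁)
      (fun n => ⟨hR n, hu₁ n, hu₁ n⟩) hu₁l hu₁l
    refine ⟨R', hR', hP'.eq_of_le ((hΛ.ph R' hR').map hgiso) fun x hx => ?_⟩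
    obtain ⟨u, hu, hul⟩ := key x hx
    obtain ⟨R'', hR'', h1, h2⟩ := hΛ.closed 𝒰 R u₁ u (G x₁) (G x)
      (fun n => ⟨hR n, hu₁ n, hu n⟩) hu₁l hul
    have h3 : R' = R'' := hΛ.uni R' hR' R'' hR'' (G x₁) hGx₁0 hR'1 h1
    rw [mem_im, hgs, h3]
    exact h2
  · intro R' hR' x hx
    refine ⟨fun _ => g.symm x, fun _ => mem_im.mp hx, ?_⟩
    have h1 := hfx (fun _ => g.symm x) (g.symm x) tendsto_const_nhds
    have h2 : f (g.symm x) = x := hfG x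
    rwa [h2] at h1

end Pool.Agent.H2.AdS
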