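import Pool.Agent.H2.AdS.Gap.Defs

/-!
# GAP-7: the chart of a photon foliation near `P0`
-/

set_option autoImplicit false

open scoped RealInnerProductSpace
open Filter Topology

namespace Pool.Agent.H2.AdS

variable {Q : Type*} [NormedAddCommGroup Q] [InnerProductSpace ℝ Q]

/-- the isotropic vector `((1,0), q, (-|q|²/4, s))` -/
noncomputable def chart_e (q : Q) (s : ℝ) : W Q := ((1, 0), q, (-(1 / 4) * ‖q‖ ^ 2, s))

theorem chart_e_iso (q : Q) (s : ℝ) : bW (chart_e q s) (chart_e q s) = 0 := by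
  rw [bW_self]
  simp only [chart_e]
  ring

theorem chart_e_ne (q : Q) (s : ℝ) : chart_e q s ≠ 0 := by
  intro h
  have h1 : (chart_e q s).1.1 = (0 : W Q).1.1 := by rw [h]
  simp [chart_e] at h1

theorem chart_e_tendsto {ι : Type*} {l : Filter ι} {q : ι → Q} {s : ι → ℝ} {q' : Q} {s' : ℝ}
    (hq : Tendsto q l (𝓝 q')) (hs : Tendsto s l (𝓝 s')) :
    Tendsto (fun n => chart_e (q n) (s n)) l (𝓝 (chart_e q' s')) := by
  unfold chart_e
  exact tendsto_const_nhds.prodMk_nhds (hq.prodMk_nhds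
    (((hq.norm.pow 2).const_mul _).prodMk_nhds hs))

theorem chart_e_P0 : chart_e (0 : Q) 0 ∈ P0 Q := by
  rw [mem_P0]
  refine ⟨rfl, ?_⟩
  simp [chart_e]

/-- near `(0,0)` the leaf through `chart_e q s` is transverse to `Pp` -/
theorem chart_trans [FiniteDimensional ℝ Q] {Λ : Set (Submodule ℝ (W Q))} (hΛ : FolW Λ)
    (h0 : P0 Q ∈ Λ) {Pf : Q → ℝ → Submodule ℝ (W Q)} (hPf : ∀ q s, Pf q s ∈ Λ)
    (he : ∀ q s, chart_e q s ∈ Pf q s) :
    ∃ ρ : ℝ, 0 < ρ ∧ ∀ q s, ‖q‖ < ρ → |s| < ρ → ∀ x ∈ Pf q s, x ∈ Pp Q → x = 0 := by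
  by_contra hcon
  push Not at hcon
  have hc : ∀ n : ℕ, ∃ (q : Q) (s : ℝ), ‖q‖ < 1 / ((n : ℝ) + 1) ∧ |s| < 1 / ((n : ℝ) + 1) ∧
      ∃ x ∈ Pf q s, x ∈ Pp Q ∧ x ≠ 0 := fun n => hcon _ (by positivity)
  choose q s hq hs x hx hxp hx0 using hc
  have hqt : Tendsto q atTop (𝓝 0) :=
    squeeze_zero_norm (fun n => (hq n).le) tendsto_one_div_add_atTop_nhds_zero_nat
  have hst : Tendsto s atTop (𝓝 0) :=
    squeeze_zero_norm (fun n => by rw [Real.norm_eq_abs]; exact (hs n).le)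
      tendsto_one_div_add_atTop_nhds_zero_nat
  obtain ⟨w, hw, -⟩ := ultra_lim (hyperfilter ℕ) (u := fun n => ‖x n‖⁻¹ • x n) (C := 1)
    (fun n => by
      rw [norm_smul, norm_inv, norm_norm, inv_mul_cancel₀ (norm_ne_zero_iff.mpr (hx0 n))])
  have hw1 : ‖w‖ = 1 := by
    refine tendsto_nhds_unique hw.norm (tendsto_const_nhds.congr fun n => ?_)
    rw [norm_smul, norm_inv, norm_norm, inv_mul_cancel₀ (norm_ne_zero_iff.mpr (hx0 n))]
  have hle : ((hyperfilter ℕ : Ultrafilter ℕ) : Filter ℕ) ≤ atTop := by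
    rw [← Nat.cofinite_eq_atTop]; exact hyperfilter_le_cofinite
  obtain ⟨P', hP', h1, h2⟩ := hΛ.closed (hyperfilter ℕ) (fun n => Pf (q n) (s n))
    (fun n => chart_e (q n) (s n)) (fun n => ‖x n‖⁻¹ • x n) _ _
    (fun n => ⟨hPf _ _, he _ _, (Pf (q n) (s n)).smul_mem _ (hx n)⟩)
    ((chart_e_tendsto hqt hst).mono_left hle) hw
  have h3 : P' = P0 Q := hΛ.uni _ hP' _ h0 _ (chart_e_ne _ _) h1 chart_e_P0
  rw [h3, mem_P0] at h2
  have h4 : w.1 = 0 := by
    refine tendsto_nhds_unique ((continuous_fst.tendsto _).comp hw)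
      (tendsto_const_nhds.congr fun n => ?_)
    change _ = (‖x n‖⁻¹ • x n).1
    rw [Prod.smul_fst, (hxp n).1, smul_zero]
  have h5 : w = 0 := Prod.ext h4 (Prod.ext h2.1 h2.2)
  rw [h5, norm_zero] at hw1
  exact zero_ne_one hw1

theorem chart [FiniteDimensional ℝ Q] {Λ : Set (Submodule ℝ (W Q))} (hΛ : FolW Λ)
    (h0 : P0 Q ∈ Λ) : ∃ (ρ : ℝ) (r : Q → ℝ → Q), 0 < ρ ∧
      (∀ (q : Q) (s : ℝ), ‖q‖ < ρ → |s| < ρ → PH q (r q s) (s + (1 / 4) * ⟪r q s, q⟫) ∈ Λ) ∧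
      ContinuousOn (fun p : Q × ℝ => r p.1 p.2) {p | ‖p.1‖ < ρ ∧ |p.2| < ρ} ∧ r 0 0 = 0 := by
  classical
  choose Pf hPf he using fun (q : Q) (s : ℝ) =>
    hΛ.cov (chart_e q s) (chart_e_ne q s) (chart_e_iso q s)
  obtain ⟨ρ, hρ, htr⟩ := chart_trans hΛ h0 hPf he
  have hex : ∀ (q : Q) (s : ℝ), ‖q‖ < ρ → |s| < ρ →
      ∃ r : Q, Pf q s = PH q r (s + (1 / 4) * ⟪r, q⟫) := by
    intro q s hq hs
    obtain ⟨a, b, c, h⟩ := (hΛ.ph _ (hPf q s)).exists_PH (htr q s hq hs)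
    have h1 : chart_e q s ∈ PH a b c := h ▸ he q s
    obtain ⟨h2, -, h3⟩ := h1
    have ha : a = q := by
      simpa [chart_e] using h2.symm
    have hc : c = s + (1 / 4) * ⟪b, q⟫ := by
      have h4 : s = -(1 / 4) * ⟪b, q⟫ + c * 1 := h3
      linarith
    exact ⟨b, by rw [h, ha, hc]⟩
  choose! r hr using hex
  refine ⟨ρ, r, hρ, fun q s hq hs => hr q s hq hs ▸ hPf q s, ?_, ?_⟩
  · rintro ⟨q₀, s₀⟩ ⟨hq₀, hs₀⟩
    refine tendsto_of_seq_tendsto fun p hp => ?_
    rw [tendsto_iff_ultrafilter]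
    intro 𝒰 h𝒰
    have hp' : Tendsto p 𝒰 (𝓝[{p : Q × ℝ | ‖p.1‖ < ρ ∧ |p.2| < ρ}] (q₀, s₀)) :=
      hp.mono_left h𝒰
    have hpn : Tendsto p 𝒰 (𝓝 (q₀, s₀)) := tendsto_nhds_of_tendsto_nhdsWithin hp'
    have hmem : ∀ᶠ n in (𝒰 : Filter ℕ), ‖(p n).1‖ < ρ ∧ |(p n).2| < ρ :=
      (tendsto_nhdsWithin_iff.mp hp').2
    have hq : Tendsto (fun n => (p n).1) 𝒰 (𝓝 q₀) := (continuous_fst.tendsto _).comp hpn
    have hs : Tendsto (fun n => (p n).2) 𝒰 (𝓝 s₀) := (continuous_snd.tendsto _).comp hpn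
    have het := chart_e_tendsto hq hs
    -- the limit leaf
    have hleaf : ∀ (w : ℕ → W Q) (w' : W Q), (∀ n, w n ∈ Pf (p n).1 (p n).2) →
        Tendsto w 𝒰 (𝓝 w') → w' ∈ PH q₀ (r q₀ s₀) (s₀ + (1 / 4) * ⟪r q₀ s₀, q₀⟫) := by
      intro w w' hw hwt
      obtain ⟨P', hP', h1, h2⟩ := hΛ.closed 𝒰 (fun n => Pf (p n).1 (p n).2)
        (fun n => chart_e (p n).1 (p n).2) w _ _ (fun n => ⟨hPf _ _, he _ _, hw n⟩) het hwt
      have h3 : P' = Pf q₀ s₀ := hΛ.uni _ hP' _ (hPf _ _) _ (chart_e_ne _ _) h1 (he _ _)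
      rw [h3, hr q₀ s₀ hq₀ hs₀] at h2
      exact h2
    set c : ℕ → ℝ := fun n => (p n).2 + (1 / 4) * ⟪r (p n).1 (p n).2, (p n).1⟫ with hcdef
    set v : ℕ → W Q := fun n => ptH (p n).1 (r (p n).1 (p n).2) (c n) (0, 1) with hv
    have hvm : ∀ n, ‖(p n).1‖ < ρ ∧ |(p n).2| < ρ → v n ∈ Pf (p n).1 (p n).2 := by
      intro n hn
      rw [hr _ _ hn.1 hn.2]
      exact ptH_mem _ _ _ _
    by_cases hbd : ∃ M : ℝ, ∀ᶠ n in (𝒰 : Filter ℕ), ‖r (p n).1 (p n).2‖ ≤ M
    · obtain ⟨M, hM⟩ := hbd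
      have hM0 : 0 ≤ M := by
        obtain ⟨n, hn⟩ := hM.exists
        exact (norm_nonneg _).trans hn
      obtain ⟨r', hr', -⟩ := ultra_lim 𝒰
        (u := fun n => if ‖r (p n).1 (p n).2‖ ≤ M then r (p n).1 (p n).2 else 0) (C := M)
        (fun n => by
          by_cases h : ‖r (p n).1 (p n).2‖ ≤ M
          · simp only [h, if_true]
          · simp only [h, if_false, norm_zero]; exact hM0)
      have hrt : Tendsto (fun n => r (p n).1 (p n).2) 𝒰 (𝓝 r') := by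
        refine hr'.congr' ?_
        filter_upwards [hM] with n hn
        simp only [hn, if_true]
      have hct : Tendsto c 𝒰 (𝓝 (s₀ + (1 / 4) * ⟪r', q₀⟫)) :=
        hs.add ((hrt.inner hq).const_mul _)
      have hvt : Tendsto v 𝒰 (𝓝 (ptH q₀ r' (s₀ + (1 / 4) * ⟪r', q₀⟫) (0, 1))) :=
        tendsto_ptH hq hrt hct tendsto_const_nhds
      have hin := hleaf (fun n => if ‖(p n).1‖ < ρ ∧ |(p n).2| < ρ then v n else 0) _
        (fun n => by
          by_cases h : ‖(p n).1‖ < ρ ∧ |(p n).2| < ρ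
          · simp only [h, and_self, if_true]
            exact hvm n h
          · simp only [h, if_false]
            exact (Pf (p n).1 (p n).2).zero_mem)
        (hvt.congr' (by
          filter_upwards [hmem] with n hn
          simp only [hn, and_self, if_true]))
      obtain ⟨h1, -, -⟩ := hin
      have h2 : r' = r q₀ s₀ := by
        simpa [ptH] using h1
      rw [h2] at hrt
      exact hrt
    · exfalso
      push Not at hbd
      have hinf : Tendsto (fun n => ‖r (p n).1 (p n).2‖) 𝒰 atTop := by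
        refine tendsto_atTop.2 fun M => ?_
        have h1 := hbd M
        have h2 : ∀ᶠ n in (𝒰 : Filter ℕ), ¬ ‖r (p n).1 (p n).2‖ ≤ M := by
          first
            | exact Ultrafilter.eventually_not.mpr h1
            | (filter_upwards [h1] with n hn using not_le.mpr hn)
        filter_upwards [h2] with n hn
        exact (not_le.mp hn).le
      have hvr : ∀ n, ‖r (p n).1 (p n).2‖ ≤ ‖v n‖ := by
        intro n
        have h1 : (v n).2.1 = r (p n).1 (p n).2 := by simp [hv, ptH]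
        rw [← h1]
        exact (norm_fst_le (v n).2).trans (norm_snd_le (v n))
      have hvinf : Tendsto (fun n => ‖v n‖) 𝒰 atTop := tendsto_atTop_mono hvr hinf
      have hv0 : ∀ n, v n ≠ 0 := by
        intro n h
        have h1 : (v n).1.2 = (0 : W Q).1.2 := by rw [h]
        simp [hv, ptH] at h1
      obtain ⟨z, hz, -⟩ := ultra_lim 𝒰 (u := fun n => ‖v n‖⁻¹ • v n) (C := 1)
        (fun n => by
          rw [norm_smul, norm_inv, norm_norm, inv_mul_cancel₀ (norm_ne_zero_iff.mpr (hv0 n))])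
      have hz1 : ‖z‖ = 1 := by
        refine tendsto_nhds_unique hz.norm (tendsto_const_nhds.congr fun n => ?_)
        rw [norm_smul, norm_inv, norm_norm, inv_mul_cancel₀ (norm_ne_zero_iff.mpr (hv0 n))]
      have hz2 : z.1 = 0 := by
        have h1 : Tendsto (fun n => ‖v n‖⁻¹ • ((0 : ℝ), (1 : ℝ))) 𝒰
            (𝓝 ((0 : ℝ) • ((0 : ℝ), (1 : ℝ)))) :=
          (tendsto_inv_atTop_zero.comp hvinf).smul_const _
        rw [zero_smul] at h1
        refine tendsto_nhds_unique ((continuous_fst.tendsto _).comp hz) (h1.congr fun n => ?_)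
        rfl
      have hin := hleaf (fun n => if ‖(p n).1‖ < ρ ∧ |(p n).2| < ρ then ‖v n‖⁻¹ • v n else 0) z
        (fun n => by
          by_cases h : ‖(p n).1‖ < ρ ∧ |(p n).2| < ρ
          · simp only [h, and_self, if_true]
            exact (Pf (p n).1 (p n).2).smul_mem _ (hvm n h)
          · simp only [h, if_false]
            exact (Pf (p n).1 (p n).2).zero_mem)
        (hz.congr' (by
          filter_upwards [hmem] with n hn
          simp only [hn, and_self, if_true]))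
      have h3 := eq_ptH hin
      rw [hz2] at h3
      have h4 : z = 0 := by
        rw [h3]
        simp [ptH]
      rw [h4, norm_zero] at hz1
      exact zero_ne_one hz1
  · have h1 : Pf 0 0 = P0 Q := hΛ.uni _ (hPf 0 0) _ h0 _ (chart_e_ne _ _) (he 0 0) chart_e_P0
    rw [hr 0 0 (by simpa using hρ) (by simpa using hρ)] at h1
    exact (PH_inj h1).2.1

end Pool.Agent.H2.AdS
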