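import Pool.Agent.H2.AdS.Assemble

/-!
# Photon foliations of `W Q`: definitions for the gap theorem
-/

set_option autoImplicit false

open scoped RealInnerProductSpace
open Filter Topology

namespace Pool.Agent.H2.AdS

variable {Q : Type*} [NormedAddCommGroup Q] [InnerProductSpace ℝ Q]

/-- the image of a subspace -/
abbrev im (g : W Q ≃ₗ[ℝ] W Q) (P : Submodule ℝ (W Q)) : Submodule ℝ (W Q) :=
  P.map (g : W Q →ₗ[ℝ] W Q)

theorem mem_im {g : W Q ≃ₗ[ℝ] W Q} {P : Submodule ℝ (W Q)} {x : W Q} :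
    x ∈ im g P ↔ g.symm x ∈ P := by
  constructor
  · rintro ⟨z, hz, rfl⟩
    change g.symm (g z) ∈ P
    rwa [g.symm_apply_apply]
  · intro h
    exact ⟨g.symm x, h, g.apply_symm_apply x⟩

theorem apply_mem_im {g : W Q ≃ₗ[ℝ] W Q} {P : Submodule ℝ (W Q)} {x : W Q} :
    g x ∈ im g P ↔ x ∈ P := by
  rw [mem_im, g.symm_apply_apply]

theorem im_trans (g g' : W Q ≃ₗ[ℝ] W Q) (P : Submodule ℝ (W Q)) :
    im (g.trans g') P = im g' (im g P) := by
  ext x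
  rw [mem_im, mem_im, mem_im]
  rfl

theorem im_symm (g : W Q ≃ₗ[ℝ] W Q) (P : Submodule ℝ (W Q)) : im g.symm (im g P) = P := by
  ext x
  rw [mem_im, LinearEquiv.symm_symm, apply_mem_im]

theorem im_symm' (g : W Q ≃ₗ[ℝ] W Q) (P : Submodule ℝ (W Q)) : im g (im g.symm P) = P := by
  ext x
  rw [mem_im, mem_im, LinearEquiv.symm_symm, LinearEquiv.apply_symm_apply]

/-! ### photons -/

/-- The photon `{(y, N y, D y)}` with `N y = y₁ a + y₂ b` and `D = - N ᵀ N / 4 + c ε`. -/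
def PH (a b : Q) (c : ℝ) : Submodule ℝ (W Q) where
  carrier := {x | x.2.1 = x.1.1 • a + x.1.2 • b ∧ x.2.2.1 = -(1 / 4) * ⟪a, x.2.1⟫ - c * x.1.2 ∧
    x.2.2.2 = -(1 / 4) * ⟪b, x.2.1⟫ + c * x.1.1}
  add_mem' := by
    rintro x y ⟨h1, h2, h3⟩ ⟨h4, h5, h6⟩
    refine ⟨?_, ?_, ?_⟩
    · simp only [Prod.fst_add, Prod.snd_add, h1, h4, add_smul]; abel
    · simp only [Prod.fst_add, Prod.snd_add, h2, h5, inner_add_right]; ring
    · simp only [Prod.fst_add, Prod.snd_add, h3, h6, inner_add_right]; ring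
  zero_mem' := by simp
  smul_mem' := by
    rintro s x ⟨h1, h2, h3⟩
    refine ⟨?_, ?_, ?_⟩
    · simp only [Prod.smul_fst, Prod.smul_snd, h1, smul_add, smul_smul, smul_eq_mul]
    · simp only [Prod.smul_fst, Prod.smul_snd, smul_eq_mul, h2, inner_smul_right]; ring
    · simp only [Prod.smul_fst, Prod.smul_snd, smul_eq_mul, h3, inner_smul_right]; ring

theorem mem_PH {a b : Q} {c : ℝ} {x : W Q} : x ∈ PH a b c ↔
    x.2.1 = x.1.1 • a + x.1.2 • b ∧ x.2.2.1 = -(1 / 4) * ⟪a, x.2.1⟫ - c * x.1.2 ∧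
    x.2.2.2 = -(1 / 4) * ⟪b, x.2.1⟫ + c * x.1.1 := Iff.rfl

theorem Ph_eq_PH (S : Q →ₗ[ℝ] Q) (q : Q) (c : ℝ) : Ph S q c = PH q (S q) c := rfl

/-- the point of `PH a b c` over `y` -/
noncomputable def ptH (a b : Q) (c : ℝ) (y : ℝ × ℝ) : W Q :=
  (y, y.1 • a + y.2 • b, (-(1 / 4) * ⟪a, y.1 • a + y.2 • b⟫ - c * y.2,
    -(1 / 4) * ⟪b, y.1 • a + y.2 • b⟫ + c * y.1))

theorem ptH_mem (a b : Q) (c : ℝ) (y : ℝ × ℝ) : ptH a b c y ∈ PH a b c := ⟨rfl, rfl, rfl⟩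

theorem ptH_fst (a b : Q) (c : ℝ) (y : ℝ × ℝ) : (ptH a b c y).1 = y := rfl

theorem eq_ptH {a b : Q} {c : ℝ} {x : W Q} (hx : x ∈ PH a b c) : x = ptH a b c x.1 := by
  obtain ⟨h1, h2, h3⟩ := hx
  refine Prod.ext rfl (Prod.ext h1 (Prod.ext ?_ ?_))
  · rw [h2, h1]; rfl
  · rw [h3, h1]; rfl

theorem PH_inj {a b a' b' : Q} {c c' : ℝ} (h : PH a b c = PH a' b' c') :
    a = a' ∧ b = b' ∧ c = c' := by
  have h1 : ptH a b c (1, 0) ∈ PH a' b' c' := h ▸ ptH_mem a b c (1, 0)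
  have h2 := eq_ptH h1
  have h1' : ptH a b c (0, 1) ∈ PH a' b' c' := h ▸ ptH_mem a b c (0, 1)
  have h2' := eq_ptH h1'
  have h3 : a = a' := by
    have := congrArg (fun x : W Q => x.2.1) h2
    simpa [ptH] using this
  have h4 : b = b' := by
    have := congrArg (fun x : W Q => x.2.1) h2'
    simpa [ptH] using this
  subst h3 h4
  have h5 := congrArg (fun x : W Q => x.2.2.2) h2
  simp only [ptH] at h5
  exact ⟨rfl, rfl, by linarith⟩

theorem iso_PH {a b : Q} {c : ℝ} {x y : W Q} (hx : x ∈ PH a b c) (hy : y ∈ PH a b c) :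
    bW x y = 0 := by
  rw [eq_ptH hx, eq_ptH hy]
  simp only [bW, ptH, inner_add_left, inner_add_right, inner_smul_left, inner_smul_right]
  rw [real_inner_comm a b]
  simp
  ring

/-- the photon `{(y, 0, 0)}` -/
def P0 (Q : Type*) [NormedAddCommGroup Q] [InnerProductSpace ℝ Q] : Submodule ℝ (W Q) :=
  PH (0 : Q) 0 0

theorem mem_P0 {x : W Q} : x ∈ P0 Q ↔ x.2.1 = 0 ∧ x.2.2 = 0 := by
  rw [P0, mem_PH]
  constructor
  · rintro ⟨h1, h2, h3⟩
    refine ⟨by simpa using h1, Prod.ext ?_ ?_⟩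
    · simpa using h2
    · simpa using h3
  · rintro ⟨h1, h2⟩
    simp [h1, h2]

/-! ### isometries -/

/-- `(y, q, η) ↦ (L y, q, L⁻ᵀ η)` with `L e₁ = l e₁`, `L e₂ = b e₁ + m e₂` -/
noncomputable def bL (l b m : ℝ) (hl : l ≠ 0) (hm : m ≠ 0) : W Q ≃ₗ[ℝ] W Q where
  toFun x := ((l * x.1.1 + b * x.1.2, m * x.1.2), x.2.1,
    (x.2.2.1 / l, (x.2.2.2 - b * x.2.2.1 / l) / m))
  map_add' x y := by
    refine Prod.ext (Prod.ext ?_ ?_) (Prod.ext ?_ (Prod.ext ?_ ?_)) <;>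
      simp only [Prod.fst_add, Prod.snd_add] <;> ring
  map_smul' a x := by
    refine Prod.ext (Prod.ext ?_ ?_) (Prod.ext ?_ (Prod.ext ?_ ?_)) <;>
      simp only [Prod.smul_fst, Prod.smul_snd, smul_eq_mul, RingHom.id_apply] <;> ring
  invFun x := (((x.1.1 - b * x.1.2 / m) / l, x.1.2 / m), x.2.1,
    (l * x.2.2.1, m * x.2.2.2 + b * x.2.2.1))
  left_inv x := by
    refine Prod.ext (Prod.ext ?_ ?_) (Prod.ext ?_ (Prod.ext ?_ ?_))
    · field_simp; ring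
    · field_simp
    · rfl
    · field_simp
    · field_simp; ring
  right_inv x := by
    refine Prod.ext (Prod.ext ?_ ?_) (Prod.ext ?_ (Prod.ext ?_ ?_))
    · field_simp; ring
    · field_simp
    · rfl
    · field_simp
    · field_simp; ring

theorem bL_apply (l b m : ℝ) (hl : l ≠ 0) (hm : m ≠ 0) (x : W Q) : bL l b m hl hm x =
    ((l * x.1.1 + b * x.1.2, m * x.1.2), x.2.1,
    (x.2.2.1 / l, (x.2.2.2 - b * x.2.2.1 / l) / m)) := rfl

theorem bL_symm_apply (l b m : ℝ) (hl : l ≠ 0) (hm : m ≠ 0) (x : W Q) :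
    (bL l b m hl hm).symm x = (((x.1.1 - b * x.1.2 / m) / l, x.1.2 / m), x.2.1,
    (l * x.2.2.1, m * x.2.2.2 + b * x.2.2.1)) := rfl

theorem bW_bL (l b m : ℝ) (hl : l ≠ 0) (hm : m ≠ 0) (x y : W Q) :
    bW (bL l b m hl hm x) (bL l b m hl hm y) = bW x y := by
  simp only [bW, bL_apply]
  field_simp
  ring

/-- the transvections `(y, q, η) ↦ (y, q, η + τ ε y)` of `Pp`, `ε (y₁, y₂) = (-y₂, y₁)` -/
def zt (τ : ℝ) : W Q ≃ₗ[ℝ] W Q where
  toFun x := (x.1, x.2.1, (x.2.2.1 - τ * x.1.2, x.2.2.2 + τ * x.1.1))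
  map_add' x y := by
    refine Prod.ext (Prod.ext ?_ ?_) (Prod.ext ?_ (Prod.ext ?_ ?_)) <;>
      simp only [Prod.fst_add, Prod.snd_add] <;> ring
  map_smul' a x := by
    refine Prod.ext (Prod.ext ?_ ?_) (Prod.ext ?_ (Prod.ext ?_ ?_)) <;>
      simp only [Prod.smul_fst, Prod.smul_snd, smul_eq_mul, RingHom.id_apply] <;> ring
  invFun x := (x.1, x.2.1, (x.2.2.1 + τ * x.1.2, x.2.2.2 - τ * x.1.1))
  left_inv x := by
    refine Prod.ext (Prod.ext ?_ ?_) (Prod.ext ?_ (Prod.ext ?_ ?_)) <;> simp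
  right_inv x := by
    refine Prod.ext (Prod.ext ?_ ?_) (Prod.ext ?_ (Prod.ext ?_ ?_)) <;> simp

theorem zt_apply (τ : ℝ) (x : W Q) :
    zt τ x = (x.1, x.2.1, (x.2.2.1 - τ * x.1.2, x.2.2.2 + τ * x.1.1)) := rfl

theorem bW_zt (τ : ℝ) (x y : W Q) : bW (zt τ x) (zt τ y) = bW x y := by
  simp only [bW, zt_apply]
  ring

/-- the transvections `(y, q, η) ↦ (y + κ ε η, q, η)` of `P0` -/
def yk (κ : ℝ) : W Q ≃ₗ[ℝ] W Q where
  toFun x := ((x.1.1 - κ * x.2.2.2, x.1.2 + κ * x.2.2.1), x.2.1, x.2.2)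
  map_add' x y := by
    refine Prod.ext (Prod.ext ?_ ?_) (Prod.ext ?_ (Prod.ext ?_ ?_)) <;>
      simp only [Prod.fst_add, Prod.snd_add] <;> ring
  map_smul' a x := by
    refine Prod.ext (Prod.ext ?_ ?_) (Prod.ext ?_ (Prod.ext ?_ ?_)) <;>
      simp only [Prod.smul_fst, Prod.smul_snd, smul_eq_mul, RingHom.id_apply] <;> ring
  invFun x := ((x.1.1 + κ * x.2.2.2, x.1.2 - κ * x.2.2.1), x.2.1, x.2.2)
  left_inv x := by
    refine Prod.ext (Prod.ext ?_ ?_) (Prod.ext ?_ (Prod.ext ?_ ?_)) <;> simp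
  right_inv x := by
    refine Prod.ext (Prod.ext ?_ ?_) (Prod.ext ?_ (Prod.ext ?_ ?_)) <;> simp

theorem yk_apply (κ : ℝ) (x : W Q) :
    yk κ x = ((x.1.1 - κ * x.2.2.2, x.1.2 + κ * x.2.2.1), x.2.1, x.2.2) := rfl

theorem bW_yk (κ : ℝ) (x y : W Q) : bW (yk κ x) (yk κ y) = bW x y := by
  simp only [bW, yk_apply]
  ring

/-- the isometry `(y, q, η) ↦ (η, q, y)` -/
def sw (Q : Type*) [NormedAddCommGroup Q] [InnerProductSpace ℝ Q] : W Q ≃ₗ[ℝ] W Q where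
  toFun x := (x.2.2, x.2.1, x.1)
  map_add' _ _ := rfl
  map_smul' _ _ := rfl
  invFun x := (x.2.2, x.2.1, x.1)
  left_inv _ := rfl
  right_inv _ := rfl

theorem sw_apply (x : W Q) : sw Q x = (x.2.2, x.2.1, x.1) := rfl

theorem bW_sw (x y : W Q) : bW (sw Q x) (sw Q y) = bW x y := by
  simp only [bW, sw_apply]
  ring

theorem sw_zt (τ : ℝ) (x : W Q) : sw Q (zt τ x) = yk τ (sw Q x) := rfl

/-- `bL` conjugates `yk` to `yk` -/
theorem bL_yk (l b m : ℝ) (hl : l ≠ 0) (hm : m ≠ 0) (κ : ℝ) (x : W Q) :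
    bL l b m hl hm (yk (κ / (l * m)) x) = yk κ (bL l b m hl hm x) := by
  simp only [bL_apply, yk_apply]
  refine Prod.ext (Prod.ext ?_ ?_) (Prod.ext rfl (Prod.ext rfl rfl))
  · field_simp; ring
  · field_simp

theorem map_zt_PH (a b : Q) (c τ : ℝ) :
    im (zt τ) (PH a b c) = PH a b (c + τ) := by
  ext x
  constructor
  · rintro ⟨z, hz, rfl⟩
    obtain ⟨h1, h2, h3⟩ := hz
    refine ⟨h1, ?_, ?_⟩
    · change z.2.2.1 - τ * z.1.2 = -(1 / 4) * ⟪a, z.2.1⟫ - (c + τ) * z.1.2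
      rw [h2]; ring
    · change z.2.2.2 + τ * z.1.1 = -(1 / 4) * ⟪b, z.2.1⟫ + (c + τ) * z.1.1
      rw [h3]; ring
  · rintro ⟨h1, h2, h3⟩
    refine ⟨(zt τ).symm x, ⟨h1, ?_, ?_⟩, (zt τ).apply_symm_apply x⟩
    · change x.2.2.1 + τ * x.1.2 = -(1 / 4) * ⟪a, x.2.1⟫ - c * x.1.2
      rw [h2]; ring
    · change x.2.2.2 - τ * x.1.1 = -(1 / 4) * ⟪b, x.2.1⟫ + c * x.1.1
      rw [h3]; ring

theorem map_zt_Pp (τ : ℝ) : im (zt τ) (Pp Q) = Pp Q := by
  ext x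
  constructor
  · rintro ⟨z, ⟨h1, h2⟩, rfl⟩
    exact ⟨h1, h2⟩
  · rintro ⟨h1, h2⟩
    exact ⟨(zt τ).symm x, ⟨h1, h2⟩, (zt τ).apply_symm_apply x⟩

/-- the action of `bL` on the photons transverse to `Pp`: `N' = N L⁻¹`, `c' = c / det L` -/
theorem map_bL_PH (l b m : ℝ) (hl : l ≠ 0) (hm : m ≠ 0) (a r : Q) (c : ℝ) :
    im (bL l b m hl hm) (PH (l • a) (b • a + m • r) (l * m * c)) = PH a r c := by
  have key : ∀ z : W Q, z ∈ PH (l • a) (b • a + m • r) (l * m * c) ↔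
      bL l b m hl hm z ∈ PH a r c := by
    intro z
    rw [mem_PH, mem_PH, bL_apply]
    simp only [inner_add_left, inner_smul_left, RCLike.conj_to_real]
    have e1 : z.1.1 • l • a + z.1.2 • (b • a + m • r) =
        (l * z.1.1 + b * z.1.2) • a + (m * z.1.2) • r := by
      module
    rw [e1]
    constructor
    · rintro ⟨h1, h2, h3⟩
      refine ⟨h1, ?_, ?_⟩
      · rw [h2]; field_simp
      · rw [h2, h3]; field_simp; ring
    · rintro ⟨h1, h2, h3⟩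
      have h2' : z.2.2.1 = -(1 / 4) * (l * ⟪a, z.2.1⟫) - l * m * c * z.1.2 := by
        rw [div_eq_iff hl] at h2
        rw [h2]; ring
      refine ⟨h1, h2', ?_⟩
      rw [h2'] at h3
      rw [div_eq_iff hm] at h3
      field_simp at h3
      linarith
  ext x
  constructor
  · rintro ⟨z, hz, rfl⟩
    exact (key z).mp hz
  · intro hx
    refine ⟨(bL l b m hl hm).symm x, (key _).mpr ?_, (bL l b m hl hm).apply_symm_apply x⟩
    rw [LinearEquiv.apply_symm_apply]; exact hx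

/-! ### maximal totally isotropic planes -/

/-- `P` is a photon: a totally isotropic plane -/
structure PhW (P : Submodule ℝ (W Q)) : Prop where
  iso : ∀ x ∈ P, ∀ y ∈ P, bW x y = 0
  graph : ∀ y : ℝ × ℝ, ∃ x ∈ P, x.1 - x.2.2 = y

theorem bW_self (x : W Q) :
    bW x x = ‖x.2.1‖ ^ 2 + 4 * (x.1.1 * x.2.2.1 + x.1.2 * x.2.2.2) := by
  unfold bW
  rw [real_inner_self_eq_norm_sq]; ring

theorem eq_zero_of_diff {x : W Q} (h : bW x x = 0) (h2 : x.1 - x.2.2 = 0) : x = 0 := by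
  have h3 : x.2.2 = x.1 := (sub_eq_zero.mp h2).symm
  rw [bW_self, h3] at h
  have h4 : ‖x.2.1‖ = 0 := by
    nlinarith [sq_nonneg ‖x.2.1‖, sq_nonneg x.1.1, sq_nonneg x.1.2]
  have h5 : x.1.1 = 0 := by nlinarith [sq_nonneg ‖x.2.1‖, sq_nonneg x.1.1, sq_nonneg x.1.2]
  have h6 : x.1.2 = 0 := by nlinarith [sq_nonneg ‖x.2.1‖, sq_nonneg x.1.1, sq_nonneg x.1.2]
  have h7 : x.1 = 0 := Prod.ext h5 h6
  exact Prod.ext h7 (Prod.ext (norm_eq_zero.mp h4) (by rw [h3, h7]; rfl))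

theorem eq_of_diff {x y : W Q} (hx : bW x x = 0) (hy : bW y y = 0) (hxy : bW x y = 0)
    (h2 : x.1 - x.2.2 = y.1 - y.2.2) : x = y := by
  have h : bW (x - y) (x - y) = 0 := by
    rw [bW_sub_left, bW_sub_right, bW_sub_right, hx, hy, bW_comm y x, hxy]; ring
  refine sub_eq_zero.mp (eq_zero_of_diff h ?_)
  rw [Prod.fst_sub, Prod.snd_sub, Prod.snd_sub]
  have : x.1 - y.1 - (x.2.2 - y.2.2) = (x.1 - x.2.2) - (y.1 - y.2.2) := by abel
  rw [this, h2, sub_self]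

theorem PhW.unique_graph {P : Submodule ℝ (W Q)} (hP : PhW P) {x y : W Q} (hx : x ∈ P)
    (hy : y ∈ P) (h : x.1 - x.2.2 = y.1 - y.2.2) : x = y :=
  eq_of_diff (hP.iso x hx x hx) (hP.iso y hy y hy) (hP.iso x hx y hy) h

/-- an isotropic vector orthogonal to a photon lies in the photon -/
theorem PhW.mem_of_orth {P : Submodule ℝ (W Q)} (hP : PhW P) {l : W Q} (hl : bW l l = 0)
    (h : ∀ x ∈ P, bW x l = 0) : l ∈ P := by
  obtain ⟨x, hx, hx2⟩ := hP.graph (l.1 - l.2.2)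
  have := eq_of_diff (hP.iso x hx x hx) hl (h x hx) hx2
  rwa [← this]

/-- two photons one of which contains the other are equal -/
theorem PhW.eq_of_le {P P' : Submodule ℝ (W Q)} (hP : PhW P) (hP' : PhW P') (h : P ≤ P') :
    P = P' := by
  refine le_antisymm h fun x hx => ?_
  exact hP.mem_of_orth (hP'.iso x hx x hx) fun y hy => hP'.iso y (h hy) x hx

theorem phW_Pp : PhW (Pp Q) where
  iso _ hx _ hy := iso_Pp hx hy
  graph y := ⟨(0, 0, -y), ⟨rfl, rfl⟩, by simp⟩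

theorem phW_PH (a b : Q) (c : ℝ) : PhW (PH a b c) where
  iso _ hx _ hy := iso_PH hx hy
  graph y := by
    let T : (ℝ × ℝ) →ₗ[ℝ] (ℝ × ℝ) :=
      { toFun := fun z => z - (ptH a b c z).2.2
        map_add' := by
          intro z z'
          refine Prod.ext ?_ ?_ <;>
            simp only [ptH, Prod.fst_sub, Prod.snd_sub, Prod.fst_add, Prod.snd_add, add_smul,
              inner_add_right, inner_smul_right] <;> ring
        map_smul' := by
          intro s z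
          refine Prod.ext ?_ ?_ <;>
            simp only [ptH, Prod.fst_sub, Prod.snd_sub, Prod.smul_fst, Prod.smul_snd, smul_eq_mul,
              inner_add_right, inner_smul_right, RingHom.id_apply, mul_smul] <;> ring }
    have hinj : Function.Injective T := by
      rw [injective_iff_map_eq_zero]
      intro z hz
      have h1 : (ptH a b c z).1 - (ptH a b c z).2.2 = 0 := hz
      have h2 := eq_zero_of_diff (iso_PH (ptH_mem a b c z) (ptH_mem a b c z)) h1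
      exact congrArg Prod.fst h2
    obtain ⟨z, hz⟩ := (LinearMap.surjective_of_injective hinj) y
    exact ⟨ptH a b c z, ptH_mem a b c z, hz⟩

/-- A photon that meets `Pp` only in `0` is some `PH a b c`. -/
theorem PhW.exists_PH {P : Submodule ℝ (W Q)} (hP : PhW P)
    (h : ∀ x ∈ P, x ∈ Pp Q → x = 0) : ∃ a b c, P = PH a b c := by
  -- the projection of `P` to the first component is injective
  have hinj : ∀ x ∈ P, x.1 = 0 → x = 0 := by
    intro x hx hx1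
    refine h x hx ⟨hx1, ?_⟩
    have h1 := hP.iso x hx x hx
    rw [bW_self, hx1] at h1
    simp at h1
    exact h1
  obtain ⟨u, hu, hu2⟩ := hP.graph (1, 0)
  obtain ⟨v, hv, hv2⟩ := hP.graph (0, 1)
  -- the first components of `u`, `v` are independent
  have hdet : u.1.1 * v.1.2 - u.1.2 * v.1.1 ≠ 0 := by
    intro hd
    have h0 : ∀ s t : ℝ, (s • u + t • v).1 = 0 → s = 0 ∧ t = 0 := by
      intro s t hst
      have h1 := hinj _ (P.add_mem (P.smul_mem s hu) (P.smul_mem t hv)) hst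
      have h2 : (s • u + t • v).1 - (s • u + t • v).2.2 = (s, t) := by
        have : (s • u + t • v).1 - (s • u + t • v).2.2 =
            s • (u.1 - u.2.2) + t • (v.1 - v.2.2) := by
          simp only [Prod.fst_add, Prod.snd_add, Prod.smul_fst, Prod.smul_snd, smul_sub]; abel
        rw [this, hu2, hv2]
        simp
      rw [h1] at h2
      simp only [Prod.fst_zero, Prod.snd_zero, sub_zero] at h2
      exact ⟨(congrArg Prod.fst h2).symm, (congrArg Prod.snd h2).symm⟩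
    have h3 := h0 v.1.2 (-u.1.2) (by
      refine Prod.ext ?_ ?_
      · simp only [Prod.fst_add, Prod.smul_fst, smul_eq_mul, Prod.fst_zero]; linarith
      · simp only [Prod.fst_add, Prod.smul_fst, Prod.snd_add, Prod.smul_snd, smul_eq_mul,
          Prod.fst_zero, Prod.snd_zero]; ring)
    have h4 := h0 v.1.1 (-u.1.1) (by
      refine Prod.ext ?_ ?_
      · simp only [Prod.fst_add, Prod.smul_fst, smul_eq_mul, Prod.fst_zero]; ring
      · simp only [Prod.fst_add, Prod.smul_fst, Prod.snd_add, Prod.smul_snd, smul_eq_mul,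
          Prod.fst_zero, Prod.snd_zero]; linarith)
    have h5 := h0 1 0 (by
      refine Prod.ext ?_ ?_
      · simp only [one_smul, zero_smul, add_zero, Prod.fst_zero]; linarith [h4.2]
      · simp only [one_smul, zero_smul, add_zero, Prod.fst_zero, Prod.snd_zero]
        linarith [h3.2])
    exact one_ne_zero h5.1
  have hsurj : ∀ y : ℝ × ℝ, ∃ x ∈ P, x.1 = y := by
    intro y
    refine ⟨((y.1 * v.1.2 - y.2 * v.1.1) / (u.1.1 * v.1.2 - u.1.2 * v.1.1)) • u +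
      ((u.1.1 * y.2 - u.1.2 * y.1) / (u.1.1 * v.1.2 - u.1.2 * v.1.1)) • v,
      P.add_mem (P.smul_mem _ hu) (P.smul_mem _ hv), Prod.ext ?_ ?_⟩
    · simp only [Prod.fst_add, Prod.smul_fst, smul_eq_mul]
      rw [div_mul_eq_mul_div, div_mul_eq_mul_div, ← add_div, div_eq_iff hdet]
      ring
    · simp only [Prod.fst_add, Prod.smul_fst, Prod.snd_add, Prod.smul_snd, smul_eq_mul]
      rw [div_mul_eq_mul_div, div_mul_eq_mul_div, ← add_div, div_eq_iff hdet]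
      ring
  obtain ⟨w, hw, hw1⟩ := hsurj (1, 0)
  obtain ⟨z, hz, hz1⟩ := hsurj (0, 1)
  refine ⟨w.2.1, z.2.1, w.2.2.2 + (1 / 4) * ⟪z.2.1, w.2.1⟫, hP.eq_of_le (phW_PH _ _ _) ?_⟩
  intro x hx
  have hx' : x = x.1.1 • w + x.1.2 • z := by
    rw [← sub_eq_zero]
    refine hinj _ (P.sub_mem hx (P.add_mem (P.smul_mem _ hw) (P.smul_mem _ hz))) ?_
    rw [Prod.fst_sub, Prod.fst_add, Prod.smul_fst, Prod.smul_fst, hw1, hz1]
    refine Prod.ext ?_ ?_ <;> simp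
  have e1 := hP.iso w hw w hw
  have e2 := hP.iso w hw z hz
  have e3 := hP.iso z hz z hz
  rw [bW_self, hw1] at e1
  rw [bW_self, hz1] at e3
  unfold bW at e2
  rw [hw1, hz1] at e2
  simp only [one_mul, zero_mul, mul_one, mul_zero, add_zero, zero_add] at e1 e2 e3
  have f1 : w.2.2.1 = -(1 / 4) * ‖w.2.1‖ ^ 2 := by linarith
  have f2 : z.2.2.2 = -(1 / 4) * ‖z.2.1‖ ^ 2 := by linarith
  have f3 : z.2.2.1 = -w.2.2.2 - (1 / 2) * ⟪w.2.1, z.2.1⟫ := by linarith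
  have g1 : x.2.1 = x.1.1 • w.2.1 + x.1.2 • z.2.1 := congrArg (fun t : W Q => t.2.1) hx'
  have g2 : x.2.2.1 = x.1.1 * w.2.2.1 + x.1.2 * z.2.2.1 := congrArg (fun t : W Q => t.2.2.1) hx'
  have g3 : x.2.2.2 = x.1.1 * w.2.2.2 + x.1.2 * z.2.2.2 := congrArg (fun t : W Q => t.2.2.2) hx'
  rw [mem_PH]
  refine ⟨g1, ?_, ?_⟩
  · rw [g2, g1, f1, f3]
    simp only [inner_add_right, inner_smul_right, real_inner_self_eq_norm_sq]
    rw [real_inner_comm w.2.1 z.2.1]; ring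
  · rw [g3, g1, f2]
    simp only [inner_add_right, inner_smul_right, real_inner_self_eq_norm_sq]
    ring

/-- the image of a photon under an isometry -/
theorem PhW.map {P : Submodule ℝ (W Q)} (hP : PhW P) {g : W Q ≃ₗ[ℝ] W Q}
    (hg : ∀ x y, bW (g x) (g y) = bW x y) : PhW (im g P) := by
  obtain ⟨u, hu, hu2⟩ := hP.graph (1, 0)
  obtain ⟨v, hv, hv2⟩ := hP.graph (0, 1)
  have hiso : ∀ x ∈ im g P, ∀ y ∈ im g P, bW x y = 0 := by
    rintro _ ⟨x, hx, rfl⟩ _ ⟨y, hy, rfl⟩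
    change bW (g x) (g y) = 0
    rw [hg, hP.iso x hx y hy]
  have hmem : ∀ s t : ℝ, s • g u + t • g v ∈ im g P := by
    intro s t
    refine ⟨s • u + t • v, P.add_mem (P.smul_mem s hu) (P.smul_mem t hv), ?_⟩
    change g (s • u + t • v) = _
    rw [map_add, map_smul, map_smul]
  -- independence of the differences
  have h0 : ∀ s t : ℝ, (s • g u + t • g v).1 - (s • g u + t • g v).2.2 = 0 → s = 0 ∧ t = 0 := by
    intro s t hst
    have h1 := eq_zero_of_diff (hiso _ (hmem s t) _ (hmem s t)) hst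
    have h2 : g (s • u + t • v) = 0 := by rw [map_add, map_smul, map_smul]; exact h1
    have h3 : s • u + t • v = 0 := (LinearEquiv.map_eq_zero_iff g).mp h2
    have h4 : (s • u + t • v).1 - (s • u + t • v).2.2 = (s, t) := by
      have : (s • u + t • v).1 - (s • u + t • v).2.2 =
          s • (u.1 - u.2.2) + t • (v.1 - v.2.2) := by
        simp only [Prod.fst_add, Prod.snd_add, Prod.smul_fst, Prod.smul_snd, smul_sub]; abel
      rw [this, hu2, hv2]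
      simp
    rw [h3] at h4
    simp only [Prod.fst_zero, Prod.snd_zero, sub_zero] at h4
    exact ⟨(congrArg Prod.fst h4).symm, (congrArg Prod.snd h4).symm⟩
  refine ⟨hiso, fun y => ?_⟩
  let T : (ℝ × ℝ) →ₗ[ℝ] (ℝ × ℝ) :=
    { toFun := fun z => (z.1 • g u + z.2 • g v).1 - (z.1 • g u + z.2 • g v).2.2
      map_add' := by
        intro z z'
        refine Prod.ext ?_ ?_ <;>
          simp only [Prod.fst_sub, Prod.snd_sub, Prod.fst_add, Prod.snd_add, Prod.smul_fst,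
            Prod.smul_snd, smul_eq_mul] <;> ring
      map_smul' := by
        intro s z
        refine Prod.ext ?_ ?_ <;>
          simp only [Prod.fst_sub, Prod.snd_sub, Prod.fst_add, Prod.snd_add, Prod.smul_fst,
            Prod.smul_snd, smul_eq_mul, RingHom.id_apply] <;> ring }
  have hinj : Function.Injective T := by
    rw [injective_iff_map_eq_zero]
    intro z hz
    obtain ⟨h1, h2⟩ := h0 z.1 z.2 hz
    exact Prod.ext h1 h2
  obtain ⟨z, hz⟩ := (LinearMap.surjective_of_injective hinj) y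
  exact ⟨_, hmem z.1 z.2, hz⟩

/-! ### foliations -/

/-- closed photon foliations of `W Q` -/
structure FolW (Λ : Set (Submodule ℝ (W Q))) : Prop where
  ph : ∀ P ∈ Λ, PhW P
  cov : ∀ x : W Q, x ≠ 0 → bW x x = 0 → ∃ P ∈ Λ, x ∈ P
  uni : ∀ P ∈ Λ, ∀ P' ∈ Λ, ∀ x : W Q, x ≠ 0 → x ∈ P → x ∈ P' → P = P'
  closed : ∀ (𝒰 : Ultrafilter ℕ) (P : ℕ → Submodule ℝ (W Q)) (u w : ℕ → W Q) (u' w' : W Q),
    (∀ n, P n ∈ Λ ∧ u n ∈ P n ∧ w n ∈ P n) → Tendsto u 𝒰 (𝓝 u') → Tendsto w 𝒰 (𝓝 w') →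
    ∃ P' ∈ Λ, u' ∈ P' ∧ w' ∈ P'

/-- the leaf map is `o(√d)`, uniformly -/
def SmallW (Λ : Set (Submodule ℝ (W Q))) : Prop :=
  ∀ ε : ℝ, 0 < ε → ∃ ρ : ℝ, 0 < ρ ∧ ∀ P ∈ Λ, ∀ P' ∈ Λ, ∀ z ∈ P, ∀ z' ∈ P', 1 / 2 ≤ ‖z‖ →
    ‖z - z'‖ < ρ → ∀ x ∈ P, ‖x‖ ≤ 1 → ∃ x' ∈ P', ‖x - x'‖ ≤ ε * Real.sqrt ‖z - z'‖

/-- `γ` is an isometry which preserves `Λ` -/
structure StW (Λ : Set (Submodule ℝ (W Q))) (γ : W Q ≃ₗ[ℝ] W Q) : Prop where
  iso : ∀ x y, bW (γ x) (γ y) = bW x y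
  map : ∀ P ∈ Λ, im γ P ∈ Λ

/-- the isometries which preserve `Λ` act cocompactly on the quadric `bW x x = -1` -/
def CocW (Λ : Set (Submodule ℝ (W Q))) : Prop :=
  ∃ K : Set (W Q), IsCompact K ∧ K ⊆ {x | bW x x = -1} ∧
    ∀ x : W Q, bW x x = -1 → ∃ γ : W Q ≃ₗ[ℝ] W Q, StW Λ γ ∧ γ x ∈ K

/-- `P'` is the limit of the `A n (P n)` -/
def LimW (A : ℕ → W Q ≃ₗ[ℝ] W Q) (𝒰 : Ultrafilter ℕ) (P : ℕ → Submodule ℝ (W Q))
    (P' : Submodule ℝ (W Q)) : Prop :=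
  ∀ x ∈ P', ∃ u : ℕ → W Q, (∀ n, u n ∈ P n) ∧ Tendsto (fun n => A n (u n)) 𝒰 (𝓝 x)

/-- the image of a set of subspaces -/
def mapS (g : W Q ≃ₗ[ℝ] W Q) (Λ : Set (Submodule ℝ (W Q))) : Set (Submodule ℝ (W Q)) :=
  {P | ∃ P' ∈ Λ, P = im g P'}

theorem tendsto_bW {ι : Type*} {l : Filter ι} {f g : ι → W Q} {a b : W Q}
    (hf : Tendsto f l (𝓝 a)) (hg : Tendsto g l (𝓝 b)) :
    Tendsto (fun n => bW (f n) (g n)) l (𝓝 (bW a b)) :=
  (continuous_bW.tendsto (a, b)).comp (hf.prodMk_nhds hg)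

/-- a limit vector of the `A n (P n)` lies in the limit photon -/
theorem LimW.mem {A : ℕ → W Q ≃ₗ[ℝ] W Q} (hA : ∀ n x y, bW (A n x) (A n y) = bW x y)
    {𝒰 : Ultrafilter ℕ} {P : ℕ → Submodule ℝ (W Q)} (hP : ∀ n, ∀ x ∈ P n, ∀ y ∈ P n, bW x y = 0)
    {P' : Submodule ℝ (W Q)} (hP' : PhW P') (h : LimW A 𝒰 P P') {w : ℕ → W Q} {w' : W Q}
    (hw : ∀ n, w n ∈ P n) (hlim : Tendsto (fun n => A n (w n)) 𝒰 (𝓝 w')) : w' ∈ P' := by
  have h1 : ∀ (u : ℕ → W Q) (x : W Q), (∀ n, u n ∈ P n) →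
      Tendsto (fun n => A n (u n)) 𝒰 (𝓝 x) → bW x w' = 0 := by
    intro u x hu hx
    refine tendsto_nhds_unique (tendsto_bW hx hlim) (tendsto_const_nhds.congr fun n => ?_)
    rw [hA, hP n _ (hu n) _ (hw n)]
  refine hP'.mem_of_orth (h1 w w' hw hlim) fun x hx => ?_
  obtain ⟨u, hu, hux⟩ := h x hx
  exact h1 u x hu hux

/-- the limit photon is unique -/
theorem LimW.unique {A : ℕ → W Q ≃ₗ[ℝ] W Q} (hA : ∀ n x y, bW (A n x) (A n y) = bW x y)
    {𝒰 : Ultrafilter ℕ} {P : ℕ → Submodule ℝ (W Q)} (hP : ∀ n, ∀ x ∈ P n, ∀ y ∈ P n, bW x y = 0)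
    {P' P'' : Submodule ℝ (W Q)} (hP' : PhW P') (hP'' : PhW P'') (h : LimW A 𝒰 P P')
    (h' : LimW A 𝒰 P P'') : P' = P'' := by
  refine hP'.eq_of_le hP'' fun x hx => ?_
  obtain ⟨u, hu, hux⟩ := h x hx
  exact h'.mem hA hP hP'' hu hux

/-- `PH a b c` meets `Pp` only in `0` -/
theorem eq_zero_of_PH_Pp {a b : Q} {c : ℝ} {x : W Q} (hx : x ∈ PH a b c) (hx' : x ∈ Pp Q) :
    x = 0 := by
  have h := eq_ptH hx
  rw [hx'.1] at h
  rw [h]
  simp [ptH]

theorem Pp_ne_PH (a b : Q) (c : ℝ) : Pp Q ≠ PH a b c := by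
  intro h
  have h1 : ptH a b c (1, 0) ∈ Pp Q := h ▸ ptH_mem a b c (1, 0)
  have h2 : ((1 : ℝ), (0 : ℝ)) = 0 := h1.1
  simpa using congrArg Prod.fst h2

theorem tendsto_ptH {ι : Type*} {l : Filter ι} {a b : ι → Q} {c : ι → ℝ} {y : ι → ℝ × ℝ}
    {a' b' : Q} {c' : ℝ} {y' : ℝ × ℝ} (ha : Tendsto a l (𝓝 a')) (hb : Tendsto b l (𝓝 b'))
    (hc : Tendsto c l (𝓝 c')) (hy : Tendsto y l (𝓝 y')) :
    Tendsto (fun n => ptH (a n) (b n) (c n) (y n)) l (𝓝 (ptH a' b' c' y')) := by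
  have hy1 : Tendsto (fun n => (y n).1) l (𝓝 y'.1) := (continuous_fst.tendsto y').comp hy
  have hy2 : Tendsto (fun n => (y n).2) l (𝓝 y'.2) := (continuous_snd.tendsto y').comp hy
  have hN : Tendsto (fun n => (y n).1 • a n + (y n).2 • b n) l (𝓝 (y'.1 • a' + y'.2 • b')) :=
    (hy1.smul ha).add (hy2.smul hb)
  unfold ptH
  refine hy.prodMk_nhds (hN.prodMk_nhds ((Tendsto.prodMk_nhds ?_ ?_)))
  · exact ((ha.inner hN).const_mul _).sub (hc.mul hy2)
  · exact ((hb.inner hN).const_mul _).add (hc.mul hy1)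

/-- convergence to `PH a b c` means convergence of the parameters -/
theorem LimW.params {A : ℕ → W Q ≃ₗ[ℝ] W Q} (hA : ∀ n x y, bW (A n x) (A n y) = bW x y)
    {𝒰 : Ultrafilter ℕ} {P : ℕ → Submodule ℝ (W Q)} (hP : ∀ n, PhW (P n)) {a b : Q} {c : ℝ}
    (h : LimW A 𝒰 P (PH a b c)) : ∃ (a' b' : ℕ → Q) (c' : ℕ → ℝ), Tendsto a' 𝒰 (𝓝 a) ∧
      Tendsto b' 𝒰 (𝓝 b) ∧ Tendsto c' 𝒰 (𝓝 c) ∧
      ∀ᶠ n in (𝒰 : Filter ℕ), im (A n) (P n) = PH (a' n) (b' n) (c' n) := by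
  obtain ⟨u, hu, hul⟩ := h _ (ptH_mem a b c (1, 0))
  obtain ⟨v, hv, hvl⟩ := h _ (ptH_mem a b c (0, 1))
  have hu1 : Tendsto (fun n => (A n (u n)).1.1) 𝒰 (𝓝 1) :=
    ((continuous_fst.comp continuous_fst).tendsto _).comp hul
  have hu2 : Tendsto (fun n => (A n (u n)).1.2) 𝒰 (𝓝 0) :=
    ((continuous_snd.comp continuous_fst).tendsto _).comp hul
  have hv1 : Tendsto (fun n => (A n (v n)).1.1) 𝒰 (𝓝 0) :=
    ((continuous_fst.comp continuous_fst).tendsto _).comp hvl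
  have hv2 : Tendsto (fun n => (A n (v n)).1.2) 𝒰 (𝓝 1) :=
    ((continuous_snd.comp continuous_fst).tendsto _).comp hvl
  have huq : Tendsto (fun n => (A n (u n)).2.1) 𝒰 (𝓝 a) := by
    have h1 : Tendsto (fun n => (A n (u n)).2.1) 𝒰 (𝓝 (ptH a b c (1, 0)).2.1) :=
      ((continuous_fst.comp continuous_snd).tendsto _).comp hul
    have e : (ptH a b c (1, 0)).2.1 = a := by simp [ptH]
    rwa [e] at h1
  have hvq : Tendsto (fun n => (A n (v n)).2.1) 𝒰 (𝓝 b) := by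
    have h1 : Tendsto (fun n => (A n (v n)).2.1) 𝒰 (𝓝 (ptH a b c (0, 1)).2.1) :=
      ((continuous_fst.comp continuous_snd).tendsto _).comp hvl
    have e : (ptH a b c (0, 1)).2.1 = b := by simp [ptH]
    rwa [e] at h1
  have hu3 : Tendsto (fun n => (A n (u n)).2.2.2) 𝒰 (𝓝 (-(1 / 4) * ⟪b, a⟫ + c)) := by
    have h1 : Tendsto (fun n => (A n (u n)).2.2.2) 𝒰 (𝓝 (ptH a b c (1, 0)).2.2.2) :=
      ((continuous_snd.comp (continuous_snd.comp continuous_snd)).tendsto _).comp hul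
    have e : (ptH a b c (1, 0)).2.2.2 = -(1 / 4) * ⟪b, a⟫ + c := by simp [ptH]
    rwa [e] at h1
  set d : ℕ → ℝ := fun n => (A n (u n)).1.1 * (A n (v n)).1.2 -
    (A n (u n)).1.2 * (A n (v n)).1.1 with hd
  have hdl : Tendsto d 𝒰 (𝓝 1) := by
    have := (hu1.mul hv2).sub (hu2.mul hv1)
    simpa using this
  have hdn : ∀ᶠ n in (𝒰 : Filter ℕ), d n ≠ 0 := hdl.eventually_ne one_ne_zero
  have hun : ∀ᶠ n in (𝒰 : Filter ℕ), (A n (u n)).1.1 ≠ 0 := hu1.eventually_ne one_ne_zero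
  refine ⟨fun n => (d n)⁻¹ • ((A n (v n)).1.2 • (A n (u n)).2.1 -
      (A n (u n)).1.2 • (A n (v n)).2.1),
    fun n => (d n)⁻¹ • ((A n (u n)).1.1 • (A n (v n)).2.1 - (A n (v n)).1.1 • (A n (u n)).2.1),
    fun n => ((A n (u n)).2.2.2 + (1 / 4) * ⟪(d n)⁻¹ • ((A n (u n)).1.1 • (A n (v n)).2.1 -
      (A n (v n)).1.1 • (A n (u n)).2.1), (A n (u n)).2.1⟫) / (A n (u n)).1.1, ?_, ?_, ?_, ?_⟩
  · have := (hdl.inv₀ one_ne_zero).smul ((hv2.smul huq).sub (hu2.smul hvq))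
    simpa using this
  · have := (hdl.inv₀ one_ne_zero).smul ((hu1.smul hvq).sub (hv1.smul huq))
    simpa using this
  · have h1 := (hdl.inv₀ one_ne_zero).smul ((hu1.smul hvq).sub (hv1.smul huq))
    simp only [inv_one, one_smul, zero_smul, sub_zero] at h1
    have h2 := (hu3.add ((h1.inner huq).const_mul (1 / 4))).div hu1 one_ne_zero
    have e : (-(1 / 4) * ⟪b, a⟫ + c + 1 / 4 * ⟪b, a⟫) / 1 = c := by ring
    rw [e] at h2
    exact h2
  · filter_upwards [hdn, hun] with n hn hn1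
    have hph : PhW (im (A n) (P n)) := (hP n).map (hA n)
    have hum : A n (u n) ∈ im (A n) (P n) := apply_mem_im.mpr (hu n)
    have hvm : A n (v n) ∈ im (A n) (P n) := apply_mem_im.mpr (hv n)
    obtain ⟨α, β, κ, hPH⟩ := hph.exists_PH (by
      intro x hx hxp
      have e1 := hph.iso x hx _ hum
      have e2 := hph.iso x hx _ hvm
      unfold bW at e1 e2
      rw [hxp.1, hxp.2] at e1 e2
      simp only [inner_zero_left, Prod.fst_zero, Prod.snd_zero, zero_mul, add_zero, zero_add,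
        mul_zero] at e1 e2
      have e3 : d n * x.2.2.1 = 0 := by
        simp only [hd]
        linear_combination (1 / 2) * (A n (v n)).1.2 * e1 - (1 / 2) * (A n (u n)).1.2 * e2
      have e4 : d n * x.2.2.2 = 0 := by
        simp only [hd]
        linear_combination (1 / 2) * (A n (u n)).1.1 * e2 - (1 / 2) * (A n (v n)).1.1 * e1
      exact Prod.ext hxp.1 (Prod.ext hxp.2 (Prod.ext ((mul_eq_zero.mp e3).resolve_left hn)
        ((mul_eq_zero.mp e4).resolve_left hn))))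
    rw [hPH] at hum hvm ⊢
    obtain ⟨f1, f2, f3⟩ := hum
    obtain ⟨g1, g2, g3⟩ := hvm
    have k1 : α = (d n)⁻¹ • ((A n (v n)).1.2 • (A n (u n)).2.1 -
        (A n (u n)).1.2 • (A n (v n)).2.1) := by
      rw [eq_inv_smul_iff₀ hn, f1, g1]
      simp only [hd]
      module
    have k2 : β = (d n)⁻¹ • ((A n (u n)).1.1 • (A n (v n)).2.1 -
        (A n (v n)).1.1 • (A n (u n)).2.1) := by
      rw [eq_inv_smul_iff₀ hn, f1, g1]
      simp only [hd]
      module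
    have k3 : κ = ((A n (u n)).2.2.2 + (1 / 4) * ⟪(d n)⁻¹ • ((A n (u n)).1.1 •
        (A n (v n)).2.1 - (A n (v n)).1.1 • (A n (u n)).2.1), (A n (u n)).2.1⟫) /
        (A n (u n)).1.1 := by
      rw [← k2, f3]
      field_simp
      ring
    rw [← k1, ← k3, ← k2]

theorem LimW.of_params {A : ℕ → W Q ≃ₗ[ℝ] W Q} {𝒰 : Ultrafilter ℕ}
    {P : ℕ → Submodule ℝ (W Q)} {a b : Q} {c : ℝ} {a' b' : ℕ → Q} {c' : ℕ → ℝ}
    (ha : Tendsto a' 𝒰 (𝓝 a)) (hb : Tendsto b' 𝒰 (𝓝 b)) (hc : Tendsto c' 𝒰 (𝓝 c))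
    (h : ∀ᶠ n in (𝒰 : Filter ℕ), im (A n) (P n) = PH (a' n) (b' n) (c' n)) :
    LimW A 𝒰 P (PH a b c) := by
  classical
  intro x hx
  refine ⟨fun n => if im (A n) (P n) = PH (a' n) (b' n) (c' n) then
    (A n).symm (ptH (a' n) (b' n) (c' n) x.1) else 0, fun n => ?_, ?_⟩
  · by_cases hn : im (A n) (P n) = PH (a' n) (b' n) (c' n)
    · simp only [hn, if_true]
      have : ptH (a' n) (b' n) (c' n) x.1 ∈ im (A n) (P n) := by rw [hn]; exact ptH_mem _ _ _ _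
      exact mem_im.mp this
    · simp only [hn, if_false]
      exact (P n).zero_mem
  · have h1 : Tendsto (fun n => ptH (a' n) (b' n) (c' n) x.1) 𝒰 (𝓝 (ptH a b c x.1)) :=
      tendsto_ptH ha hb hc tendsto_const_nhds
    rw [← eq_ptH hx] at h1
    refine h1.congr' ?_
    filter_upwards [h] with n hn
    simp only [hn, if_true, LinearEquiv.apply_symm_apply]

end Pool.Agent.H2.AdS
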