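import Pool.Agent.H2.AdS.Gap.Defs

/-!
# Photon foliations of `W Q`: transport under isometries
-/

set_option autoImplicit false

open scoped RealInnerProductSpace
open Filter Topology

namespace Pool.Agent.H2.AdS

variable {Q : Type*} [NormedAddCommGroup Q] [InnerProductSpace ℝ Q]

/-- the inverse of an isometry is an isometry -/
theorem trans_iso_symm {g : W Q ≃ₗ[ℝ] W Q} (hg : ∀ x y, bW (g x) (g y) = bW x y) (x y : W Q) :
    bW (g.symm x) (g.symm y) = bW x y := by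
  rw [← hg, LinearEquiv.apply_symm_apply, LinearEquiv.apply_symm_apply]

/-- a photon contains a nonzero vector -/
theorem trans_exists_ne {P : Submodule ℝ (W Q)} (hP : PhW P) : ∃ x ∈ P, x ≠ 0 := by
  obtain ⟨x, hx, hx2⟩ := hP.graph (1, 0)
  refine ⟨x, hx, fun h => ?_⟩
  rw [h] at hx2
  have h1 := congrArg Prod.fst hx2
  simp at h1

theorem StW.symm {Λ : Set (Submodule ℝ (W Q))} (hΛ : FolW Λ) {γ : W Q ≃ₗ[ℝ] W Q}
    (h : StW Λ γ) : StW Λ γ.symm := by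
  refine ⟨trans_iso_symm h.iso, fun P hP => ?_⟩
  obtain ⟨x, hx, hx0⟩ := trans_exists_ne (hΛ.ph P hP)
  have h1 : γ.symm x ≠ 0 := fun h0 => hx0 (by
    have h2 := γ.apply_symm_apply x
    rw [h0, map_zero] at h2
    exact h2.symm)
  have h2 : bW (γ.symm x) (γ.symm x) = 0 := by
    rw [trans_iso_symm h.iso]
    exact (hΛ.ph P hP).iso x hx x hx
  obtain ⟨R, hR, hxR⟩ := hΛ.cov _ h1 h2
  have h3 : im γ R = P := hΛ.uni _ (h.map R hR) P hP x hx0 (mem_im.mpr hxR) hx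
  rw [← h3, im_symm]
  exact hR

theorem StW.trans {Λ : Set (Submodule ℝ (W Q))} {γ γ' : W Q ≃ₗ[ℝ] W Q}
    (h : StW Λ γ) (h' : StW Λ γ') : StW Λ (γ.trans γ') := by
  refine ⟨fun x y => ?_, fun P hP => ?_⟩
  · change bW (γ' (γ x)) (γ' (γ y)) = bW x y
    rw [h'.iso, h.iso]
  · rw [im_trans]
    exact h'.map _ (h.map P hP)

theorem StW.conj {Λ : Set (Submodule ℝ (W Q))} {γ : W Q ≃ₗ[ℝ] W Q} (h : StW Λ γ)
    {g : W Q ≃ₗ[ℝ] W Q} (hg : ∀ x y, bW (g x) (g y) = bW x y) :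
    StW (mapS g Λ) (g.symm.trans (γ.trans g)) := by
  refine ⟨fun x y => ?_, ?_⟩
  · change bW (g (γ (g.symm x))) (g (γ (g.symm y))) = bW x y
    rw [hg, h.iso, trans_iso_symm hg]
  · rintro _ ⟨P, hP, rfl⟩
    refine ⟨im γ P, h.map P hP, ?_⟩
    rw [im_trans, im_trans, im_symm]

theorem FolW.mapS [FiniteDimensional ℝ Q] {Λ : Set (Submodule ℝ (W Q))} (h : FolW Λ)
    {g : W Q ≃ₗ[ℝ] W Q} (hg : ∀ x y, bW (g x) (g y) = bW x y) : FolW (mapS g Λ) where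
  ph := by
    rintro _ ⟨P, hP, rfl⟩
    exact (h.ph P hP).map hg
  cov := by
    intro x hx0 hx
    have h1 : g.symm x ≠ 0 := fun h0 => hx0 (by
      have h2 := g.apply_symm_apply x
      rw [h0, map_zero] at h2
      exact h2.symm)
    obtain ⟨R, hR, hxR⟩ := h.cov _ h1 (by rw [trans_iso_symm hg]; exact hx)
    exact ⟨im g R, ⟨R, hR, rfl⟩, mem_im.mpr hxR⟩
  uni := by
    rintro _ ⟨R, hR, rfl⟩ _ ⟨R', hR', rfl⟩ x hx0 hx hx'
    have h1 : g.symm x ≠ 0 := fun h0 => hx0 (by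
      have h2 := g.apply_symm_apply x
      rw [h0, map_zero] at h2
      exact h2.symm)
    rw [h.uni R hR R' hR' (g.symm x) h1 (mem_im.mp hx) (mem_im.mp hx')]
  closed := by
    intro 𝒰 P u w u' w' hP hu hw
    choose R hR hPR using fun n => (hP n).1
    have hc : Continuous (g.symm : W Q →ₗ[ℝ] W Q) :=
      LinearMap.continuous_of_finiteDimensional _
    obtain ⟨R', hR', h1, h2⟩ := h.closed 𝒰 R (fun n => g.symm (u n)) (fun n => g.symm (w n))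
      (g.symm u') (g.symm w') (fun n => ⟨hR n, mem_im.mp (hPR n ▸ (hP n).2.1),
        mem_im.mp (hPR n ▸ (hP n).2.2)⟩) ((hc.tendsto u').comp hu) ((hc.tendsto w').comp hw)
    exact ⟨im g R', ⟨R', hR', rfl⟩, mem_im.mpr h1, mem_im.mpr h2⟩

/-- a common bound for a linear equivalence and its inverse -/
theorem trans_bound [FiniteDimensional ℝ Q] (g : W Q ≃ₗ[ℝ] W Q) :
    ∃ C : ℝ, 1 ≤ C ∧ (∀ x, ‖g x‖ ≤ C * ‖x‖) ∧ ∀ x, ‖g.symm x‖ ≤ C * ‖x‖ := by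
  set A := LinearMap.toContinuousLinearMap (g : W Q →ₗ[ℝ] W Q) with hA
  set B := LinearMap.toContinuousLinearMap (g.symm : W Q →ₗ[ℝ] W Q) with hB
  refine ⟨max 1 (max ‖A‖ ‖B‖), le_max_left _ _, fun x => ?_, fun x => ?_⟩
  · have h1 : ‖A x‖ ≤ ‖A‖ * ‖x‖ := A.le_opNorm x
    exact h1.trans (mul_le_mul_of_nonneg_right ((le_max_left _ _).trans (le_max_right _ _))
      (norm_nonneg _))
  · have h1 : ‖B x‖ ≤ ‖B‖ * ‖x‖ := B.le_opNorm x
    exact h1.trans (mul_le_mul_of_nonneg_right ((le_max_right _ _).trans (le_max_right _ _))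
      (norm_nonneg _))

theorem SmallW.mapS [FiniteDimensional ℝ Q] {Λ : Set (Submodule ℝ (W Q))} (h : SmallW Λ)
    (g : W Q ≃ₗ[ℝ] W Q) : SmallW (mapS g Λ) := by
  obtain ⟨C, hC1, hC, hC'⟩ := trans_bound g
  have hC0 : 0 < C := by linarith
  intro ε hε
  obtain ⟨ρ, hρ, H⟩ := h (ε / C ^ 3) (by positivity)
  refine ⟨ρ / C ^ 2, by positivity, ?_⟩
  rintro _ ⟨R, hR, rfl⟩ _ ⟨R', hR', rfl⟩ z hz z' hz' hz2 hzz x hx hx1
  have hzR : C • g.symm z ∈ R := R.smul_mem C (mem_im.mp hz)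
  have hzR' : C • g.symm z' ∈ R' := R'.smul_mem C (mem_im.mp hz')
  have hxR : C⁻¹ • g.symm x ∈ R := R.smul_mem C⁻¹ (mem_im.mp hx)
  have e1 : ‖C • g.symm z - C • g.symm z'‖ ≤ C ^ 2 * ‖z - z'‖ := by
    rw [← smul_sub, ← map_sub, norm_smul, Real.norm_of_nonneg hC0.le]
    have := mul_le_mul_of_nonneg_left (hC' (z - z')) hC0.le
    nlinarith
  have e2 : 1 / 2 ≤ ‖C • g.symm z‖ := by
    rw [norm_smul, Real.norm_of_nonneg hC0.le]
    have h1 := hC (g.symm z)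
    rw [LinearEquiv.apply_symm_apply] at h1
    exact hz2.trans h1
  have e3 : ‖C • g.symm z - C • g.symm z'‖ < ρ := by
    refine e1.trans_lt ?_
    have h1 : C ^ 2 * ‖z - z'‖ < C ^ 2 * (ρ / C ^ 2) :=
      mul_lt_mul_of_pos_left hzz (by positivity)
    have h2 : C ^ 2 * (ρ / C ^ 2) = ρ := by field_simp
    rwa [h2] at h1
  have e4 : ‖C⁻¹ • g.symm x‖ ≤ 1 := by
    rw [norm_smul, Real.norm_of_nonneg (inv_nonneg.mpr hC0.le), inv_mul_le_iff₀ hC0, mul_one]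
    have h1 := hC' x
    nlinarith
  obtain ⟨ξ, hξ, hξ2⟩ := H R hR R' hR' _ hzR _ hzR' e2 e3 _ hxR e4
  refine ⟨g (C • ξ), apply_mem_im.mpr (R'.smul_mem C hξ), ?_⟩
  have e5 : x - g (C • ξ) = g (C • (C⁻¹ • g.symm x - ξ)) := by
    rw [smul_sub, smul_smul, mul_inv_cancel₀ hC0.ne', one_smul, map_sub,
      LinearEquiv.apply_symm_apply]
  have e6 : Real.sqrt ‖C • g.symm z - C • g.symm z'‖ ≤ C * Real.sqrt ‖z - z'‖ := by
    have h1 := Real.sqrt_le_sqrt e1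
    rwa [Real.sqrt_mul (by positivity), Real.sqrt_sq hC0.le] at h1
  rw [e5]
  calc ‖g (C • (C⁻¹ • g.symm x - ξ))‖ ≤ C * ‖C • (C⁻¹ • g.symm x - ξ)‖ := hC _
    _ = C ^ 2 * ‖C⁻¹ • g.symm x - ξ‖ := by
        rw [norm_smul, Real.norm_of_nonneg hC0.le]; ring
    _ ≤ C ^ 2 * (ε / C ^ 3 * (C * Real.sqrt ‖z - z'‖)) := by
        refine mul_le_mul_of_nonneg_left (hξ2.trans ?_) (by positivity)
        exact mul_le_mul_of_nonneg_left e6 (by positivity)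
    _ = ε * Real.sqrt ‖z - z'‖ := by field_simp

theorem CocW.mapS [FiniteDimensional ℝ Q] {Λ : Set (Submodule ℝ (W Q))} (h : CocW Λ)
    {g : W Q ≃ₗ[ℝ] W Q} (hg : ∀ x y, bW (g x) (g y) = bW x y) : CocW (mapS g Λ) := by
  obtain ⟨K, hK, hK1, hK2⟩ := h
  have hc : Continuous (g : W Q →ₗ[ℝ] W Q) := LinearMap.continuous_of_finiteDimensional _
  refine ⟨(g : W Q →ₗ[ℝ] W Q) '' K, hK.image hc, ?_, fun x hx => ?_⟩
  · rintro _ ⟨y, hy, rfl⟩
    change bW (g y) (g y) = -1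
    rw [hg]
    exact hK1 hy
  · obtain ⟨γ, hγ, hγK⟩ := hK2 (g.symm x) (by rw [trans_iso_symm hg]; exact hx)
    exact ⟨g.symm.trans (γ.trans g), hγ.conj hg, ⟨γ (g.symm x), hγK, rfl⟩⟩

end Pool.Agent.H2.AdS
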