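import Pool.Agent.H2.AdS.Gap.Unb1
import Pool.Agent.H2.AdS.Limit

/-!
# GAP-3: unbounded sequences of isometries of `W Q`, the limits of the leaves
-/

set_option autoImplicit false

open scoped RealInnerProductSpace
open Filter Topology

namespace Pool.Agent.H2.AdS

variable {Q : Type*} [NormedAddCommGroup Q] [InnerProductSpace ℝ Q]

/-- two orthogonal isotropic vectors which are orthogonal to a negative vector are proportional -/
theorem dun_rank {u w k : W Q} (hu0 : u ≠ 0) (hu : bW u u = 0) (hw : bW w w = 0)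
    (huw : bW u w = 0) (hk : bW k k = -1) (huk : bW u k = 0) (hwk : bW w k = 0) :
    ∃ s : ℝ, w = s • u := by
  have hd0 : u.1 - u.2.2 ≠ 0 := fun h => hu0 (eq_zero_of_diff hu h)
  set a : ℝ := u.1.1 - u.2.2.1 with ha
  set b : ℝ := u.1.2 - u.2.2.2 with hb
  set a' : ℝ := w.1.1 - w.2.2.1 with ha'
  set b' : ℝ := w.1.2 - w.2.2.2 with hb'
  by_cases hdet : a * b' - b * a' = 0
  · have hab : a ≠ 0 ∨ b ≠ 0 := by
      by_contra h
      push Not at h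
      exact hd0 (Prod.ext h.1 h.2)
    have hs : ∃ s : ℝ, a' = s * a ∧ b' = s * b := by
      rcases hab with h | h
      · refine ⟨a' / a, by field_simp, ?_⟩
        field_simp
        linarith
      · refine ⟨b' / b, ?_, by field_simp⟩
        field_simp
        linarith
    obtain ⟨s, hs1, hs2⟩ := hs
    refine ⟨s, ?_⟩
    rw [← sub_eq_zero]
    refine eq_zero_of_diff ?_ ?_
    · rw [bW_sub_left, bW_sub_right, bW_sub_right, bW_smul_left, bW_smul_left, bW_smul_right,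
        bW_smul_right, hu, hw, huw, bW_comm w u, huw]
      ring
    · refine Prod.ext ?_ ?_
      · simp only [Prod.fst_sub, Prod.snd_sub, Prod.smul_fst, Prod.smul_snd, smul_eq_mul,
          Prod.fst_zero]
        rw [ha', ha] at hs1
        linarith
      · simp only [Prod.fst_sub, Prod.snd_sub, Prod.smul_fst, Prod.smul_snd, smul_eq_mul,
          Prod.snd_zero]
        rw [hb', hb] at hs2
        linarith
  · exfalso
    set p : ℝ := k.1.1 - k.2.2.1 with hp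
    set q : ℝ := k.1.2 - k.2.2.2 with hq
    set s : ℝ := (p * b' - q * a') / (a * b' - b * a') with hs
    set t : ℝ := (a * q - b * p) / (a * b' - b * a') with ht
    have e1 : s * a + t * a' = p := by
      rw [hs, ht, div_mul_eq_mul_div, div_mul_eq_mul_div, ← add_div, div_eq_iff hdet]
      ring
    have e2 : s * b + t * b' = q := by
      rw [hs, ht, div_mul_eq_mul_div, div_mul_eq_mul_div, ← add_div, div_eq_iff hdet]
      ring
    have h1 : bW (k - s • u - t • w) (k - s • u - t • w) = -1 := by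
      simp only [bW_sub_left, bW_sub_right, bW_smul_left, bW_smul_right]
      rw [hk, hu, hw, huw, bW_comm w u, huw, huk, hwk, bW_comm k u, bW_comm k w, huk, hwk]
      ring
    have h2 : (k - s • u - t • w).1.1 = (k - s • u - t • w).2.2.1 := by
      simp only [Prod.fst_sub, Prod.snd_sub, Prod.smul_fst, Prod.smul_snd, smul_eq_mul]
      rw [ha, ha', hp] at e1
      linarith
    have h3 : (k - s • u - t • w).1.2 = (k - s • u - t • w).2.2.2 := by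
      simp only [Prod.fst_sub, Prod.snd_sub, Prod.smul_fst, Prod.smul_snd, smul_eq_mul]
      rw [hb, hb', hq] at e2
      linarith
    rw [bW_self, h2, h3] at h1
    nlinarith [sq_nonneg ‖(k - s • u - t • w).2.1‖, sq_nonneg (k - s • u - t • w).2.2.1,
      sq_nonneg (k - s • u - t • w).2.2.2]

theorem dun_ker {P : Submodule ℝ (W Q)} (hP : PhW P) (z : W Q) :
    ∃ x ∈ P, x ≠ 0 ∧ bW x z = 0 := by
  obtain ⟨u, hu, hu2⟩ := hP.graph (1, 0)
  obtain ⟨v, hv, hv2⟩ := hP.graph (0, 1)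
  have hne : ∀ x : W Q, ∀ y : ℝ × ℝ, x.1 - x.2.2 = y → y ≠ 0 → x ≠ 0 := by
    intro x y hx hy h
    rw [h] at hx
    exact hy (by rw [← hx]; simp)
  by_cases h : bW u z = 0
  · exact ⟨u, hu, hne u _ hu2 (by simp), h⟩
  · refine ⟨bW v z • u - bW u z • v, P.sub_mem (P.smul_mem _ hu) (P.smul_mem _ hv),
      hne _ (bW v z, -bW u z) ?_ ?_, ?_⟩
    · have : (bW v z • u - bW u z • v).1 - (bW v z • u - bW u z • v).2.2 =
          bW v z • (u.1 - u.2.2) - bW u z • (v.1 - v.2.2) := by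
        simp only [Prod.fst_sub, Prod.snd_sub, Prod.smul_fst, Prod.smul_snd, smul_sub]; abel
      rw [this, hu2, hv2]
      simp
    · intro h1
      have h2 := congrArg Prod.snd h1
      exact h (by simpa using h2)
    · rw [bW_sub_left, bW_smul_left, bW_smul_left]
      ring

theorem dun_nonorth {P : Submodule ℝ (W Q)} (hP : PhW P) {k : W Q} (hk : bW k k = -1) :
    ∃ g ∈ P, bW g k = 1 := by
  obtain ⟨u, hu, hu2⟩ := hP.graph (1, 0)
  obtain ⟨v, hv, hv2⟩ := hP.graph (0, 1)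
  by_cases h : bW u k = 0
  · by_cases h' : bW v k = 0
    · exfalso
      have hu0 : u ≠ 0 := by
        intro h0
        rw [h0] at hu2
        have := congrArg Prod.fst hu2
        simp at this
      obtain ⟨s, hs⟩ := dun_rank hu0 (hP.iso u hu u hu) (hP.iso v hv v hv) (hP.iso u hu v hv)
        hk h h'
      have h1 : v.1 - v.2.2 = s • (u.1 - u.2.2) := by
        rw [hs]
        simp only [Prod.smul_fst, Prod.smul_snd, smul_sub]
      rw [hu2, hv2] at h1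
      have := congrArg Prod.snd h1
      simp at this
    · exact ⟨(bW v k)⁻¹ • v, P.smul_mem _ hv, by rw [bW_smul_left, inv_mul_cancel₀ h']⟩
  · exact ⟨(bW u k)⁻¹ • u, P.smul_mem _ hu, by rw [bW_smul_left, inv_mul_cancel₀ h]⟩

theorem dun_bd {x : W Q} (hx : bW x x = 0)
    (h : (x.1.1 - x.2.2.1) ^ 2 + (x.1.2 - x.2.2.2) ^ 2 = 1) : ‖x‖ ≤ 1 := by
  rw [bW_self] at hx
  have h1 : (x.1.1 + x.2.2.1) ^ 2 + (x.1.2 + x.2.2.2) ^ 2 + ‖x.2.1‖ ^ 2 = 1 := by nlinarith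
  have g : ∀ a b : ℝ, (a - b) ^ 2 ≤ 1 → (a + b) ^ 2 ≤ 1 → |a| ≤ 1 ∧ |b| ≤ 1 := by
    intro a b h1 h2
    have h3 := abs_le_of_sq_le_sq' (by simpa using h1 : (a - b) ^ 2 ≤ 1 ^ 2) zero_le_one
    have h4 := abs_le_of_sq_le_sq' (by simpa using h2 : (a + b) ^ 2 ≤ 1 ^ 2) zero_le_one
    constructor <;> rw [abs_le] <;> constructor <;> linarith [h3.1, h3.2, h4.1, h4.2]
  have g1 := g x.1.1 x.2.2.1
    (by nlinarith [sq_nonneg (x.1.2 - x.2.2.2)])
    (by nlinarith [sq_nonneg (x.1.2 + x.2.2.2), sq_nonneg ‖x.2.1‖])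
  have g2 := g x.1.2 x.2.2.2
    (by nlinarith [sq_nonneg (x.1.1 - x.2.2.1)])
    (by nlinarith [sq_nonneg (x.1.1 + x.2.2.1), sq_nonneg ‖x.2.1‖])
  have g3 : ‖x.2.1‖ ≤ 1 := by
    have : ‖x.2.1‖ ^ 2 ≤ 1 ^ 2 := by
      nlinarith [sq_nonneg (x.1.1 + x.2.2.1), sq_nonneg (x.1.2 + x.2.2.2)]
    exact le_of_sq_le_sq this zero_le_one
  rw [Prod.norm_def, Prod.norm_def, Prod.norm_def, Prod.norm_def]
  exact max_le (max_le g1.1 g2.1) (max_le g3 (max_le g1.2 g2.2))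

theorem dun_leaf [FiniteDimensional ℝ Q] {Λ : Set (Submodule ℝ (W Q))} (hΛ : FolW Λ)
    (𝒰 : Ultrafilter ℕ) (R : ℕ → Submodule ℝ (W Q)) (hR : ∀ n, R n ∈ Λ) :
    ∃ G ∈ Λ, (∀ x ∈ G, ∃ u : ℕ → W Q, (∀ n, u n ∈ R n) ∧ Tendsto u 𝒰 (𝓝 x)) ∧
      ∀ (u : ℕ → W Q) (u' : W Q), (∀ n, u n ∈ R n) → Tendsto u 𝒰 (𝓝 u') → u' ∈ G := by
  haveI : ProperSpace (W Q) := FiniteDimensional.proper ℝ (W Q)
  choose e he he' using fun n => (hΛ.ph _ (hR n)).graph (1, 0)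
  choose f hf hf' using fun n => (hΛ.ph _ (hR n)).graph (0, 1)
  obtain ⟨e', -, hel⟩ := Limit_ultra (isCompact_closedBall (0 : W Q) 1) 𝒰 (f := e)
    (Eventually.of_forall fun n => by
      rw [Metric.mem_closedBall, dist_zero_right]
      refine dun_bd ((hΛ.ph _ (hR n)).iso _ (he n) _ (he n)) ?_
      have h1 := congrArg Prod.fst (he' n)
      have h2 := congrArg Prod.snd (he' n)
      simp only [Prod.fst_sub, Prod.snd_sub] at h1 h2
      rw [h1, h2]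
      norm_num)
  obtain ⟨f', -, hfl⟩ := Limit_ultra (isCompact_closedBall (0 : W Q) 1) 𝒰 (f := f)
    (Eventually.of_forall fun n => by
      rw [Metric.mem_closedBall, dist_zero_right]
      refine dun_bd ((hΛ.ph _ (hR n)).iso _ (hf n) _ (hf n)) ?_
      have h1 := congrArg Prod.fst (hf' n)
      have h2 := congrArg Prod.snd (hf' n)
      simp only [Prod.fst_sub, Prod.snd_sub] at h1 h2
      rw [h1, h2]
      norm_num)
  obtain ⟨G, hG, heG, hfG⟩ := hΛ.closed 𝒰 R e f e' f' (fun n => ⟨hR n, he n, hf n⟩) hel hfl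
  have hdc : Continuous fun x : W Q => x.1 - x.2.2 :=
    continuous_fst.sub (continuous_snd.comp continuous_snd)
  have hed : e'.1 - e'.2.2 = (1, 0) :=
    tendsto_nhds_unique ((hdc.tendsto e').comp hel)
      (tendsto_const_nhds.congr fun n => (he' n).symm)
  have hfd : f'.1 - f'.2.2 = (0, 1) :=
    tendsto_nhds_unique ((hdc.tendsto f').comp hfl)
      (tendsto_const_nhds.congr fun n => (hf' n).symm)
  have hGx : ∀ x ∈ G, ∃ u : ℕ → W Q, (∀ n, u n ∈ R n) ∧ Tendsto u 𝒰 (𝓝 x) := by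
    intro x hx
    refine ⟨fun n => (x.1 - x.2.2).1 • e n + (x.1 - x.2.2).2 • f n, fun n =>
      (R n).add_mem ((R n).smul_mem _ (he n)) ((R n).smul_mem _ (hf n)), ?_⟩
    have h1 : x = (x.1 - x.2.2).1 • e' + (x.1 - x.2.2).2 • f' := by
      refine (hΛ.ph G hG).unique_graph hx
        (G.add_mem (G.smul_mem _ heG) (G.smul_mem _ hfG)) ?_
      have : ∀ s t : ℝ, (s • e' + t • f').1 - (s • e' + t • f').2.2 =
          s • (e'.1 - e'.2.2) + t • (f'.1 - f'.2.2) := by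
        intro s t
        simp only [Prod.fst_add, Prod.snd_add, Prod.smul_fst, Prod.smul_snd, smul_sub]; abel
      rw [this, hed, hfd]
      refine Prod.ext ?_ ?_ <;> simp
    have h2 := (hel.const_smul (x.1 - x.2.2).1).add (hfl.const_smul (x.1 - x.2.2).2)
    rw [← h1] at h2
    exact h2
  refine ⟨G, hG, hGx, fun u u' hu hul => ?_⟩
  have h0 : ∀ (v : ℕ → W Q) (v' : W Q), (∀ n, v n ∈ R n) → Tendsto v 𝒰 (𝓝 v') →
      bW v' u' = 0 := by
    intro v v' hv hvl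
    refine tendsto_nhds_unique (tendsto_bW hvl hul) (tendsto_const_nhds.congr fun n => ?_)
    rw [(hΛ.ph _ (hR n)).iso _ (hv n) _ (hu n)]
  refine (hΛ.ph G hG).mem_of_orth (h0 u u' hu hul) fun x hx => ?_
  obtain ⟨v, hv, hvl⟩ := hGx x hx
  exact h0 v x hv hvl

theorem dun_key [FiniteDimensional ℝ Q] {Λ : Set (Submodule ℝ (W Q))} (hΛ : FolW Λ)
    (F : ℕ → W Q ≃ₗ[ℝ] W Q) (hF : ∀ n x y, bW (F n x) (F n y) = bW x y) (𝒰 : Ultrafilter ℕ)
    {x₀ : W Q} (hx₀ : bW x₀ x₀ = -1) {c : ℕ → ℝ} {l l' k x₁ : W Q}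
    (hc0 : ∀ᶠ n in (𝒰 : Filter ℕ), 0 < c n) (hc : Tendsto c 𝒰 (𝓝 0)) (hl : l ≠ 0)
    (hll : bW l l = 0) (hll' : bW l' l' = 0) (hx₁ : bW x₁ l = 1) (hkk : bW k k = -1)
    (hk : Tendsto (fun n => (F n).symm x₀) 𝒰 (𝓝 k)) (hkl : bW k l = 0) (hx₀l : bW x₀ l' = 0)
    (hlim : ∀ (u : ℕ → W Q) (u' : W Q), Tendsto u 𝒰 (𝓝 u') →
        Tendsto (fun n => c n • F n (u n)) 𝒰 (𝓝 (bW u' l • l')))
    {R : ℕ → Submodule ℝ (W Q)} (hR : ∀ n, R n ∈ Λ) {P' : Submodule ℝ (W Q)} (hP' : PhW P')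
    (hLim : LimW F 𝒰 R P') (hn : l' ∉ P') :
    ∃ d ∈ P', d ≠ 0 ∧ bW d l' = 0 ∧ bW d x₀ = 1 ∧ ∃ (σ : ℕ → W Q) (g : W Q)
      (G : Submodule ℝ (W Q)), G ∈ Λ ∧ l ∈ G ∧ g ∈ G ∧ (∀ n, σ n ∈ R n) ∧
      Tendsto σ 𝒰 (𝓝 g) ∧ Tendsto (fun n => F n (σ n)) 𝒰 (𝓝 d) := by
  haveI : ProperSpace (W Q) := FiniteDimensional.proper ℝ (W Q)
  have hiso : ∀ n, ∀ x ∈ R n, ∀ y ∈ R n, bW x y = 0 := fun n => (hΛ.ph _ (hR n)).iso
  have hFk : ∀ n x, bW (F n x) x₀ = bW x ((F n).symm x₀) := by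
    intro n x
    rw [← hF n x ((F n).symm x₀), LinearEquiv.apply_symm_apply]
  have hkn : ∀ n, bW ((F n).symm x₀) ((F n).symm x₀) = -1 := by
    intro n
    rw [← hFk, LinearEquiv.apply_symm_apply, hx₀]
  have hx₀l2 : bW l' x₀ = 0 := by rw [bW_comm]; exact hx₀l
  obtain ⟨G, hG, hG1, hG2⟩ := dun_leaf hΛ 𝒰 R hR
  -- the limit leaf contains `l`
  have h1 : ∀ x ∈ G, bW x l = 0 := by
    intro x hx
    obtain ⟨u, hu, hux⟩ := hG1 x hx
    have h2 := hlim u x hux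
    have h3 : bW x l • l' ∈ P' := by
      refine hLim.mem hF hiso hP' (w := fun n => c n • u n)
        (fun n => (R n).smul_mem _ (hu n)) ?_
      refine h2.congr fun n => ?_
      rw [map_smul]
    by_contra h4
    refine hn ?_
    have := P'.smul_mem (bW x l)⁻¹ h3
    rwa [smul_smul, inv_mul_cancel₀ h4, one_smul] at this
  have hlG : l ∈ G := (hΛ.ph G hG).mem_of_orth hll h1
  -- the vector `d`
  obtain ⟨d₀, hd₀, hd₀0, hd₀l⟩ := dun_ker hP' l'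
  have hd₀x : bW d₀ x₀ ≠ 0 := by
    intro h
    obtain ⟨s, hs⟩ := dun_rank hd₀0 (hP'.iso _ hd₀ _ hd₀) hll' hd₀l hx₀ h hx₀l2
    exact hn (hs ▸ P'.smul_mem s hd₀)
  set d : W Q := (bW d₀ x₀)⁻¹ • d₀ with hd
  have hdP : d ∈ P' := P'.smul_mem _ hd₀
  have hdl : bW d l' = 0 := by rw [hd, bW_smul_left, hd₀l, mul_zero]
  have hdx : bW d x₀ = 1 := by rw [hd, bW_smul_left, inv_mul_cancel₀ hd₀x]
  have hd0 : d ≠ 0 := by
    intro h
    rw [h, bW_zero_left] at hdx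
    exact zero_ne_one hdx
  -- unit vectors of the leaves orthogonal to `k n`
  have hρ : ∀ n, ∃ ρ ∈ R n, ‖ρ‖ = 1 ∧ bW ρ ((F n).symm x₀) = 0 := by
    intro n
    obtain ⟨ρ, h2, h3, h4⟩ := dun_ker (hΛ.ph _ (hR n)) ((F n).symm x₀)
    refine ⟨‖ρ‖⁻¹ • ρ, (R n).smul_mem _ h2, ?_, ?_⟩
    · rw [norm_smul, norm_inv, norm_norm, inv_mul_cancel₀ (norm_ne_zero_iff.mpr h3)]
    · rw [bW_smul_left, h4, mul_zero]
  choose ρ hρR hρ1 hρk using hρ
  obtain ⟨ρ', -, hρl⟩ := Limit_ultra (isCompact_closedBall (0 : W Q) 1) 𝒰 (f := ρ)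
    (Eventually.of_forall fun n => by
      rw [Metric.mem_closedBall, dist_zero_right, hρ1])
  have hρ'1 : ‖ρ'‖ = 1 :=
    tendsto_nhds_unique hρl.norm (tendsto_const_nhds.congr fun n => (hρ1 n).symm)
  have hρ'0 : ρ' ≠ 0 := by
    intro h
    rw [h, norm_zero] at hρ'1
    exact zero_ne_one hρ'1
  have hρ'G : ρ' ∈ G := hG2 ρ ρ' hρR hρl
  have hρ'k : bW ρ' k = 0 :=
    tendsto_nhds_unique (tendsto_bW hρl hk) (tendsto_const_nhds.congr fun n => (hρk n).symm)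
  obtain ⟨β, hβ⟩ := dun_rank hl hll ((hΛ.ph G hG).iso _ hρ'G _ hρ'G)
    ((hΛ.ph G hG).iso _ hlG _ hρ'G) hkk (by rw [bW_comm]; exact hkl) hρ'k
  have hβ0 : β ≠ 0 := by
    intro h
    rw [h, zero_smul] at hβ
    exact hρ'0 hβ
  have hρx : Tendsto (fun n => bW (ρ n) x₁) 𝒰 (𝓝 β) := by
    have h2 := tendsto_bW hρl (tendsto_const_nhds (x := x₁))
    rwa [hβ, bW_smul_left, bW_comm l x₁, hx₁, mul_one] at h2
  -- their images
  have hFρ : ∀ n, F n (ρ n) ≠ 0 := by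
    intro n h
    have h2 : ρ n = 0 := (LinearEquiv.map_eq_zero_iff (F n)).mp h
    have h3 := hρ1 n
    rw [h2, norm_zero] at h3
    exact zero_ne_one h3
  have hFρ' : ∀ n, ‖F n (ρ n)‖ ≠ 0 := fun n => norm_ne_zero_iff.mpr (hFρ n)
  obtain ⟨v', -, hvl⟩ := Limit_ultra (isCompact_closedBall (0 : W Q) 1) 𝒰
    (f := fun n => ‖F n (ρ n)‖⁻¹ • F n (ρ n))
    (Eventually.of_forall fun n => by
      rw [Metric.mem_closedBall, dist_zero_right, norm_smul, norm_inv, norm_norm,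
        inv_mul_cancel₀ (hFρ' n)])
  have hv'1 : ‖v'‖ = 1 := by
    refine tendsto_nhds_unique hvl.norm (tendsto_const_nhds.congr fun n => ?_)
    rw [norm_smul, norm_inv, norm_norm, inv_mul_cancel₀ (hFρ' n)]
  have hv'0 : v' ≠ 0 := by
    intro h
    rw [h, norm_zero] at hv'1
    exact zero_ne_one hv'1
  have hv'P : v' ∈ P' := by
    refine hLim.mem hF hiso hP' (w := fun n => ‖F n (ρ n)‖⁻¹ • ρ n)
      (fun n => (R n).smul_mem _ (hρR n)) ?_
    refine hvl.congr fun n => ?_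
    rw [map_smul]
  have hv'x : bW v' x₀ = 0 := by
    refine tendsto_nhds_unique (tendsto_bW hvl (tendsto_const_nhds (x := x₀)))
      (tendsto_const_nhds.congr fun n => ?_)
    rw [bW_smul_left, hFk, hρk, mul_zero]
  have hv'l : bW v' l' ≠ 0 := by
    intro h
    obtain ⟨s, hs⟩ := dun_rank hv'0 (hP'.iso _ hv'P _ hv'P) hll' h hx₀ hv'x hx₀l2
    exact hn (hs ▸ P'.smul_mem s hv'P)
  have hcx := hlim (fun _ => x₁) x₁ tendsto_const_nhds
  rw [hx₁, one_smul] at hcx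
  have hα1 : Tendsto (fun n => (‖F n (ρ n)‖⁻¹ * c n) * bW (ρ n) x₁) 𝒰 (𝓝 (bW v' l')) := by
    refine (tendsto_bW hvl hcx).congr fun n => ?_
    rw [bW_smul_left, bW_smul_right, hF]
    ring
  have hρx0 : ∀ᶠ n in (𝒰 : Filter ℕ), bW (ρ n) x₁ ≠ 0 := hρx.eventually_ne hβ0
  have hα2 : Tendsto (fun n => ‖F n (ρ n)‖⁻¹ * c n) 𝒰 (𝓝 (bW v' l' / β)) := by
    refine (hα1.div hρx hβ0).congr' ?_
    filter_upwards [hρx0] with n hn0
    rw [Pi.div_apply, mul_div_assoc, div_self hn0, mul_one]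
  have hα0 : bW v' l' / β ≠ 0 := div_ne_zero hv'l hβ0
  have hα3 : Tendsto (fun n => (‖F n (ρ n)‖⁻¹ * c n)⁻¹) 𝒰 (𝓝 (bW v' l' / β)⁻¹) :=
    hα2.inv₀ hα0
  -- approximation of `d`
  obtain ⟨τ, hτR, hτ⟩ := hLim d hdP
  obtain ⟨g, hgG, hgk⟩ := dun_nonorth (hΛ.ph G hG) hkk
  obtain ⟨γ, hγR, hγ⟩ := hG1 g hgG
  have hω : Tendsto (fun n => bW (γ n) ((F n).symm x₀)) 𝒰 (𝓝 1) := by
    have := tendsto_bW hγ hk
    rwa [hgk] at this
  have hκ : Tendsto (fun n => bW (τ n) ((F n).symm x₀)) 𝒰 (𝓝 1) := by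
    have := tendsto_bW hτ (tendsto_const_nhds (x := x₀))
    rw [hdx] at this
    exact this.congr fun n => hFk n _
  set σ : ℕ → W Q := fun n =>
    (bW (τ n) ((F n).symm x₀) / bW (γ n) ((F n).symm x₀)) • γ n with hσ
  have hσR : ∀ n, σ n ∈ R n := fun n => (R n).smul_mem _ (hγR n)
  have hσl : Tendsto σ 𝒰 (𝓝 g) := by
    have := (hκ.div hω one_ne_zero).smul hγ
    rwa [div_one, one_smul] at this
  have hs : ∀ n, ∃ s : ℝ, bW (γ n) ((F n).symm x₀) ≠ 0 → τ n - σ n = s • ρ n := by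
    intro n
    by_cases h2 : bW (γ n) ((F n).symm x₀) = 0
    · exact ⟨0, fun h => absurd h2 h⟩
    · have hρ0 : ρ n ≠ 0 := by
        intro h
        have h3 := hρ1 n
        rw [h, norm_zero] at h3
        exact zero_ne_one h3
      have hm : τ n - σ n ∈ R n := (R n).sub_mem (hτR n) (hσR n)
      obtain ⟨s, hs⟩ := dun_rank hρ0 (hiso n _ (hρR n) _ (hρR n)) (hiso n _ hm _ hm)
        (hiso n _ (hρR n) _ hm) (hkn n) (hρk n) (by
          rw [bW_sub_left, hσ, bW_smul_left, div_mul_cancel₀ _ h2, sub_self])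
      exact ⟨s, fun _ => hs⟩
  choose s hs using hs
  have hω0 : ∀ᶠ n in (𝒰 : Filter ℕ), bW (γ n) ((F n).symm x₀) ≠ 0 :=
    hω.eventually_ne one_ne_zero
  have hcτ : Tendsto (fun n => c n * bW (τ n) x₁) 𝒰 (𝓝 0) := by
    have h2 := tendsto_bW hτ hcx
    rw [hdl] at h2
    refine h2.congr fun n => ?_
    rw [bW_smul_right, hF]
  have hcσ : Tendsto (fun n => c n * bW (σ n) x₁) 𝒰 (𝓝 0) := by
    have h2 := hc.mul (tendsto_bW hσl (tendsto_const_nhds (x := x₁)))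
    rwa [zero_mul] at h2
  have hcs : Tendsto (fun n => c n * s n) 𝒰 (𝓝 0) := by
    have h2 := (hcτ.sub hcσ).div hρx hβ0
    rw [sub_zero, zero_div] at h2
    refine h2.congr' ?_
    filter_upwards [hρx0, hω0] with n h3 h4
    have h5 : bW (τ n) x₁ - bW (σ n) x₁ = s n * bW (ρ n) x₁ := by
      rw [← bW_sub_left, hs n h4, bW_smul_left]
    rw [Pi.div_apply, ← mul_sub, h5, ← mul_assoc, mul_div_assoc, div_self h3, mul_one]
  have hsF : Tendsto (fun n => s n * ‖F n (ρ n)‖) 𝒰 (𝓝 0) := by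
    have h2 := hcs.mul hα3
    rw [zero_mul] at h2
    refine h2.congr' ?_
    filter_upwards [hc0] with n h3
    have h4 := hFρ' n
    field_simp
  have hsF' : Tendsto (fun n => s n • F n (ρ n)) 𝒰 (𝓝 0) := by
    have h2 := hsF.smul hvl
    rw [zero_smul] at h2
    refine h2.congr fun n => ?_
    rw [smul_smul, mul_assoc, mul_inv_cancel₀ (hFρ' n), mul_one]
  refine ⟨d, hdP, hd0, hdl, hdx, σ, g, G, hG, hlG, hgG, hσR, hσl, ?_⟩
  have h2 := hτ.sub hsF'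
  rw [sub_zero] at h2
  refine h2.congr' ?_
  filter_upwards [hω0] with n h3
  rw [← map_smul, ← map_sub, ← hs n h3, sub_sub_cancel]

theorem dich_unb [FiniteDimensional ℝ Q] {Λ : Set (Submodule ℝ (W Q))} (hΛ : FolW Λ)
    (F : ℕ → W Q ≃ₗ[ℝ] W Q) (hF : ∀ n x y, bW (F n x) (F n y) = bW x y) (𝒰 : Ultrafilter ℕ)
    {K : Set (W Q)} (hK : IsCompact K) (hK1 : K ⊆ {x | bW x x = -1}) {x₀ : W Q}
    (hx₀ : bW x₀ x₀ = -1) (hk : ∀ n, (F n).symm x₀ ∈ K)
    (hinf : Tendsto (fun n => ‖LinearMap.toContinuousLinearMap (F n : W Q →ₗ[ℝ] W Q)‖) 𝒰 atTop) :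
    ∃ P'' : Submodule ℝ (W Q), (∀ x ∈ P'', ∀ y ∈ P'', bW x y = 0) ∧
      ∀ R : ℕ → Submodule ℝ (W Q), (∀ n, R n ∈ Λ) → ∀ P' : Submodule ℝ (W Q), PhW P' →
        LimW F 𝒰 R P' → ∃ x ∈ P', x ≠ 0 ∧ x ∈ P'' := by
  obtain ⟨c, l, l', k, x₁, hc0, hc, hl, hl', hll, hll', hx₁, hkk, hkl, hkl2, hx₀l, hlim⟩ :=
    unb_struct F hF 𝒰 hK hK1 hx₀ hk hinf
  have hx₀l2 : bW l' x₀ = 0 := by rw [bW_comm]; exact hx₀l
  by_cases hex : ∃ (R : ℕ → Submodule ℝ (W Q)) (P' : Submodule ℝ (W Q)), (∀ n, R n ∈ Λ) ∧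
      PhW P' ∧ LimW F 𝒰 R P' ∧ l' ∉ P'
  · obtain ⟨R₁, P₁, hR₁, hP₁, hL₁, hn₁⟩ := hex
    obtain ⟨d₁, hd₁P, hd₁0, hd₁l, hd₁x, σ₁, g₁, G₁, hG₁, hlG₁, hg₁, hσ₁R, hσ₁, hFσ₁⟩ :=
      dun_key hΛ F hF 𝒰 hx₀ hc0 hc hl hll hll' hx₁ hkk hkl hkl2 hx₀l hlim hR₁ hP₁ hL₁ hn₁
    have hd₁d₁ : bW d₁ d₁ = 0 := hP₁.iso _ hd₁P _ hd₁P
    refine ⟨Submodule.span ℝ {l', d₁}, ?_, ?_⟩
    · intro x hx y hy
      obtain ⟨a, b, rfl⟩ := Submodule.mem_span_pair.mp hx
      obtain ⟨a', b', rfl⟩ := Submodule.mem_span_pair.mp hy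
      simp only [bW_add_left, bW_add_right, bW_smul_left, bW_smul_right]
      rw [hll', hd₁d₁, hd₁l, bW_comm l' d₁, hd₁l]
      ring
    · intro R hR P' hP' hL
      by_cases hn : l' ∈ P'
      · exact ⟨l', hn, hl', Submodule.subset_span (by simp)⟩
      · obtain ⟨d, hdP, hd0, hdl, hdx, σ, g, G, hG, hlG, hg, hσR, hσ, hFσ⟩ :=
          dun_key hΛ F hF 𝒰 hx₀ hc0 hc hl hll hll' hx₁ hkk hkl hkl2 hx₀l hlim hR hP' hL hn
        refine ⟨d, hdP, hd0, ?_⟩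
        have hGG : G = G₁ := hΛ.uni G hG G₁ hG₁ l hl hlG hlG₁
        have hgg : bW g₁ g = 0 := (hΛ.ph G₁ hG₁).iso _ hg₁ _ (hGG ▸ hg)
        have hdd : bW d₁ d = 0 := by
          refine tendsto_nhds_unique (tendsto_bW hFσ₁ hFσ) ?_
          have h1 := tendsto_bW hσ₁ hσ
          rw [hgg] at h1
          exact h1.congr fun n => (hF n _ _).symm
        have hd' : bW d d = 0 := hP'.iso _ hdP _ hdP
        obtain ⟨s, hs⟩ := dun_rank (w := d - d₁) hl' hll' (by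
          rw [bW_sub_left, bW_sub_right, bW_sub_right, hd', hd₁d₁, hdd, bW_comm d d₁, hdd]
          ring) (by rw [bW_sub_right, bW_comm l' d, bW_comm l' d₁, hdl, hd₁l, sub_zero]) hx₀
          hx₀l2 (by rw [bW_sub_left, hdx, hd₁x, sub_self])
        rw [Submodule.mem_span_pair]
        exact ⟨s, 1, by rw [← hs, one_smul, sub_add_cancel]⟩
  · push Not at hex
    refine ⟨Submodule.span ℝ {l'}, ?_, ?_⟩
    · intro x hx y hy
      obtain ⟨a, rfl⟩ := Submodule.mem_span_singleton.mp hx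
      obtain ⟨b, rfl⟩ := Submodule.mem_span_singleton.mp hy
      rw [bW_smul_left, bW_smul_right, hll', mul_zero, mul_zero]
    · intro R hR P' hP' hL
      exact ⟨l', hex R P' hR hP' hL, hl', Submodule.subset_span (by simp)⟩

end Pool.Agent.H2.AdS
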