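import Pool.Agent.H2.AdS.Gap.Bdd
import Pool.Agent.H2.AdS.Gap.Unb2
import Pool.Agent.H2.AdS.Gap.Trans

/-!
# The dichotomy for limits of images of an invariant foliation
-/

set_option autoImplicit false

open scoped RealInnerProductSpace
open Filter Topology

namespace Pool.Agent.H2.AdS

variable {Q : Type*} [NormedAddCommGroup Q] [InnerProductSpace ℝ Q]

/-- **Dichotomy.**  Let the isometries which preserve the foliation `Λ` act cocompactly on the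
quadric.  For every sequence `A n` of isometries, either the limits of the sets `A n Λ` are exactly
the members of the foliation `g Λ`, `g` an isometry, or there is a totally isotropic subspace which
meets all the limits. -/
theorem dichotomy [FiniteDimensional ℝ Q] {Λ : Set (Submodule ℝ (W Q))} (hΛ : FolW Λ)
    (hc : CocW Λ) (A : ℕ → W Q ≃ₗ[ℝ] W Q) (hA : ∀ n x y, bW (A n x) (A n y) = bW x y)
    (𝒰 : Ultrafilter ℕ) :
    (∃ g : W Q ≃ₗ[ℝ] W Q, (∀ x y, bW (g x) (g y) = bW x y) ∧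
      (∀ P : ℕ → Submodule ℝ (W Q), (∀ n, P n ∈ Λ) → ∀ P' : Submodule ℝ (W Q), PhW P' →
        LimW A 𝒰 P P' → P' ∈ mapS g Λ) ∧
      ∀ P' ∈ mapS g Λ, ∃ P : ℕ → Submodule ℝ (W Q), (∀ n, P n ∈ Λ) ∧ LimW A 𝒰 P P') ∨
    ∃ P'' : Submodule ℝ (W Q), (∀ x ∈ P'', ∀ y ∈ P'', bW x y = 0) ∧
      ∀ P : ℕ → Submodule ℝ (W Q), (∀ n, P n ∈ Λ) → ∀ P' : Submodule ℝ (W Q), PhW P' →
        LimW A 𝒰 P P' → ∃ x ∈ P', x ≠ 0 ∧ x ∈ P'' := by
  obtain ⟨K, hK, hK1, hKΓ⟩ := hc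
  set x₀ : W Q := ((1 / 2, 0), 0, (-(1 / 2), 0)) with hx₀d
  have hx₀ : bW x₀ x₀ = -1 := by
    rw [bW_self, hx₀d]; norm_num
  have hAs : ∀ n, bW ((A n).symm x₀) ((A n).symm x₀) = -1 := by
    intro n
    rw [← hA n, LinearEquiv.apply_symm_apply, hx₀]
  choose γ hγ hγK using fun n => hKΓ _ (hAs n)
  have hγs : ∀ n, StW Λ (γ n).symm := fun n => (hγ n).symm hΛ
  let F : ℕ → W Q ≃ₗ[ℝ] W Q := fun n => (γ n).symm.trans (A n)
  have hF : ∀ n x y, bW (F n x) (F n y) = bW x y := by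
    intro n x y
    change bW (A n ((γ n).symm x)) (A n ((γ n).symm y)) = _
    rw [hA, (hγs n).iso]
  -- conversion of limits
  have hconv : ∀ (P : ℕ → Submodule ℝ (W Q)) (P' : Submodule ℝ (W Q)), LimW A 𝒰 P P' →
      LimW F 𝒰 (fun n => im (γ n) (P n)) P' := by
    intro P P' h x hx
    obtain ⟨u, hu, hux⟩ := h x hx
    refine ⟨fun n => γ n (u n), fun n => apply_mem_im.mpr (hu n), ?_⟩
    refine hux.congr fun n => ?_
    change A n (u n) = A n ((γ n).symm (γ n (u n)))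
    rw [LinearEquiv.symm_apply_apply]
  have hconv' : ∀ (R : ℕ → Submodule ℝ (W Q)) (P' : Submodule ℝ (W Q)), LimW F 𝒰 R P' →
      LimW A 𝒰 (fun n => im (γ n).symm (R n)) P' := by
    intro R P' h x hx
    obtain ⟨u, hu, hux⟩ := h x hx
    exact ⟨fun n => (γ n).symm (u n), fun n => apply_mem_im.mpr (hu n), hux⟩
  by_cases hM : ∃ M : ℝ, ∀ᶠ n in (𝒰 : Filter ℕ),
      ‖LinearMap.toContinuousLinearMap (F n : W Q →ₗ[ℝ] W Q)‖ ≤ M
  · left
    obtain ⟨M, hM⟩ := hM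
    obtain ⟨g, hg, hg1, hg2⟩ := dich_bdd hΛ F hF 𝒰 M hM
    refine ⟨g, hg, ?_, ?_⟩
    · intro P hP P' hP' hlim
      obtain ⟨R', hR', hR'e⟩ := hg1 _ (fun n => (hγ n).map _ (hP n)) P' hP' (hconv P P' hlim)
      exact ⟨R', hR', hR'e⟩
    · rintro P' ⟨R', hR', rfl⟩
      exact ⟨_, fun n => (hγs n).map _ hR', hconv' _ _ (hg2 R' hR')⟩
  · right
    push Not at hM
    obtain ⟨P'', h1, h2⟩ := dich_unb hΛ F hF 𝒰 hK hK1 hx₀ (fun n => hγK n)
      (tendsto_atTop.2 fun M => by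
        filter_upwards [hM M] with n hn
        exact hn.le)
    refine ⟨P'', h1, fun P hP P' hP' hlim => ?_⟩
    exact h2 _ (fun n => (hγ n).map _ (hP n)) P' hP' (hconv P P' hlim)

end Pool.Agent.H2.AdS
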