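import Pool.Agent.H2.AdS.Gap.Defs

/-!
# The photon foliation of a map of the sphere in adapted coordinates (GAP-5)
-/

set_option autoImplicit false

open scoped RealInnerProductSpace
open Filter Topology

namespace Pool.Agent.H2.AdS

section FromF

variable {E : Type*} [NormedAddCommGroup E] [InnerProductSpace ℝ E]

/-- the photons of `f` in adapted coordinates -/
def LW (f : E → E) {v₀ w₀ : E} (h : OPair v₀ w₀) : Set (Submodule ℝ (W (QQ v₀ w₀))) :=
  {P | ∃ v : E, ‖v‖ = 1 ∧ P = (phot f v).comap (Theta h : W (QQ v₀ w₀) →ₗ[ℝ] V E)}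

/-- the leaf map of `f` is `o(√d)`, uniformly -/
def SmallF (f : E → E) : Prop :=
  ∀ ε : ℝ, 0 < ε → ∃ ρ : ℝ, 0 < ρ ∧ ∀ v w : E, ‖v‖ = 1 → ‖w‖ = 1 → ∀ s t : ℝ,
    s ^ 2 + t ^ 2 = 1 → ‖s • (v - w) + t • (f v - f w)‖ < ρ →
      ‖v - w‖ + ‖f v - f w‖ ≤ ε * Real.sqrt ‖s • (v - w) + t • (f v - f w)‖

theorem fromf_mem {f : E → E} {v₀ w₀ : E} {h : OPair v₀ w₀} {v : E} {x : W (QQ v₀ w₀)} :
    x ∈ (phot f v).comap (Theta h : W (QQ v₀ w₀) →ₗ[ℝ] V E) ↔
      (Theta h x).1 = (Theta h x).2.1 • v + (Theta h x).2.2 • f v := Iff.rfl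

theorem fromf_snd {v₀ w₀ : E} (h : OPair v₀ w₀) (x : W (QQ v₀ w₀)) :
    (Theta h x).2 = x.1 - x.2.2 := rfl

theorem folW_LW [FiniteDimensional ℝ E] {f : E → E} (hf : PhotonFoliation f) {v₀ w₀ : E}
    (h : OPair v₀ w₀) : FolW (LW f h) where
  ph := by
    rintro P ⟨v, hv, rfl⟩
    refine ⟨fun x hx y hy => ?_, fun y => ?_⟩
    · rw [← form_Theta h]
      exact form_phot hf hv hx hy
    · refine ⟨(Theta h).symm (y.1 • v + y.2 • f v, y), ?_, ?_⟩
      · rw [fromf_mem, LinearEquiv.apply_symm_apply]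
      · rw [← fromf_snd h, LinearEquiv.apply_symm_apply]
  cov := by
    intro x hx0 hx
    have h0 : Theta h x ≠ 0 := fun hc => hx0 ((LinearEquiv.map_eq_zero_iff _).mp hc)
    obtain ⟨P, ⟨v, hv, rfl⟩, hxP⟩ := (isFol_LamF hf).cov (Theta h x) h0 (by rw [form_Theta, hx])
    exact ⟨_, ⟨v, hv, rfl⟩, hxP⟩
  uni := by
    rintro P ⟨v, hv, rfl⟩ P' ⟨v', hv', rfl⟩ x hx0 hx hx'
    have h0 : Theta h x ≠ 0 := fun hc => hx0 ((LinearEquiv.map_eq_zero_iff _).mp hc)
    rw [phot_eq hf hv hv' h0 hx hx']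
  closed := by
    intro 𝒰 P u w u' w' hP hu hw
    choose v hv hPv using fun n => (hP n).1
    obtain ⟨v', hv', -⟩ := ultra_lim 𝒰 (u := v) (C := 1) fun n => (hv n).le
    have hn : ‖v'‖ = 1 := by
      refine tendsto_nhds_unique hv'.norm ?_
      refine tendsto_const_nhds.congr fun n => (hv n).symm
    have hfv : Tendsto (fun n => f (v n)) 𝒰 (𝓝 (f v')) := by
      have h1 : ContinuousWithinAt f (Metric.sphere 0 1) v' :=
        hf.continuousOn v' (by simpa using hn)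
      refine h1.tendsto.comp ?_
      rw [tendsto_nhdsWithin_iff]
      exact ⟨hv', Eventually.of_forall fun n => by simpa using hv n⟩
    have hΘ : Continuous (Theta h : W (QQ v₀ w₀) →ₗ[ℝ] V E) :=
      LinearMap.continuous_of_finiteDimensional _
    have key : ∀ (a : ℕ → W (QQ v₀ w₀)) (a' : W (QQ v₀ w₀)), (∀ n, a n ∈ P n) →
        Tendsto a 𝒰 (𝓝 a') →
        a' ∈ (phot f v').comap (Theta h : W (QQ v₀ w₀) →ₗ[ℝ] V E) := by
      intro a a' ha hlim
      have h1 : Tendsto (fun n => Theta h (a n)) 𝒰 (𝓝 (Theta h a')) :=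
        (hΘ.tendsto a').comp hlim
      have h2 : Tendsto (fun n => (Theta h (a n)).1) 𝒰 (𝓝 (Theta h a').1) :=
        (continuous_fst.tendsto _).comp h1
      have h3 : Tendsto (fun n => (Theta h (a n)).2.1) 𝒰 (𝓝 (Theta h a').2.1) :=
        ((continuous_fst.comp continuous_snd).tendsto _).comp h1
      have h4 : Tendsto (fun n => (Theta h (a n)).2.2) 𝒰 (𝓝 (Theta h a').2.2) :=
        ((continuous_snd.comp continuous_snd).tendsto _).comp h1
      rw [fromf_mem]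
      refine tendsto_nhds_unique h2 ?_
      refine ((h3.smul hv').add (h4.smul hfv)).congr fun n => ?_
      have h5 := ha n
      rw [hPv n, fromf_mem] at h5
      exact h5.symm
    exact ⟨_, ⟨v', hn, rfl⟩, key u u' (fun n => (hP n).2.1) hu, key w w' (fun n => (hP n).2.2) hw⟩

theorem P0_mem_LW {f : E → E} (hf : PhotonFoliation f) {v₀ : E} (hv₀ : ‖v₀‖ = 1) :
    P0 (QQ v₀ (f v₀)) ∈ LW f (opair hf hv₀) := by
  refine ⟨v₀, hv₀, ?_⟩
  ext x
  rw [mem_P0, fromf_mem, Theta_apply]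
  simp only
  obtain ⟨h2, h3⟩ := mem_QQ.mp x.2.1.2
  have hvw : ⟪v₀, f v₀⟫ = 0 := hf.inner_eq v₀ hv₀
  have hwv : ⟪f v₀, v₀⟫ = 0 := by rw [real_inner_comm]; exact hvw
  have hw : ‖f v₀‖ = 1 := hf.norm_eq v₀ hv₀
  constructor
  · rintro ⟨e1, e2⟩
    have e3 : x.2.2.1 = 0 := congrArg Prod.fst e2
    have e4 : x.2.2.2 = 0 := congrArg Prod.snd e2
    rw [e1, e3, e4]
    simp
  · intro e
    have e1 := congrArg (fun z => ⟪v₀, z⟫) e
    have e2 := congrArg (fun z => ⟪f v₀, z⟫) e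
    simp only [inner_add_right, inner_smul_right, real_inner_self_eq_norm_sq, hv₀, hw, hvw, hwv,
      h2, h3] at e1 e2
    have e3 : x.2.2.1 = 0 := by linarith
    have e4 : x.2.2.2 = 0 := by linarith
    rw [e3, e4, add_zero, sub_zero, add_zero, sub_zero] at e
    refine ⟨?_, Prod.ext e3 e4⟩
    have e5 : (x.2.1 : E) = 0 := by
      have := sub_eq_zero.mpr e
      simpa using this
    exact Subtype.ext e5

theorem cocW_LW [FiniteDimensional ℝ E] {f : E → E} {v₀ w₀ : E}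
    (h : OPair v₀ w₀) (Γ : Subgroup (V E ≃ₗ[ℝ] V E))
    (hΓ : ∀ γ ∈ Γ, ∀ x y, form (γ x) (γ y) = form x y)
    (hc : ∃ K : Set (V E), IsCompact K ∧ K ⊆ {x | form x x = -1} ∧
      ∀ x, form x x = -1 → ∃ γ ∈ Γ, γ x ∈ K)
    (hinv : ∀ γ ∈ Γ, ∀ v : E, ‖v‖ = 1 → ∃ w : E, ‖w‖ = 1 ∧
      (phot f v).map (γ : V E →ₗ[ℝ] V E) = phot f w) : CocW (LW f h) := by
  obtain ⟨K, hK, hK1, hK2⟩ := hc
  have hΘ : Continuous ((Theta h).symm : V E →ₗ[ℝ] W (QQ v₀ w₀)) :=
    LinearMap.continuous_of_finiteDimensional _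
  refine ⟨(Theta h).symm '' K, hK.image hΘ, ?_, ?_⟩
  · rintro _ ⟨x, hx, rfl⟩
    rw [Set.mem_setOf_eq, ← form_Theta h, LinearEquiv.apply_symm_apply]
    exact hK1 hx
  · intro x hx
    obtain ⟨γ, hγ, hγx⟩ := hK2 (Theta h x) (by rw [form_Theta, hx])
    refine ⟨(Theta h).trans (γ.trans (Theta h).symm), ⟨?_, ?_⟩, ⟨_, hγx, rfl⟩⟩
    · intro x y
      rw [← form_Theta h]
      change form (Theta h ((Theta h).symm (γ (Theta h x))))
        (Theta h ((Theta h).symm (γ (Theta h y)))) = _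
      rw [LinearEquiv.apply_symm_apply, LinearEquiv.apply_symm_apply, hΓ γ hγ, form_Theta]
    · rintro P ⟨v, hv, rfl⟩
      obtain ⟨w, hw, hvw⟩ := hinv γ hγ v hv
      refine ⟨w, hw, ?_⟩
      ext z
      rw [mem_im, ← hvw]
      change Theta h ((Theta h).symm (γ.symm (Theta h z))) ∈ phot f v ↔
        Theta h z ∈ (phot f v).map (γ : V E →ₗ[ℝ] V E)
      rw [LinearEquiv.apply_symm_apply]
      constructor
      · intro hz
        exact ⟨_, hz, γ.apply_symm_apply _⟩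
      · rintro ⟨a, ha, haz⟩
        rw [← haz]
        change γ.symm (γ a) ∈ phot f v
        rwa [γ.symm_apply_apply]

theorem smallW_LW [FiniteDimensional ℝ E] {f : E → E} (hf : PhotonFoliation f) {v₀ w₀ : E}
    (h : OPair v₀ w₀) (hs : SmallF f) : SmallW (LW f h) := by
  -- a common bound for the coordinates and their inverse
  obtain ⟨C, hC1, hCΘ, hCΨ⟩ : ∃ C : ℝ, 1 ≤ C ∧ (∀ x, ‖Theta h x‖ ≤ C * ‖x‖) ∧
      ∀ z, ‖(Theta h).symm z‖ ≤ C * ‖z‖ := by
    set A := LinearMap.toContinuousLinearMap (Theta h : W (QQ v₀ w₀) →ₗ[ℝ] V E) with hA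
    set B := LinearMap.toContinuousLinearMap ((Theta h).symm : V E →ₗ[ℝ] W (QQ v₀ w₀)) with hB
    refine ⟨max 1 (max ‖A‖ ‖B‖), le_max_left _ _, fun x => ?_, fun z => ?_⟩
    · refine (A.le_opNorm x).trans (mul_le_mul_of_nonneg_right ?_ (norm_nonneg _))
      exact (le_max_left _ _).trans (le_max_right _ _)
    · refine (B.le_opNorm z).trans (mul_le_mul_of_nonneg_right ?_ (norm_nonneg _))
      exact (le_max_right _ _).trans (le_max_right _ _)
  have hC0 : 0 < C := by linarith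
  intro ε hε
  obtain ⟨ρ, hρ, hF⟩ := hs (ε / (3 * C ^ 3)) (by positivity)
  refine ⟨ρ / (6 * C ^ 2), by positivity, ?_⟩
  rintro P ⟨v, hv, rfl⟩ P' ⟨w, hw, rfl⟩ z hz z' hz' hzn hzz x hx hxn
  rw [fromf_mem] at hz hz' hx
  set s := (Theta h z).2.1 with hsdef
  set t := (Theta h z).2.2 with htdef
  set s' := (Theta h z').2.1 with hs'def
  set t' := (Theta h z').2.2 with ht'def
  set δ := ‖z - z'‖ with hδ
  have hδ0 : 0 ≤ δ := norm_nonneg _
  -- differences
  have hd : ‖Theta h z - Theta h z'‖ ≤ C * δ := by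
    rw [← map_sub]; exact hCΘ _
  have hd1 : ‖(Theta h z).1 - (Theta h z').1‖ ≤ C * δ := (norm_fst_le _).trans hd
  have hd2 : |s - s'| ≤ C * δ :=
    ((norm_fst_le _).trans (norm_snd_le _)).trans hd
  have hd3 : |t - t'| ≤ C * δ :=
    ((norm_snd_le _).trans (norm_snd_le _)).trans hd
  have hfv := hf.norm_eq v hv
  have hfw := hf.norm_eq w hw
  have hE : ‖s • (v - w) + t • (f v - f w)‖ ≤ 3 * C * δ := by
    have e : s • (v - w) + t • (f v - f w) = ((Theta h z).1 - (Theta h z').1) -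
        ((s - s') • w + (t - t') • f w) := by
      rw [hz, hz']; module
    rw [e]
    calc ‖((Theta h z).1 - (Theta h z').1) - ((s - s') • w + (t - t') • f w)‖
        ≤ ‖(Theta h z).1 - (Theta h z').1‖ + ‖(s - s') • w + (t - t') • f w‖ := norm_sub_le _ _
      _ ≤ C * δ + (‖(s - s') • w‖ + ‖(t - t') • f w‖) :=
          add_le_add hd1 (norm_add_le _ _)
      _ = C * δ + (|s - s'| + |t - t'|) := by
          rw [norm_smul, norm_smul, hw, hfw, Real.norm_eq_abs, Real.norm_eq_abs, mul_one, mul_one]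
      _ ≤ 3 * C * δ := by linarith
  -- the size of the point
  have hr2 : ‖(Theta h z).1‖ ^ 2 = s ^ 2 + t ^ 2 := by
    have h1 := form_phot hf hv (x := Theta h z) (y := Theta h z) hz hz
    simp only [form, real_inner_self_eq_norm_sq] at h1
    nlinarith
  set r := ‖(Theta h z).1‖ with hr
  have hr0 : 0 ≤ r := norm_nonneg _
  have hsr : |s| ≤ r := by
    rw [← Real.sqrt_sq hr0, hr2, ← Real.sqrt_sq_eq_abs]
    exact Real.sqrt_le_sqrt (by nlinarith [sq_nonneg t])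
  have htr : |t| ≤ r := by
    rw [← Real.sqrt_sq hr0, hr2, ← Real.sqrt_sq_eq_abs]
    exact Real.sqrt_le_sqrt (by nlinarith [sq_nonneg s])
  have hΘr : ‖Theta h z‖ ≤ r := by
    rw [Prod.norm_def, Prod.norm_def]
    exact max_le le_rfl (max_le hsr htr)
  have hrC : 1 / (2 * C) ≤ r := by
    have h1 : ‖z‖ ≤ C * r := by
      have h2 := hCΨ (Theta h z)
      rw [LinearEquiv.symm_apply_apply] at h2
      exact h2.trans (mul_le_mul_of_nonneg_left hΘr hC0.le)
    rw [div_le_iff₀ (by positivity)]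
    linarith
  have hrpos : 0 < r := lt_of_lt_of_le (by positivity) hrC
  have hst : (s / r) ^ 2 + (t / r) ^ 2 = 1 := by
    rw [div_pow, div_pow, ← add_div, ← hr2, div_self (pow_ne_zero 2 hrpos.ne')]
  have hdn : ‖(s / r) • (v - w) + (t / r) • (f v - f w)‖ ≤ 6 * C ^ 2 * δ := by
    have e : (s / r) • (v - w) + (t / r) • (f v - f w) =
        r⁻¹ • (s • (v - w) + t • (f v - f w)) := by
      rw [smul_add, smul_smul, smul_smul, div_eq_inv_mul, div_eq_inv_mul]
    rw [e, norm_smul, norm_inv, Real.norm_eq_abs, abs_of_pos hrpos]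
    have hinv : r⁻¹ ≤ 2 * C := by
      rw [inv_le_comm₀ hrpos (by positivity), ← one_div]
      exact hrC
    calc r⁻¹ * ‖s • (v - w) + t • (f v - f w)‖ ≤ (2 * C) * (3 * C * δ) :=
          mul_le_mul hinv hE (norm_nonneg _) (by positivity)
      _ = 6 * C ^ 2 * δ := by ring
  have hlt : ‖(s / r) • (v - w) + (t / r) • (f v - f w)‖ < ρ := by
    refine hdn.trans_lt ?_
    rw [lt_div_iff₀ (by positivity)] at hzz
    linarith
  have hfin := hF v w hv hw (s / r) (t / r) hst hlt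
  have hsq : Real.sqrt ‖(s / r) • (v - w) + (t / r) • (f v - f w)‖ ≤ 3 * C * Real.sqrt δ := by
    have h1 : Real.sqrt (6 * C ^ 2 * δ) ≤ 3 * C * Real.sqrt δ := by
      rw [show 3 * C * Real.sqrt δ = Real.sqrt ((3 * C) ^ 2 * δ) by
        rw [Real.sqrt_mul (by positivity), Real.sqrt_sq (by positivity)]]
      exact Real.sqrt_le_sqrt (by nlinarith [mul_nonneg (sq_nonneg C) hδ0])
    exact (Real.sqrt_le_sqrt hdn).trans h1
  -- the new point
  set s₂ := (Theta h x).2.1 with hs₂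
  set t₂ := (Theta h x).2.2 with ht₂
  have hΘx : ‖Theta h x‖ ≤ C := (hCΘ x).trans (by nlinarith)
  have hs₂C : |s₂| ≤ C := ((norm_fst_le _).trans (norm_snd_le _)).trans hΘx
  have ht₂C : |t₂| ≤ C := ((norm_snd_le _).trans (norm_snd_le _)).trans hΘx
  refine ⟨(Theta h).symm (s₂ • w + t₂ • f w, s₂, t₂), ?_, ?_⟩
  · rw [fromf_mem, LinearEquiv.apply_symm_apply]
  · have e : x - (Theta h).symm (s₂ • w + t₂ • f w, s₂, t₂) =
        (Theta h).symm (s₂ • (v - w) + t₂ • (f v - f w), 0, 0) := by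
      have e1 : Theta h x = (s₂ • v + t₂ • f v, s₂, t₂) := Prod.ext hx rfl
      apply (Theta h).injective
      rw [map_sub, LinearEquiv.apply_symm_apply, LinearEquiv.apply_symm_apply, e1]
      refine Prod.ext ?_ (Prod.ext ?_ ?_)
      · simp only [Prod.fst_sub]; module
      · simp
      · simp
    rw [e]
    have h1 : ‖((s₂ • (v - w) + t₂ • (f v - f w), 0, 0) : V E)‖ ≤
        C * (‖v - w‖ + ‖f v - f w‖) := by
      rw [Prod.norm_def, Prod.norm_def]
      have h2 : ‖s₂ • (v - w) + t₂ • (f v - f w)‖ ≤ C * (‖v - w‖ + ‖f v - f w‖) := by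
        refine (norm_add_le _ _).trans ?_
        rw [norm_smul, norm_smul, mul_add, Real.norm_eq_abs, Real.norm_eq_abs]
        exact add_le_add (mul_le_mul_of_nonneg_right hs₂C (norm_nonneg _))
          (mul_le_mul_of_nonneg_right ht₂C (norm_nonneg _))
      have h3 : 0 ≤ C * (‖v - w‖ + ‖f v - f w‖) := (norm_nonneg _).trans h2
      refine max_le h2 (max_le ?_ ?_) <;> simpa using h3
    have h2 : 0 ≤ ‖v - w‖ + ‖f v - f w‖ := by positivity
    calc ‖(Theta h).symm (s₂ • (v - w) + t₂ • (f v - f w), 0, 0)‖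
        ≤ C * ‖((s₂ • (v - w) + t₂ • (f v - f w), 0, 0) : V E)‖ := hCΨ _
      _ ≤ C * (C * (‖v - w‖ + ‖f v - f w‖)) := mul_le_mul_of_nonneg_left h1 hC0.le
      _ ≤ C * (C * (ε / (3 * C ^ 3) * (3 * C * Real.sqrt δ))) := by
          refine mul_le_mul_of_nonneg_left (mul_le_mul_of_nonneg_left ?_ hC0.le) hC0.le
          exact hfin.trans (mul_le_mul_of_nonneg_left hsq (by positivity))
      _ = ε * Real.sqrt δ := by field_simp

end FromF

end Pool.Agent.H2.AdS
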