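import Pool.Agent.H2.AdS.Gap.Stage
import Pool.Agent.H2.AdS.Gap.Alg3
import Pool.Agent.H2.AdS.Gap.FromF

/-!
# The gap theorem for photon foliations
-/

set_option autoImplicit false

open scoped RealInnerProductSpace
open Filter Topology

namespace Pool.Agent.H2.AdS

section Core

variable {Q : Type*} [NormedAddCommGroup Q] [InnerProductSpace ℝ Q] [FiniteDimensional ℝ Q]
  {E : Type*} [NormedAddCommGroup E] [InnerProductSpace ℝ E] [FiniteDimensional ℝ E]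

omit [FiniteDimensional ℝ Q] [FiniteDimensional ℝ E] in
theorem end_map {f : E → E} (Γ : Subgroup (V E ≃ₗ[ℝ] V E))
    (hinv : ∀ γ ∈ Γ, ∀ v : E, ‖v‖ = 1 → ∃ w : E, ‖w‖ = 1 ∧
      (phot f v).map (γ : V E →ₗ[ℝ] V E) = phot f w)
    {S : Q →ₗ[ℝ] Q} (H : W Q ≃ₗ[ℝ] V E)
    (hHΛ : ∀ P : Submodule ℝ (V E), P ∈ LamF f ↔
      ∃ P' ∈ LamC S, P = P'.map (H : W Q →ₗ[ℝ] V E))
    (δ : W Q ≃ₗ[ℝ] W Q) (hδ : conjHom H δ ∈ Γ) (P : Submodule ℝ (W Q)) (hP : P ∈ LamC S) :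
    P.map (δ : W Q →ₗ[ℝ] W Q) ∈ LamC S := by
  have h1 : P.map (H : W Q →ₗ[ℝ] V E) ∈ LamF f := (hHΛ _).mpr ⟨P, hP, rfl⟩
  have h2 : (P.map (H : W Q →ₗ[ℝ] V E)).map (conjHom H δ : V E →ₗ[ℝ] V E) ∈ LamF f := by
    obtain ⟨v, hv, hv2⟩ := h1
    obtain ⟨w, hw, hw2⟩ := hinv _ hδ v hv
    exact ⟨w, hw, by rw [hv2, hw2]⟩
  obtain ⟨P', hP', hPe⟩ := (hHΛ _).mp h2
  have h3 : P.map (δ : W Q →ₗ[ℝ] W Q) = P' := by
    ext x
    constructor
    · intro hx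
      obtain ⟨y, hy, rfl⟩ := Submodule.mem_map.mp hx
      have h4 : H (δ y) ∈ P'.map (H : W Q →ₗ[ℝ] V E) := by
        rw [← hPe]
        refine Submodule.mem_map.mpr ⟨H y, Submodule.mem_map_of_mem hy, ?_⟩
        change conjHom H δ (H y) = _
        rw [conjHom_apply, LinearEquiv.symm_apply_apply]
      obtain ⟨z, hz, hz2⟩ := Submodule.mem_map.mp h4
      have h5 : z = δ y := H.injective hz2
      rw [h5] at hz
      exact hz
    · intro hx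
      have h4 : H x ∈ (P.map (H : W Q →ₗ[ℝ] V E)).map (conjHom H δ : V E →ₗ[ℝ] V E) := by
        rw [hPe]; exact Submodule.mem_map_of_mem hx
      obtain ⟨z, hz, hz2⟩ := Submodule.mem_map.mp h4
      obtain ⟨y, hy, rfl⟩ := Submodule.mem_map.mp hz
      refine Submodule.mem_map.mpr ⟨y, hy, ?_⟩
      apply H.injective
      have h5 : conjHom H δ (H y) = H x := hz2
      rw [conjHom_apply, LinearEquiv.symm_apply_apply] at h5
      exact h5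
  rw [h3]; exact hP'

omit [FiniteDimensional ℝ E] in
/-- a foliation isometric to `LamC S` such that some isometry moves `Pp` is complex -/
theorem end_core {f : E → E} (Γ : Subgroup (V E ≃ₗ[ℝ] V E))
    (hΓ : ∀ γ ∈ Γ, ∀ x y, form (γ x) (γ y) = form x y)
    (hinv : ∀ γ ∈ Γ, ∀ v : E, ‖v‖ = 1 → ∃ w : E, ‖w‖ = 1 ∧
      (phot f v).map (γ : V E →ₗ[ℝ] V E) = phot f w)
    (hQ : ∃ q : Q, q ≠ 0) {S : Q →ₗ[ℝ] Q} (hS : ∀ q : Q, q ≠ 0 → ∀ c : ℝ, S q ≠ c • q)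
    (H : W Q ≃ₗ[ℝ] V E) (hHform : ∀ x y, form (H x) (H y) = bW x y)
    (hHΛ : ∀ P : Submodule ℝ (V E), P ∈ LamF f ↔
      ∃ P' ∈ LamC S, P = P'.map (H : W Q →ₗ[ℝ] V E))
    (s : W Q ≃ₗ[ℝ] W Q) (hsb : ∀ x y, bW (s x) (s y) = bW x y)
    (hsL : ∀ P ∈ LamC S, P.map (s : W Q →ₗ[ℝ] W Q) ∈ LamC S)
    (hsne : (Pp Q).map (s : W Q →ₗ[ℝ] W Q) ≠ Pp Q) :
    ∃ J : V E →ₗ[ℝ] V E, (∀ x, J (J x) = -x) ∧ (∀ x y, form (J x) (J y) = form x y) ∧
      (∀ v : E, ‖v‖ = 1 → ∀ x ∈ phot f v, J x ∈ phot f v) ∧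
      ∀ γ ∈ Γ, (∀ x, γ (J x) = J (γ x)) ∨ (∀ x, γ (J x) = -J (γ x)) := by
  have hHsymm : ∀ x y, bW (H.symm x) (H.symm y) = form x y := by
    intro x y
    rw [← hHform, LinearEquiv.apply_symm_apply, LinearEquiv.apply_symm_apply]
  obtain ⟨J, hJ1, hJ2, hJ3, hJ4⟩ := exists_J S hQ hS s hsb hsL hsne
  refine ⟨(H : W Q →ₗ[ℝ] V E) ∘ₗ J ∘ₗ (H.symm : V E →ₗ[ℝ] W Q), ?_, ?_, ?_, ?_⟩
  · intro x
    change H (J (H.symm (H (J (H.symm x))))) = -x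
    rw [LinearEquiv.symm_apply_apply, hJ1, map_neg, LinearEquiv.apply_symm_apply]
  · intro x y
    change form (H (J (H.symm x))) (H (J (H.symm y))) = form x y
    rw [hHform, hJ2, hHsymm]
  · intro v hv x hx
    obtain ⟨P', hP', hPe⟩ := (hHΛ (phot f v)).mp ⟨v, hv, rfl⟩
    rw [hPe] at hx ⊢
    obtain ⟨y, hy, rfl⟩ := Submodule.mem_map.mp hx
    refine Submodule.mem_map.mpr ⟨J y, hJ3 P' hP' y hy, ?_⟩
    change H (J y) = H (J (H.symm (H y)))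
    rw [LinearEquiv.symm_apply_apply]
  · intro γ hγ
    have hmem : conjHom H (conjHom H.symm γ) ∈ Γ := by
      have : conjHom H (conjHom H.symm γ) = γ := by
        ext1 y
        rw [conjHom_apply, conjHom_apply, LinearEquiv.symm_symm, LinearEquiv.apply_symm_apply,
          LinearEquiv.apply_symm_apply]
      rw [this]; exact hγ
    have hb : ∀ x y, bW (conjHom H.symm γ x) (conjHom H.symm γ y) = bW x y := by
      intro x y
      change bW (H.symm (γ (H x))) (H.symm (γ (H y))) = bW x y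
      rw [hHsymm, hΓ γ hγ, hHform]
    have happ : ∀ y, conjHom H.symm γ y = H.symm (γ (H y)) := fun y => rfl
    rcases hJ4 _ hb (end_map Γ hinv H hHΛ _ hmem) with h1 | h1
    · left
      intro x
      change γ (H (J (H.symm x))) = H (J (H.symm (γ x)))
      have h2 := h1 (H.symm x)
      rw [happ, happ, LinearEquiv.apply_symm_apply] at h2
      rw [← h2, LinearEquiv.apply_symm_apply]
    · right
      intro x
      change γ (H (J (H.symm x))) = -H (J (H.symm (γ x)))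
      have h2 := h1 (H.symm x)
      rw [happ, happ, LinearEquiv.apply_symm_apply] at h2
      rw [← map_neg, ← h2, LinearEquiv.apply_symm_apply]

/-- a foliation isometric to `LamC S` invariant under a proper cocompact group is complex -/
theorem end_proper {f : E → E} (Γ : Subgroup (V E ≃ₗ[ℝ] V E))
    (hΓ : ∀ γ ∈ Γ, ∀ x y, form (γ x) (γ y) = form x y)
    (hp : ∀ K : Set (V E), IsCompact K → K ⊆ {x | form x x = -1} →
      {γ : V E ≃ₗ[ℝ] V E | γ ∈ Γ ∧ ∃ x ∈ K, γ x ∈ K}.Finite)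
    (hc : ∃ K : Set (V E), IsCompact K ∧ K ⊆ {x | form x x = -1} ∧
      ∀ x, form x x = -1 → ∃ γ ∈ Γ, γ x ∈ K)
    (hinv : ∀ γ ∈ Γ, ∀ v : E, ‖v‖ = 1 → ∃ w : E, ‖w‖ = 1 ∧
      (phot f v).map (γ : V E →ₗ[ℝ] V E) = phot f w)
    (hQ : ∃ q : Q, q ≠ 0) {S : Q →ₗ[ℝ] Q} (hS : ∀ q : Q, q ≠ 0 → ∀ c : ℝ, S q ≠ c • q)
    (H : W Q ≃ₗ[ℝ] V E) (hHform : ∀ x y, form (H x) (H y) = bW x y)
    (hHΛ : ∀ P : Submodule ℝ (V E), P ∈ LamF f ↔
      ∃ P' ∈ LamC S, P = P'.map (H : W Q →ₗ[ℝ] V E)) :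
    ∃ J : V E →ₗ[ℝ] V E, (∀ x, J (J x) = -x) ∧ (∀ x y, form (J x) (J y) = form x y) ∧
      (∀ v : E, ‖v‖ = 1 → ∀ x ∈ phot f v, J x ∈ phot f v) ∧
      ∀ γ ∈ Γ, (∀ x, γ (J x) = J (γ x)) ∨ (∀ x, γ (J x) = -J (γ x)) := by
  have hHsymm : ∀ x y, bW (H.symm x) (H.symm y) = form x y := by
    intro x y
    rw [← hHform, LinearEquiv.apply_symm_apply, LinearEquiv.apply_symm_apply]
  have hHc : Continuous H := H.toLinearMap.continuous_of_finiteDimensional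
  have hHsc : Continuous H.symm := H.symm.toLinearMap.continuous_of_finiteDimensional
  set Γ' : Subgroup (W Q ≃ₗ[ℝ] W Q) := Γ.comap (conjHom H) with hΓ'
  have hb' : ∀ δ ∈ Γ', ∀ x y, bW (δ x) (δ y) = bW x y := by
    intro δ hδ x y
    have h1 := hΓ _ (Subgroup.mem_comap.mp hδ) (H x) (H y)
    rw [conjHom_apply, conjHom_apply, LinearEquiv.symm_apply_apply, LinearEquiv.symm_apply_apply,
      hHform, hHform] at h1
    exact h1
  have hL' : ∀ δ ∈ Γ', ∀ P ∈ LamC S, P.map (δ : W Q →ₗ[ℝ] W Q) ∈ LamC S :=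
    fun δ hδ P hP => end_map Γ hinv H hHΛ δ (Subgroup.mem_comap.mp hδ) P hP
  have hp' : ∀ K : Set (W Q), IsCompact K → K ⊆ {x | bW x x = -1} →
      {δ : W Q ≃ₗ[ℝ] W Q | δ ∈ Γ' ∧ ∃ x ∈ K, δ x ∈ K}.Finite := by
    intro K hK hK1
    have h1 := hp (H '' K) (hK.image hHc) (by
      rintro _ ⟨x, hx, rfl⟩
      change form (H x) (H x) = -1
      rw [hHform]; exact hK1 hx)
    have hinj : Function.Injective (conjHom H) := by
      intro δ δ' hδ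
      ext1 x
      have h2 : conjHom H δ (H x) = conjHom H δ' (H x) := by rw [hδ]
      rw [conjHom_apply, conjHom_apply, LinearEquiv.symm_apply_apply] at h2
      exact H.injective h2
    refine (h1.preimage hinj.injOn).subset ?_
    rintro δ ⟨hδ, x, hx, hδx⟩
    refine ⟨Subgroup.mem_comap.mp hδ, H x, ⟨x, hx, rfl⟩, δ x, hδx, ?_⟩
    rw [conjHom_apply, LinearEquiv.symm_apply_apply]
  have hc' : ∃ K : Set (W Q), IsCompact K ∧ K ⊆ {x | bW x x = -1} ∧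
      ∀ x, bW x x = -1 → ∃ δ ∈ Γ', δ x ∈ K := by
    obtain ⟨K, hK, hK1, hK2⟩ := hc
    refine ⟨H.symm '' K, hK.image hHsc, ?_, ?_⟩
    · rintro _ ⟨x, hx, rfl⟩
      change bW (H.symm x) (H.symm x) = -1
      rw [hHsymm]; exact hK1 hx
    · intro x hx
      obtain ⟨γ, hγ, hγx⟩ := hK2 (H x) (by rw [hHform]; exact hx)
      refine ⟨conjHom H.symm γ, ?_, ?_⟩
      · rw [hΓ', Subgroup.mem_comap]
        have : conjHom H (conjHom H.symm γ) = γ := by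
          ext1 y
          rw [conjHom_apply, conjHom_apply, LinearEquiv.symm_symm, LinearEquiv.apply_symm_apply,
            LinearEquiv.apply_symm_apply]
        rw [this]; exact hγ
      · exact ⟨γ (H x), hγx, rfl⟩
  obtain ⟨s, hsΓ, hsne⟩ := not_all_fix S hQ hS Γ' hb' hL' hp' hc'
  exact end_core Γ hΓ hinv hQ hS H hHform hHΛ s (hb' s hsΓ) (hL' s hsΓ) hsne

end Core

section Coord

variable {E : Type*} [NormedAddCommGroup E] [InnerProductSpace ℝ E] [FiniteDimensional ℝ E]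

omit [FiniteDimensional ℝ E] in
/-- the identification of `f` with `LamC S` -/
theorem end_H {f : E → E} {v₀ w₀ : E} (h : OPair v₀ w₀)
    {S : QQ v₀ w₀ →ₗ[ℝ] QQ v₀ w₀} {G : W (QQ v₀ w₀) ≃ₗ[ℝ] W (QQ v₀ w₀)}
    (hG : ∀ x y, bW (G x) (G y) = bW x y) (hL : mapS G (LW f h) = LamC S) :
    ∃ H : W (QQ v₀ w₀) ≃ₗ[ℝ] V E, (∀ x y, form (H x) (H y) = bW x y) ∧
      ∀ P : Submodule ℝ (V E), P ∈ LamF f ↔
        ∃ P' ∈ LamC S, P = P'.map (H : W (QQ v₀ w₀) →ₗ[ℝ] V E) := by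
  refine ⟨G.symm.trans (Theta h), fun x y => ?_, fun P => ?_⟩
  · rw [LinearEquiv.trans_apply, LinearEquiv.trans_apply, form_Theta, ← hG,
      LinearEquiv.apply_symm_apply, LinearEquiv.apply_symm_apply]
  · have key : ∀ P₀ : Submodule ℝ (W (QQ v₀ w₀)), (im G P₀).map
        ((G.symm.trans (Theta h) : W (QQ v₀ w₀) ≃ₗ[ℝ] V E) : W (QQ v₀ w₀) →ₗ[ℝ] V E) =
        P₀.map (Theta h : W (QQ v₀ w₀) →ₗ[ℝ] V E) := by
      intro P₀
      rw [im, ← Submodule.map_comp]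
      congr 1
      refine LinearMap.ext fun x => ?_
      change (Theta h) (G.symm (G x)) = Theta h x
      rw [LinearEquiv.symm_apply_apply]
    have key2 : ∀ P₀ : Submodule ℝ (V E), (P₀.comap (Theta h : W (QQ v₀ w₀) →ₗ[ℝ] V E)).map
        (Theta h : W (QQ v₀ w₀) →ₗ[ℝ] V E) = P₀ := by
      intro P₀
      exact Submodule.map_comap_eq_of_surjective (Theta h).surjective P₀
    constructor
    · rintro ⟨v, hv, rfl⟩
      refine ⟨im G ((phot f v).comap (Theta h : W (QQ v₀ w₀) →ₗ[ℝ] V E)), ?_, ?_⟩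
      · rw [← hL]
        exact ⟨_, ⟨v, hv, rfl⟩, rfl⟩
      · rw [key, key2]
    · rintro ⟨P', hP', rfl⟩
      rw [← hL] at hP'
      obtain ⟨P₀, ⟨v, hv, rfl⟩, rfl⟩ := hP'
      rw [key, key2]
      exact ⟨v, hv, rfl⟩

theorem mapS_mapS {Q : Type*} [NormedAddCommGroup Q] [InnerProductSpace ℝ Q]
    (g g' : W Q ≃ₗ[ℝ] W Q) (Λ : Set (Submodule ℝ (W Q))) :
    mapS g' (mapS g Λ) = mapS (g.trans g') Λ := by
  ext P
  constructor
  · rintro ⟨P₁, ⟨P₂, hP₂, rfl⟩, rfl⟩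
    exact ⟨P₂, hP₂, (im_trans g g' P₂).symm⟩
  · rintro ⟨P₂, hP₂, rfl⟩
    exact ⟨im g P₂, ⟨P₂, hP₂, rfl⟩, im_trans g g' P₂⟩

theorem im_sw_Pp {Q : Type*} [NormedAddCommGroup Q] [InnerProductSpace ℝ Q] :
    im (sw Q) (Pp Q) = P0 Q := by
  ext x
  rw [mem_im, mem_P0, mem_Pp]
  change x.2.2 = 0 ∧ x.2.1 = 0 ↔ _
  exact And.comm

/-- **The gap theorem.** -/
theorem gap_rigidity (hE : 3 ≤ Module.finrank ℝ E)
    (Γ : Subgroup (V E ≃ₗ[ℝ] V E)) (hΓ : ∀ γ ∈ Γ, ∀ x y, form (γ x) (γ y) = form x y)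
    (hc : ∃ K : Set (V E), IsCompact K ∧ K ⊆ {x | form x x = -1} ∧
      ∀ x, form x x = -1 → ∃ γ ∈ Γ, γ x ∈ K)
    {f : E → E} (hf : PhotonFoliation f)
    (hinv : ∀ γ ∈ Γ, ∀ v : E, ‖v‖ = 1 → ∃ w : E, ‖w‖ = 1 ∧
      (phot f v).map (γ : V E →ₗ[ℝ] V E) = phot f w)
    (hs : SmallF f) :
    ∃ J : V E →ₗ[ℝ] V E, (∀ x, J (J x) = -x) ∧ (∀ x y, form (J x) (J y) = form x y) ∧
      (∀ v : E, ‖v‖ = 1 → ∀ x ∈ phot f v, J x ∈ phot f v) ∧
      ∀ γ ∈ Γ, (∀ x, γ (J x) = J (γ x)) ∨ (∀ x, γ (J x) = -J (γ x)) := by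
  obtain ⟨v₀, hv₀⟩ : ∃ v : E, ‖v‖ = 1 := by
    have : Nontrivial E := Module.nontrivial_of_finrank_pos (R := ℝ) (by omega)
    exact exists_norm_eq E zero_le_one
  set h := opair hf hv₀ with hh
  have hQ := exists_QQ_ne_zero hE v₀ (f v₀)
  have hΛ₀ := folW_LW hf h
  have hS₀ := smallW_LW hf h hs
  have hC₀ := cocW_LW h Γ hΓ hc hinv
  have h0₀ := P0_mem_LW hf hv₀
  obtain ⟨g₁, hg₁, hp₁, -, hz₁, -⟩ := stage hQ hΛ₀ hS₀ hC₀ h0₀
  have hΛ₁ := hΛ₀.mapS hg₁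
  have hS₁ := hS₀.mapS g₁
  have hC₁ := hC₀.mapS hg₁
  have hΛ₂ := hΛ₁.mapS (g := sw _) bW_sw
  have hS₂ := hS₁.mapS (sw _)
  have hC₂ := hC₁.mapS (g := sw _) bW_sw
  have h0₂ : P0 (QQ v₀ (f v₀)) ∈ mapS (sw _) (mapS g₁ (LW f h)) := ⟨_, hp₁, im_sw_Pp.symm⟩
  have hy₂ : ∀ κ, StW (mapS (sw _) (mapS g₁ (LW f h))) (yk κ) := fun κ =>
    (hz₁ κ).conj (g := sw _) bW_sw
  obtain ⟨g₂, hg₂, hp₃, h0₃, hz₃, hy₃⟩ := stage hQ hΛ₂ hS₂ hC₂ h0₂
  have hy₃' := hy₃ hy₂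
  obtain ⟨S, hS, hL⟩ := gap_alg hQ (hΛ₂.mapS hg₂) (hC₂.mapS hg₂) h0₃ hp₃ hz₃ hy₃'
  rw [mapS_mapS, mapS_mapS] at hL
  have hL3 : mapS g₂ (mapS (sw _) (mapS g₁ (LW f h))) = LamC S := by
    rw [mapS_mapS, mapS_mapS]; exact hL
  obtain ⟨H, hH1, hH2⟩ := end_H h (S := S) (G := g₁.trans ((sw _).trans g₂)) (by
    intro x y
    simp only [LinearEquiv.trans_apply]
    rw [hg₂, bW_sw, hg₁]) hL
  refine end_core Γ hΓ hinv hQ hS H hH1 hH2 (yk 1) (bW_yk 1) ?_ ?_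
  · intro P hP
    rw [← hL3] at hP ⊢
    exact (hy₃' 1).map P hP
  · intro heq
    have h1 : yk 1 ((0, 0, (1, 0)) : W (QQ v₀ (f v₀))) ∈ Pp (QQ v₀ (f v₀)) := by
      rw [← heq]
      exact ⟨_, ⟨rfl, rfl⟩, rfl⟩
    have h2 := h1.1
    rw [yk_apply] at h2
    have h3 := congrArg Prod.snd h2
    simp at h3

end Coord

end Pool.Agent.H2.AdS
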