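import Pool.Agent.H2.AdS.Gap.FromF
import Pool.Agent.H2.AdS.Gap.Chart

/-!
# Blow-ups of the photon foliation of a map which is differentiable at one point
-/

set_option autoImplicit false

open scoped RealInnerProductSpace
open Filter Topology

namespace Pool.Agent.H2.AdS

/-- the norm estimate behind `scal_lim` -/
theorem scal_conv {Q : Type*} [NormedAddCommGroup Q] [InnerProductSpace ℝ Q]
    [FiniteDimensional ℝ Q] (S : Q →ₗ[ℝ] Q) {l : Filter ℕ} (q : Q) (ξ : ℕ → Q)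
    {k₁₁ k₁₂ k₂₁ k₂₂ : ℕ → ℝ} (h₁₁ : Tendsto k₁₁ l (𝓝 1)) (h₁₂ : Tendsto k₁₂ l (𝓝 0))
    (h₂₁ : Tendsto k₂₁ l (𝓝 0)) (h₂₂ : Tendsto k₂₂ l (𝓝 1)) {B : ℝ} (hB : 0 ≤ B)
    (h : ∀ δ : ℝ, 0 < δ → ∀ᶠ n in l, ‖k₁₂ n • q + k₂₂ n • ξ n - S (k₁₁ n • q + k₂₁ n • ξ n)‖ ≤
      δ * (‖k₁₁ n • q + k₂₁ n • ξ n‖ + B)) : Tendsto ξ l (𝓝 (S q)) := by
  obtain ⟨C, hC0, hC⟩ : ∃ C : ℝ, 0 ≤ C ∧ ∀ x, ‖S x‖ ≤ C * ‖x‖ :=
    ⟨‖LinearMap.toContinuousLinearMap S‖, norm_nonneg _,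
      fun x => (LinearMap.toContinuousLinearMap S).le_opNorm x⟩
  set D : ℝ := 3 * ‖q‖ + B + ‖S q‖ + (2 + C) * ‖S q‖ with hD
  have hD0 : 0 ≤ D := by positivity
  rw [Metric.tendsto_nhds]
  intro ε hε
  set δ : ℝ := min 1 (min (1 / (2 * (2 + C))) (ε / (4 * (D + 1)))) with hδ
  have hδ0 : 0 < δ := by
    rw [hδ]
    exact lt_min one_pos (lt_min (by positivity) (by positivity))
  have hδ1 : δ ≤ 1 := min_le_left _ _
  have hδ2 : δ * (2 + C) ≤ 1 / 2 := by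
    have h1 : δ ≤ 1 / (2 * (2 + C)) := (min_le_right _ _).trans (min_le_left _ _)
    calc δ * (2 + C) ≤ 1 / (2 * (2 + C)) * (2 + C) := by gcongr
      _ = 1 / 2 := by field_simp
  have hδ3 : δ * (D + 1) ≤ ε / 4 := by
    have h1 : δ ≤ ε / (4 * (D + 1)) := (min_le_right _ _).trans (min_le_right _ _)
    calc δ * (D + 1) ≤ ε / (4 * (D + 1)) * (D + 1) := by gcongr
      _ = ε / 4 := by field_simp
  have e₁₁ : ∀ᶠ n in l, |k₁₁ n - 1| < δ := by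
    simpa [Real.dist_eq] using (Metric.tendsto_nhds.mp h₁₁) δ hδ0
  have e₁₂ : ∀ᶠ n in l, |k₁₂ n| < δ := by
    simpa [Real.dist_eq] using (Metric.tendsto_nhds.mp h₁₂) δ hδ0
  have e₂₁ : ∀ᶠ n in l, |k₂₁ n| < δ := by
    simpa [Real.dist_eq] using (Metric.tendsto_nhds.mp h₂₁) δ hδ0
  have e₂₂ : ∀ᶠ n in l, |k₂₂ n - 1| < δ := by
    simpa [Real.dist_eq] using (Metric.tendsto_nhds.mp h₂₂) δ hδ0
  filter_upwards [e₁₁, e₁₂, e₂₁, e₂₂, h δ hδ0] with n n₁₁ n₁₂ n₂₁ n₂₂ hn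
  rw [dist_eq_norm]
  set η := k₁₂ n • q + k₂₂ n • ξ n - S (k₁₁ n • q + k₂₁ n • ξ n) with hη
  have hkey : ξ n - S q = η + (-k₁₂ n) • q + (1 - k₂₂ n) • ξ n + (k₁₁ n - 1) • S q +
      k₂₁ n • S (ξ n) := by
    rw [hη, map_add, map_smul, map_smul]
    module
  have hk11 : ‖k₁₁ n • q + k₂₁ n • ξ n‖ ≤ 2 * ‖q‖ + ‖ξ n‖ := by
    have h1 : |k₁₁ n| ≤ 2 := by
      have := abs_le.mp n₁₁.le
      rw [abs_le]
      constructor <;> linarith
    calc ‖k₁₁ n • q + k₂₁ n • ξ n‖ ≤ |k₁₁ n| * ‖q‖ + |k₂₁ n| * ‖ξ n‖ := by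
          refine (norm_add_le _ _).trans ?_
          rw [norm_smul, norm_smul, Real.norm_eq_abs, Real.norm_eq_abs]
      _ ≤ 2 * ‖q‖ + 1 * ‖ξ n‖ := by
          gcongr
          exact n₂₁.le.trans hδ1
      _ = 2 * ‖q‖ + ‖ξ n‖ := by ring
  have hξ : ‖ξ n‖ ≤ ‖S q‖ + ‖ξ n - S q‖ := by
    calc ‖ξ n‖ = ‖S q + (ξ n - S q)‖ := by congr 1; abel
      _ ≤ _ := norm_add_le _ _
  have hmain : ‖ξ n - S q‖ ≤ δ * (3 * ‖q‖ + B + ‖S q‖ + (2 + C) * ‖ξ n‖) := by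
    calc ‖ξ n - S q‖ = ‖η + (-k₁₂ n) • q + (1 - k₂₂ n) • ξ n + (k₁₁ n - 1) • S q +
          k₂₁ n • S (ξ n)‖ := by rw [← hkey]
      _ ≤ ‖η‖ + ‖(-k₁₂ n) • q‖ + ‖(1 - k₂₂ n) • ξ n‖ + ‖(k₁₁ n - 1) • S q‖ +
          ‖k₂₁ n • S (ξ n)‖ := by
          refine (norm_add_le _ _).trans ?_
          gcongr
          refine (norm_add_le _ _).trans ?_
          gcongr
          refine (norm_add_le _ _).trans ?_
          gcongr
          exact norm_add_le _ _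
      _ ≤ δ * (2 * ‖q‖ + ‖ξ n‖ + B) + δ * ‖q‖ + δ * ‖ξ n‖ + δ * ‖S q‖ +
          δ * (C * ‖ξ n‖) := by
          simp only [norm_smul, Real.norm_eq_abs, abs_neg]
          rw [abs_sub_comm 1 (k₂₂ n)]
          gcongr
          · exact hn.trans (by gcongr)
          · exact hC _
      _ = δ * (3 * ‖q‖ + B + ‖S q‖ + (2 + C) * ‖ξ n‖) := by ring
  have h1 : ‖ξ n - S q‖ ≤ δ * D + 1 / 2 * ‖ξ n - S q‖ := by
    calc ‖ξ n - S q‖ ≤ δ * (3 * ‖q‖ + B + ‖S q‖ + (2 + C) * ‖ξ n‖) := hmain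
      _ ≤ δ * (3 * ‖q‖ + B + ‖S q‖ + (2 + C) * (‖S q‖ + ‖ξ n - S q‖)) := by gcongr
      _ = δ * D + δ * (2 + C) * ‖ξ n - S q‖ := by rw [hD]; ring
      _ ≤ δ * D + 1 / 2 * ‖ξ n - S q‖ := by gcongr
  have h2 : δ * D ≤ ε / 4 := by nlinarith
  linarith

/-- the algebraic relations between the parameters of a leaf and the point `v` of the sphere -/
theorem scal_rel {E : Type*} [NormedAddCommGroup E] [InnerProductSpace ℝ E] {f : E → E}
    {v₀ w₀ : E} (h : OPair v₀ w₀) {v : E} {a b : QQ v₀ w₀} {s : ℝ}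
    (hP : PH a b (s + (1 / 4) * ⟪b, a⟫) = (phot f v).comap (Theta h : W (QQ v₀ w₀) →ₗ[ℝ] V E)) :
    prQ h v = ((⟪v₀, v⟫ + 1) / 2) • a + (⟪w₀, v⟫ / 2) • b ∧
    prQ h (f v) = (⟪v₀, f v⟫ / 2) • a + ((⟪w₀, f v⟫ + 1) / 2) • b ∧
    ⟪w₀, v⟫ * (1 + ‖b‖ ^ 2 / 4) = 2 * s * ((⟪v₀, v⟫ + 1) / 2) := by
  have h1 : (Theta h).symm (v, 1, 0) ∈ PH a b (s + (1 / 4) * ⟪b, a⟫) := by
    rw [hP, Submodule.mem_comap]
    change Theta h ((Theta h).symm (v, 1, 0)) ∈ phot f v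
    rw [LinearEquiv.apply_symm_apply, mem_phot]
    simp
  have h2 : (Theta h).symm (f v, 0, 1) ∈ PH a b (s + (1 / 4) * ⟪b, a⟫) := by
    rw [hP, Submodule.mem_comap]
    change Theta h ((Theta h).symm (f v, 0, 1)) ∈ phot f v
    rw [LinearEquiv.apply_symm_apply, mem_phot]
    simp
  rw [Theta_symm_apply] at h1 h2
  obtain ⟨e1, e2, e3⟩ := h1
  obtain ⟨g1, g2, g3⟩ := h2
  simp only at e1 e2 e3 g1 g2 g3
  simp only [add_zero, sub_zero] at e1 e2 e3 g1 g2 g3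
  refine ⟨e1, g1, ?_⟩
  rw [e1] at e3
  simp only [inner_add_right, inner_smul_right, real_inner_self_eq_norm_sq] at e3
  linarith

theorem scal_lim {E : Type*} [NormedAddCommGroup E] [InnerProductSpace ℝ E]
    [FiniteDimensional ℝ E] {f : E → E} (hf : PhotonFoliation f) {v₀ : E} (hv₀ : ‖v₀‖ = 1)
    {L : E →ₗ[ℝ] E} (hL : WeakDiffAt f v₀ L) (𝒰 : Ultrafilter ℕ)
    (h𝒰 : (𝒰 : Filter ℕ) ≤ atTop) (q : QQ v₀ (f v₀)) (c : ℝ) :
    ∃ P : ℕ → Submodule ℝ (W (QQ v₀ (f v₀))), (∀ n, P n ∈ LW f (opair hf hv₀)) ∧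
      LimW (fun n : ℕ => bL (Real.exp (-n)) 0 (Real.exp (-n)) (Real.exp_ne_zero _)
        (Real.exp_ne_zero _)) 𝒰 P (PH q (SL (opair hf hv₀) L q) c) := by
  classical
  set h := opair hf hv₀ with hh
  set S := SL h L with hS
  obtain ⟨ρ, r, hρ, hmem, hcont, hr0⟩ := chart (folW_LW hf h) (P0_mem_LW hf hv₀)
  set s' : ℝ := c - (1 / 4) * ⟪S q, q⟫ with hs'
  set e : ℕ → ℝ := fun n => Real.exp (-n) with he
  have he0 : ∀ n, 0 < e n := fun n => Real.exp_pos _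
  have hel : Tendsto e 𝒰 (𝓝 0) := by
    refine Tendsto.mono_left ?_ h𝒰
    exact Real.tendsto_exp_neg_atTop_nhds_zero.comp tendsto_natCast_atTop_atTop
  have hq0 : Tendsto (fun n => e n • q) 𝒰 (𝓝 0) := by
    have := hel.smul_const q
    rwa [zero_smul] at this
  have hs0 : Tendsto (fun n => e n ^ 2 * s') 𝒰 (𝓝 0) := by
    have := (hel.pow 2).mul_const s'
    simpa using this
  set R : ℕ → QQ v₀ (f v₀) := fun n => r (e n • q) (e n ^ 2 * s') with hR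
  have hin : ∀ᶠ n in (𝒰 : Filter ℕ), ‖e n • q‖ < ρ ∧ |e n ^ 2 * s'| < ρ := by
    have h1 : Tendsto (fun n => ‖e n • q‖) 𝒰 (𝓝 0) := by simpa using hq0.norm
    have h2 : Tendsto (fun n => |e n ^ 2 * s'|) 𝒰 (𝓝 0) := by simpa using hs0.abs
    exact (h1.eventually_lt_const hρ).and (h2.eventually_lt_const hρ)
  have hRl : Tendsto R 𝒰 (𝓝 0) := by
    have h1 : ((0 : QQ v₀ (f v₀)), (0 : ℝ)) ∈
        {p : QQ v₀ (f v₀) × ℝ | ‖p.1‖ < ρ ∧ |p.2| < ρ} := by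
      simpa using hρ
    have h2 := hcont _ h1
    have h3 : Tendsto (fun n => (e n • q, e n ^ 2 * s')) 𝒰
        (𝓝[{p : QQ v₀ (f v₀) × ℝ | ‖p.1‖ < ρ ∧ |p.2| < ρ}] ((0 : QQ v₀ (f v₀)), (0 : ℝ))) :=
      tendsto_nhdsWithin_iff.mpr ⟨hq0.prodMk_nhds hs0, hin⟩
    have h4 := h2.tendsto.comp h3
    simp only [hr0] at h4
    exact h4
  set κ : ℕ → ℝ := fun n => e n ^ 2 * s' + (1 / 4) * ⟪R n, e n • q⟫ with hκ
  have hκl : Tendsto κ 𝒰 (𝓝 0) := by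
    have h1 := hs0.add ((hRl.inner (𝕜 := ℝ) hq0).const_mul (1 / 4))
    have h2 : (0 : ℝ) + 1 / 4 * ⟪(0 : QQ v₀ (f v₀)), (0 : QQ v₀ (f v₀))⟫ = 0 := by
      rw [inner_zero_left, mul_zero, add_zero]
    rw [h2] at h1
    exact h1
  set P : ℕ → Submodule ℝ (W (QQ v₀ (f v₀))) := fun n =>
    if PH (e n • q) (R n) (κ n) ∈ LW f h then PH (e n • q) (R n) (κ n) else P0 _ with hPdef
  have hPm : ∀ n, P n ∈ LW f h := by
    intro n
    by_cases hn : PH (e n • q) (R n) (κ n) ∈ LW f h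
    · simp only [hPdef, hn, if_true]
    · simp only [hPdef, hn, if_false]
      exact P0_mem_LW hf hv₀
  have hPe : ∀ᶠ n in (𝒰 : Filter ℕ), P n = PH (e n • q) (R n) (κ n) := by
    filter_upwards [hin] with n hn
    have h1 : PH (e n • q) (R n) (κ n) ∈ LW f h := hmem _ _ hn.1 hn.2
    simp only [hPdef, h1, if_true]
  choose v hv hvP using hPm
  -- the points of the sphere converge
  have hvl : Tendsto v 𝒰 (𝓝 v₀) := by
    have h1 : Tendsto (fun n => Theta h (ptH (e n • q) (R n) (κ n) (1, 0))) 𝒰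
        (𝓝 (Theta h (ptH (0 : QQ v₀ (f v₀)) 0 0 (1, 0)))) := by
      have hc : Continuous (Theta h) :=
        (Theta h : W (QQ v₀ (f v₀)) →ₗ[ℝ] V E).continuous_of_finiteDimensional
      exact (hc.tendsto _).comp (tendsto_ptH hq0 hRl hκl tendsto_const_nhds)
    have e0 : Theta h (ptH (0 : QQ v₀ (f v₀)) 0 0 (1, 0)) = (v₀, 1, 0) := by
      rw [Theta_apply]
      simp [ptH]
    rw [e0] at h1
    have hX : Tendsto (fun n => (Theta h (ptH (e n • q) (R n) (κ n) (1, 0))).1) 𝒰 (𝓝 v₀) :=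
      (continuous_fst.tendsto _).comp h1
    have hs : Tendsto (fun n => (Theta h (ptH (e n • q) (R n) (κ n) (1, 0))).2.1) 𝒰 (𝓝 1) :=
      ((continuous_fst.comp continuous_snd).tendsto _).comp h1
    have ht : Tendsto (fun n => (Theta h (ptH (e n • q) (R n) (κ n) (1, 0))).2.2) 𝒰 (𝓝 0) :=
      ((continuous_snd.comp continuous_snd).tendsto _).comp h1
    have htf : Tendsto (fun n => (Theta h (ptH (e n • q) (R n) (κ n) (1, 0))).2.2 • f (v n)) 𝒰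
        (𝓝 0) := by
      rw [tendsto_zero_iff_norm_tendsto_zero]
      have h2 := ht.norm
      rw [norm_zero] at h2
      refine h2.congr fun n => ?_
      rw [norm_smul, hf.norm_eq _ (hv n), mul_one]
    have hfin := (hs.inv₀ one_ne_zero).smul (hX.sub htf)
    rw [inv_one, one_smul, sub_zero] at hfin
    refine hfin.congr' ?_
    filter_upwards [hPe, hs.eventually_ne one_ne_zero] with n hn hn1
    have h3 : ptH (e n • q) (R n) (κ n) (1, 0) ∈ P n := by rw [hn]; exact ptH_mem _ _ _ _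
    rw [hvP n, Submodule.mem_comap] at h3
    have h4 : Theta h (ptH (e n • q) (R n) (κ n) (1, 0)) ∈ phot f (v n) := h3
    rw [mem_phot] at h4
    rw [h4, add_sub_cancel_right, smul_smul, inv_mul_cancel₀ hn1, one_smul]
  have hfl : Tendsto (fun n => f (v n)) 𝒰 (𝓝 (f v₀)) := by
    have h1 : v₀ ∈ Metric.sphere (0 : E) 1 := by simpa using hv₀
    have h2 := hf.continuousOn v₀ h1
    have h3 : Tendsto v 𝒰 (𝓝[Metric.sphere (0 : E) 1] v₀) :=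
      tendsto_nhdsWithin_iff.mpr ⟨hvl, Eventually.of_forall fun n => by simpa using hv n⟩
    exact h2.tendsto.comp h3
  -- the coefficients
  have hwv : ⟪f v₀, v₀⟫ = 0 := by rw [real_inner_comm]; exact hf.inner_eq v₀ hv₀
  have k₁₁ : Tendsto (fun n => (⟪v₀, v n⟫ + 1) / 2) 𝒰 (𝓝 1) := by
    have h1 := (((tendsto_const_nhds (x := v₀)).inner (𝕜 := ℝ) hvl).add_const 1).div_const 2
    rw [real_inner_self_eq_norm_sq, hv₀] at h1
    norm_num at h1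
    exact h1
  have k₂₁ : Tendsto (fun n => ⟪f v₀, v n⟫ / 2) 𝒰 (𝓝 0) := by
    have h1 := ((tendsto_const_nhds (x := f v₀)).inner (𝕜 := ℝ) hvl).div_const 2
    rw [hwv] at h1
    norm_num at h1
    exact h1
  have k₁₂ : Tendsto (fun n => ⟪v₀, f (v n)⟫ / 2) 𝒰 (𝓝 0) := by
    have h1 := ((tendsto_const_nhds (x := v₀)).inner (𝕜 := ℝ) hfl).div_const 2
    rw [hf.inner_eq v₀ hv₀] at h1
    norm_num at h1
    exact h1
  have k₂₂ : Tendsto (fun n => (⟪f v₀, f (v n)⟫ + 1) / 2) 𝒰 (𝓝 1) := by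
    have h1 := (((tendsto_const_nhds (x := f v₀)).inner (𝕜 := ℝ) hfl).add_const 1).div_const 2
    rw [real_inner_self_eq_norm_sq, hf.norm_eq v₀ hv₀] at h1
    norm_num at h1
    exact h1
  -- the scaled parameters converge
  set ξ : ℕ → QQ v₀ (f v₀) := fun n => (e n)⁻¹ • R n with hξ
  have hRe : ∀ n, R n = e n • ξ n := by
    intro n
    rw [hξ]
    simp only
    rw [smul_smul, mul_inv_cancel₀ (he0 n).ne', one_smul]
  have hξl : Tendsto ξ 𝒰 (𝓝 (S q)) := by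
    refine scal_conv S q ξ k₁₁ k₁₂ k₂₁ k₂₂ (B := Real.sqrt (4 * |s'|)) (Real.sqrt_nonneg _) ?_
    intro δ hδ
    filter_upwards [hPe, hor_est hf hv₀ hL hv hvl δ hδ,
      k₁₁.eventually_lt_const (show (1 : ℝ) < 2 by norm_num),
      k₁₁.eventually_const_lt (show (0 : ℝ) < 1 by norm_num)] with n hn hest hn2 hn0
    obtain ⟨r1, r2, r3⟩ := scal_rel (f := f) h (v := v n) (a := e n • q) (b := R n)
      (s := e n ^ 2 * s') (by rw [← hvP n, hn])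
    rw [← hh, ← hS, r1, r2] at hest
    have f1 : ((⟪v₀, v n⟫ + 1) / 2) • e n • q + (⟪f v₀, v n⟫ / 2) • R n =
        e n • (((⟪v₀, v n⟫ + 1) / 2) • q + (⟪f v₀, v n⟫ / 2) • ξ n) := by
      rw [hRe n]; module
    have f2 : (⟪v₀, f (v n)⟫ / 2) • e n • q + ((⟪f v₀, f (v n)⟫ + 1) / 2) • R n -
        S (((⟪v₀, v n⟫ + 1) / 2) • e n • q + (⟪f v₀, v n⟫ / 2) • R n) =
        e n • ((⟪v₀, f (v n)⟫ / 2) • q + ((⟪f v₀, f (v n)⟫ + 1) / 2) • ξ n -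
        S (((⟪v₀, v n⟫ + 1) / 2) • q + (⟪f v₀, v n⟫ / 2) • ξ n)) := by
      rw [f1, map_smul, hRe n]; module
    rw [f2, f1, norm_smul, norm_smul, Real.norm_eq_abs, abs_of_pos (he0 n)] at hest
    -- the size of the vertical component
    have f3 : |⟪f v₀, v n⟫| ≤ e n ^ 2 * (4 * |s'|) := by
      have g1 : |⟪f v₀, v n⟫| * (1 + ‖R n‖ ^ 2 / 4) = 2 * (e n ^ 2 * |s'|) *
          ((⟪v₀, v n⟫ + 1) / 2) := by
        have g2 := congrArg abs r3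
        rw [abs_mul, abs_mul, abs_mul, abs_mul, abs_of_pos hn0,
          abs_of_nonneg (show (0 : ℝ) ≤ 1 + ‖R n‖ ^ 2 / 4 by positivity),
          abs_of_nonneg (sq_nonneg (e n)), abs_two] at g2
        exact g2
      have g3 : |⟪f v₀, v n⟫| ≤ |⟪f v₀, v n⟫| * (1 + ‖R n‖ ^ 2 / 4) := by
        nlinarith [abs_nonneg ⟪f v₀, v n⟫, sq_nonneg ‖R n‖,
          mul_nonneg (abs_nonneg ⟪f v₀, v n⟫) (sq_nonneg ‖R n‖)]
      have g4 : 0 ≤ e n ^ 2 * |s'| := by positivity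
      nlinarith
    have f4 : Real.sqrt |⟪f v₀, v n⟫| ≤ e n * Real.sqrt (4 * |s'|) := by
      calc Real.sqrt |⟪f v₀, v n⟫| ≤ Real.sqrt (e n ^ 2 * (4 * |s'|)) := Real.sqrt_le_sqrt f3
        _ = e n * Real.sqrt (4 * |s'|) := by
          rw [Real.sqrt_mul (sq_nonneg _), Real.sqrt_sq (he0 n).le]
    refine le_of_mul_le_mul_left ?_ (he0 n)
    refine hest.trans ?_
    calc δ * (e n * ‖((⟪v₀, v n⟫ + 1) / 2) • q + (⟪f v₀, v n⟫ / 2) • ξ n‖ +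
          Real.sqrt |⟪f v₀, v n⟫|)
        ≤ δ * (e n * ‖((⟪v₀, v n⟫ + 1) / 2) • q + (⟪f v₀, v n⟫ / 2) • ξ n‖ +
          e n * Real.sqrt (4 * |s'|)) := by gcongr
      _ = _ := by ring
  -- conclusion
  refine ⟨P, fun n => ⟨v n, hv n, hvP n⟩, ?_⟩
  have hcl : Tendsto (fun n => s' + (1 / 4) * ⟪ξ n, q⟫) 𝒰 (𝓝 c) := by
    have h1 := ((hξl.inner (𝕜 := ℝ) (tendsto_const_nhds (x := q))).const_mul (1 / 4)).const_add s'
    have h2 : s' + 1 / 4 * ⟪S q, q⟫ = c := by rw [hs']; ring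
    rwa [h2] at h1
  refine LimW.of_params (a' := fun _ => q) (b' := ξ) (c' := fun n => s' + (1 / 4) * ⟪ξ n, q⟫)
    tendsto_const_nhds hξl hcl ?_
  filter_upwards [hPe] with n hn
  have h1 := map_bL_PH (e n) 0 (e n) (he0 n).ne' (he0 n).ne' q (ξ n) (s' + (1 / 4) * ⟪ξ n, q⟫)
  have h2 : (0 : ℝ) • q + e n • ξ n = R n := by rw [zero_smul, zero_add, ← hRe n]
  have h3 : e n * e n * (s' + (1 / 4) * ⟪ξ n, q⟫) = κ n := by
    have h4 : κ n = e n ^ 2 * s' + (1 / 4) * ⟪R n, e n • q⟫ := rfl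
    have h5 : ⟪R n, e n • q⟫ = e n * (e n * ⟪ξ n, q⟫) := by
      rw [hRe n, real_inner_smul_left (ξ n) (e n • q) (e n), real_inner_smul_right]
    rw [h4, h5]
    ring
  rw [h2, h3, ← hn] at h1
  exact h1

end Pool.Agent.H2.AdS
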