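import Pool.Agent.H2.AdS.Gap.End
import Pool.Agent.H2.AdS.Gap.Scal

/-!
# Rigidity of photon foliations with a non-scalar differential
-/

set_option autoImplicit false

open scoped RealInnerProductSpace
open Filter Topology

namespace Pool.Agent.H2.AdS

/-- a foliation that contains all `PH q (S q) c` is `LamC S` -/
theorem eq_LamC_of {Q : Type*} [NormedAddCommGroup Q] [InnerProductSpace ℝ Q]
    [FiniteDimensional ℝ Q] {Λ : Set (Submodule ℝ (W Q))} (hΛ : FolW Λ) {S : Q →ₗ[ℝ] Q}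
    (h : ∀ q c, PH q (S q) c ∈ Λ) :
    (∀ q : Q, q ≠ 0 → ∀ c : ℝ, S q ≠ c • q) ∧ Λ = LamC S := by
  have hPp : Pp Q ∈ Λ := Pp_mem_of hΛ fun η => by
    have := h 0 η
    rwa [map_zero] at this
  have hS : ∀ q : Q, q ≠ 0 → ∀ c : ℝ, S q ≠ c • q := by
    intro q hq c hc
    have h1 : PH q (S q) 0 = PH 0 (S 0) 0 := by
      refine hΛ.uni _ (h q 0) _ (h 0 0) ((-c, 1), 0, 0) ?_ ?_ ?_
      · intro h0
        have := congrArg (fun x : W Q => x.1.2) h0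
        simp at this
      · rw [mem_PH, hc]
        refine ⟨by simp, by simp, by simp⟩
      · rw [mem_PH, map_zero]
        refine ⟨by simp, by simp, by simp⟩
    exact hq (PH_inj h1).1
  refine ⟨hS, Set.Subset.antisymm ?_ ?_⟩
  · intro P hP
    obtain ⟨x, hx, hx2⟩ := (hΛ.ph P hP).graph (1, 0)
    have hx0 : x ≠ 0 := by
      rintro rfl
      simpa using congrArg Prod.fst hx2
    obtain ⟨P', hP', hxP'⟩ := LamC_cov hS x ((hΛ.ph P hP).iso x hx x hx)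
    have hP'Λ : P' ∈ Λ := by
      rcases hP' with rfl | ⟨q, c, rfl⟩
      · exact hPp
      · rw [Ph_eq_PH]; exact h q c
    rw [hΛ.uni P hP P' hP'Λ x hx0 hx hxP']
    exact hP'
  · rintro P (rfl | ⟨q, c, rfl⟩)
    · exact hPp
    · rw [Ph_eq_PH]; exact h q c

variable {E : Type*} [NormedAddCommGroup E] [InnerProductSpace ℝ E] [FiniteDimensional ℝ E]

/-- **Rigidity.** A continuous photon foliation invariant under a proper cocompact group and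
weakly differentiable at one photon with a non-scalar differential is complex. -/
theorem scal_rigidity (hE : 3 ≤ Module.finrank ℝ E)
    (Γ : Subgroup (V E ≃ₗ[ℝ] V E)) (hΓ : ∀ γ ∈ Γ, ∀ x y, form (γ x) (γ y) = form x y)
    (hp : ∀ K : Set (V E), IsCompact K → K ⊆ {x | form x x = -1} →
      {γ : V E ≃ₗ[ℝ] V E | γ ∈ Γ ∧ ∃ x ∈ K, γ x ∈ K}.Finite)
    (hc : ∃ K : Set (V E), IsCompact K ∧ K ⊆ {x | form x x = -1} ∧
      ∀ x, form x x = -1 → ∃ γ ∈ Γ, γ x ∈ K)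
    {f : E → E} (hf : PhotonFoliation f)
    (hinv : ∀ γ ∈ Γ, ∀ v : E, ‖v‖ = 1 → ∃ w : E, ‖w‖ = 1 ∧
      (phot f v).map (γ : V E →ₗ[ℝ] V E) = phot f w)
    {v₀ : E} (hv₀ : ‖v₀‖ = 1) {L : E →ₗ[ℝ] E} (hL : WeakDiffAt f v₀ L)
    (hne : ¬ ∃ c : ℝ, ∀ h : E, ⟪v₀, h⟫ = 0 → ⟪f v₀, h⟫ = 0 → L h = c • h) :
    ∃ J : V E →ₗ[ℝ] V E, (∀ x, J (J x) = -x) ∧ (∀ x y, form (J x) (J y) = form x y) ∧
      (∀ v : E, ‖v‖ = 1 → ∀ x ∈ phot f v, J x ∈ phot f v) ∧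
      ∀ γ ∈ Γ, (∀ x, γ (J x) = J (γ x)) ∨ (∀ x, γ (J x) = -J (γ x)) := by
  set h := opair hf hv₀ with hh
  set S := SL h L with hSdef
  have hSL : ∀ q : QQ v₀ (f v₀), (S q : E) = L (q : E) := by
    intro q
    have h3 : L (q : E) ∈ QQ v₀ (f v₀) := L_mem_QQ hf hv₀ hL q q.2
    have h4 : S q = ⟨L (q : E), h3⟩ := by
      rw [hSdef, SL_apply]
      exact prQ_of_mem h ⟨L (q : E), h3⟩
    rw [h4]
  have hQ := exists_QQ_ne_zero hE v₀ (f v₀)
  obtain ⟨𝒰, h𝒰⟩ := Ultrafilter.exists_le (atTop : Filter ℕ)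
  have hΛ := folW_LW hf h
  have hC := cocW_LW h Γ hΓ hc hinv
  have hlim := fun q c => scal_lim hf hv₀ hL 𝒰 h𝒰 q c
  rcases dichotomy hΛ hC _ (fun n => bW_bL _ _ _ _ _) 𝒰 with ⟨g, hg, hg1, -⟩ | ⟨P'', hiso, hmeet⟩
  · have hΛ' := hΛ.mapS hg
    obtain ⟨hS, hL'⟩ := eq_LamC_of hΛ' (S := S) fun q c => by
      obtain ⟨P, hP, hPl⟩ := hlim q c
      exact hg1 P hP _ (phW_PH _ _ _) hPl
    obtain ⟨H, hH1, hH2⟩ := end_H h (S := S) (G := g) hg hL'
    exact end_proper Γ hΓ hp hc hinv hQ hS H hH1 hH2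
  · exfalso
    have h1 : ∀ q c, ∃ x ∈ PH q (S q) c, x ≠ 0 ∧ x ∈ P'' := fun q c => by
      obtain ⟨P, hP, hPl⟩ := hlim q c
      exact hmeet P hP _ (phW_PH _ _ _) hPl
    obtain ⟨y, hy0, hy⟩ := meet_PH hiso
      (by have := h1 0 0; rwa [map_zero] at this) (by have := h1 0 1; rwa [map_zero] at this)
    have h2 : ∀ q, y.1 • q + y.2 • S q = 0 := fun q => hy _ _ 0 (h1 q 0)
    obtain ⟨q₁, hq₁⟩ := hQ
    have hy2 : y.2 ≠ 0 := by
      intro h3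
      have h4 := h2 q₁
      rw [h3, zero_smul, add_zero] at h4
      rcases smul_eq_zero.mp h4 with h5 | h5
      · exact hy0 (Prod.ext h5 h3)
      · exact hq₁ h5
    apply hne
    refine ⟨-(y.1 / y.2), fun z hz1 hz2 => ?_⟩
    have hz : z ∈ QQ v₀ (f v₀) := mem_QQ.mpr ⟨hz1, hz2⟩
    have h3 := congrArg (fun w : QQ v₀ (f v₀) => (w : E)) (h2 ⟨z, hz⟩)
    simp only [Submodule.coe_add, Submodule.coe_smul, hSL, Submodule.coe_zero] at h3
    have h4 : y.2 • L z = -(y.1 • z) := by rw [eq_neg_iff_add_eq_zero, add_comm]; exact h3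
    calc L z = y.2⁻¹ • (y.2 • L z) := by rw [smul_smul, inv_mul_cancel₀ hy2, one_smul]
      _ = -(y.1 / y.2) • z := by
        rw [h4, smul_neg, smul_smul, neg_smul]
        congr 2
        field_simp

end Pool.Agent.H2.AdS
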