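import Pool.Agent.H2.AdS.Conv

/-!
# The leaves of a photon foliation by invariant photons of a complex structure are uniformly Lipschitz
-/

set_option autoImplicit false

open scoped RealInnerProductSpace
open Filter Topology

namespace Pool.Agent.H2.AdS

/-- the determinant of the second components of `x` and `J x` -/
private def ljD {E : Type*} [NormedAddCommGroup E] [InnerProductSpace ℝ E]
    (J : V E →ₗ[ℝ] V E) (x : V E) : ℝ :=
  x.2.1 * (J x).2.2 - x.2.2 * (J x).2.1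

private theorem ljD_ne {E : Type*} [NormedAddCommGroup E] [InnerProductSpace ℝ E]
    {J : V E →ₗ[ℝ] V E} (hJ : ∀ x, J (J x) = -x) (hJb : ∀ x y, form (J x) (J y) = form x y)
    {u : V E} (hu0 : u ≠ 0) (hu : form u u = 0) : ljD J u ≠ 0 := by
  intro hD
  unfold ljD at hD
  have h1 : (J u).2.2 • u + (-u.2.2) • J u = 0 := by
    apply eq_zero_of_snd (conv_form_span hJ hJb hu _ _)
    refine Prod.ext ?_ ?_
    · simp only [Prod.snd_add, Prod.fst_add, Prod.smul_snd, Prod.smul_fst, smul_eq_mul,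
        Prod.fst_zero]
      linarith
    · simp only [Prod.snd_add, Prod.smul_snd, smul_eq_mul, Prod.snd_zero]
      ring
  have h2 : (J u).2.1 • u + (-u.2.1) • J u = 0 := by
    apply eq_zero_of_snd (conv_form_span hJ hJb hu _ _)
    refine Prod.ext ?_ ?_
    · simp only [Prod.snd_add, Prod.fst_add, Prod.smul_snd, Prod.smul_fst, smul_eq_mul,
        Prod.fst_zero]
      ring
    · simp only [Prod.snd_add, Prod.smul_snd, smul_eq_mul, Prod.snd_zero]
      linarith
  have h3 := (conv_indep hJ hu0 h1).2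
  have h4 := (conv_indep hJ hu0 h2).2
  apply hu0
  apply eq_zero_of_snd hu
  exact Prod.ext (by simpa using h4) (by simpa using h3)

private theorem lj_quot {F : Type*} [NormedAddCommGroup F] [NormedSpace ℝ F] {a b D D' δ : ℝ}
    {p q : F} (hδ : 0 < δ) (hD : δ ≤ |D|) (hD' : δ ≤ |D'|) :
    ‖(a / D) • p - (b / D') • q‖ ≤
      (|a| * |D'| * ‖p - q‖ + |a| * |D' - D| * ‖q‖ + |a - b| * |D| * ‖q‖) / δ ^ 2 := by
  have hD0 : D ≠ 0 := by
    intro h
    rw [h, abs_zero] at hD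
    linarith
  have hD0' : D' ≠ 0 := by
    intro h
    rw [h, abs_zero] at hD'
    linarith
  have e : (a / D) • p - (b / D') • q =
      (D * D')⁻¹ • ((a * D') • (p - q) + (a * (D' - D)) • q + ((a - b) * D) • q) := by
    have e1 : a / D = (D * D')⁻¹ * (a * D') := by field_simp
    have e2 : b / D' = (D * D')⁻¹ * (b * D) := by field_simp
    rw [e1, e2, mul_smul ((D * D')⁻¹) (a * D') p, mul_smul ((D * D')⁻¹) (b * D) q, ← smul_sub]
    congr 1
    module
  rw [e, norm_smul, norm_inv, norm_mul, Real.norm_eq_abs, Real.norm_eq_abs, div_eq_inv_mul]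
  have h1 : (|D| * |D'|)⁻¹ ≤ (δ ^ 2)⁻¹ := by
    apply inv_anti₀ (by positivity)
    nlinarith
  have h2 : ‖(a * D') • (p - q) + (a * (D' - D)) • q + ((a - b) * D) • q‖ ≤
      |a| * |D'| * ‖p - q‖ + |a| * |D' - D| * ‖q‖ + |a - b| * |D| * ‖q‖ := by
    refine (norm_add_le _ _).trans (add_le_add ((norm_add_le _ _).trans (add_le_add ?_ ?_)) ?_)
    · rw [norm_smul, norm_mul, Real.norm_eq_abs, Real.norm_eq_abs]
    · rw [norm_smul, norm_mul, Real.norm_eq_abs, Real.norm_eq_abs]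
    · rw [norm_smul, norm_mul, Real.norm_eq_abs, Real.norm_eq_abs]
  exact mul_le_mul h1 h2 (norm_nonneg _) (by positivity)

/-- the determinant is bounded below on the normalized isotropic vectors -/
private theorem lj_low {E : Type*} [NormedAddCommGroup E] [InnerProductSpace ℝ E]
    [FiniteDimensional ℝ E] {J : V E →ₗ[ℝ] V E} (hJ : ∀ x, J (J x) = -x)
    (hJb : ∀ x y, form (J x) (J y) = form x y) : ∃ δ : ℝ, 0 < δ ∧
      ∀ x : V E, ‖x.1‖ = 1 → x.2.1 ^ 2 + x.2.2 ^ 2 = 1 → δ ≤ |ljD J x| := by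
  have hJc : Continuous J := J.continuous_of_finiteDimensional
  have hc : Continuous (fun x : V E => |ljD J x|) := by
    unfold ljD
    fun_prop
  set K : Set (V E) := {x | ‖x.1‖ = 1 ∧ x.2.1 ^ 2 + x.2.2 ^ 2 = 1} with hK
  have hcl : IsClosed K := by
    refine IsClosed.inter ?_ ?_
    · exact isClosed_eq (by fun_prop) continuous_const
    · exact isClosed_eq (by fun_prop) continuous_const
  have hb : K ⊆ Metric.closedBall 0 1 := by
    rintro x ⟨h1, h2⟩
    rw [Metric.mem_closedBall, dist_zero_right, Prod.norm_def, Prod.norm_def]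
    refine max_le h1.le (max_le ?_ ?_)
    · rw [Real.norm_eq_abs]
      exact abs_le_one_iff_mul_self_le_one.mpr (by nlinarith [sq_nonneg x.2.2])
    · rw [Real.norm_eq_abs]
      exact abs_le_one_iff_mul_self_le_one.mpr (by nlinarith [sq_nonneg x.2.1])
  have hcomp : IsCompact K := (isCompact_closedBall 0 1).of_isClosed_subset hcl hb
  rcases K.eq_empty_or_nonempty with hE | hE
  · refine ⟨1, one_pos, fun x h1 h2 => ?_⟩
    have : x ∈ K := ⟨h1, h2⟩
    rw [hE] at this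
    exact absurd this (Set.notMem_empty x)
  · obtain ⟨x0, hx0, hmin⟩ := hcomp.exists_isMinOn hE hc.continuousOn
    refine ⟨|ljD J x0|, ?_, fun x h1 h2 => hmin (show x ∈ K from ⟨h1, h2⟩)⟩
    rw [abs_pos]
    refine ljD_ne hJ hJb ?_ ?_
    · intro h
      have h3 := hx0.1
      rw [h] at h3
      simp at h3
    · unfold form
      rw [real_inner_self_eq_norm_sq, hx0.1]
      have := hx0.2
      linarith

theorem leaf_lipschitz_of_J {E : Type*} [NormedAddCommGroup E] [InnerProductSpace ℝ E]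
    [FiniteDimensional ℝ E]
    (J : V E →ₗ[ℝ] V E) (hJ : ∀ x, J (J x) = -x) (hJb : ∀ x y, form (J x) (J y) = form x y)
    {f : E → E} (hf : PhotonFoliation f)
    (hJf : ∀ v : E, ‖v‖ = 1 → ∀ x ∈ phot f v, J x ∈ phot f v) :
    ∃ C : ℝ, ∀ v w : E, ‖v‖ = 1 → ‖w‖ = 1 → ∀ s t : ℝ, s ^ 2 + t ^ 2 = 1 →
      ‖v - w‖ + ‖f v - f w‖ ≤ C * ‖s • (v - w) + t • (f v - f w)‖ := by
  obtain ⟨δ, hδ, hlow⟩ := lj_low hJ hJb
  obtain ⟨M, hM0, hM⟩ : ∃ M : ℝ, 0 ≤ M ∧ ∀ x, ‖J x‖ ≤ M * ‖x‖ := by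
    obtain ⟨M, hM0, hM⟩ := (LinearMap.toContinuousLinearMap J).bound
    exact ⟨M, hM0.le, hM⟩
  refine ⟨20 * M ^ 2 / δ ^ 2, fun v w hv hw s t hst => ?_⟩
  -- the two vectors
  have hX : ∀ v : E, ‖v‖ = 1 → ∃ x : V E, x.1 = s • v + t • f v ∧ x.2 = (s, t) ∧ ‖x.1‖ = 1 ∧
      ‖x‖ ≤ 1 ∧ δ ≤ |ljD J x| ∧ v = ((J x).2.2 / ljD J x) • x.1 - (t / ljD J x) • (J x).1 ∧
      f v = (s / ljD J x) • (J x).1 - ((J x).2.1 / ljD J x) • x.1 := by
    intro v hv
    refine ⟨(s • v + t • f v, s, t), rfl, rfl, ?_⟩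
    set x : V E := (s • v + t • f v, s, t) with hx
    have hn : ‖x.1‖ = 1 := by
      have h1 : ‖s • v + t • f v‖ ^ 2 = 1 := by
        rw [← real_inner_self_eq_norm_sq]
        simp only [inner_add_left, inner_add_right, inner_smul_left, inner_smul_right,
          real_inner_self_eq_norm_sq, hv, hf.inner_eq v hv, real_inner_comm v (f v),
          hf.norm_eq v hv, RCLike.conj_to_real]
        linarith
      have h0 := norm_nonneg (s • v + t • f v)
      show ‖s • v + t • f v‖ = 1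
      nlinarith
    have hn2 : ‖x‖ ≤ 1 := by
      rw [Prod.norm_def, Prod.norm_def]
      refine max_le hn.le (max_le ?_ ?_)
      · show ‖s‖ ≤ 1
        rw [Real.norm_eq_abs]
        exact abs_le_one_iff_mul_self_le_one.mpr (by nlinarith [sq_nonneg t])
      · show ‖t‖ ≤ 1
        rw [Real.norm_eq_abs]
        exact abs_le_one_iff_mul_self_le_one.mpr (by nlinarith [sq_nonneg s])
    have hd : δ ≤ |ljD J x| := hlow x hn hst
    have hd0 : ljD J x ≠ 0 := by
      intro h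
      rw [h, abs_zero] at hd
      linarith
    have hxm : x ∈ phot f v := by
      rw [mem_phot]
    have hJx : J x ∈ phot f v := hJf v hv x hxm
    have hDx : s * (J x).2.2 - t * (J x).2.1 = ljD J x := rfl
    refine ⟨hn, hn2, hd, ?_, ?_⟩
    · have h1 : ((J x).2.2 / ljD J x) • x - (t / ljD J x) • J x ∈ phot f v :=
        Submodule.sub_mem _ (Submodule.smul_mem _ _ hxm) (Submodule.smul_mem _ _ hJx)
      rw [mem_phot] at h1
      have e1 : (((J x).2.2 / ljD J x) • x - (t / ljD J x) • J x).2.1 = 1 := by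
        show (J x).2.2 / ljD J x * s - t / ljD J x * (J x).2.1 = 1
        rw [div_mul_eq_mul_div, div_mul_eq_mul_div, ← sub_div, mul_comm (J x).2.2 s, hDx,
          div_self hd0]
      have e2 : (((J x).2.2 / ljD J x) • x - (t / ljD J x) • J x).2.2 = 0 := by
        show (J x).2.2 / ljD J x * t - t / ljD J x * (J x).2.2 = 0
        ring
      rw [e1, e2, one_smul, zero_smul, add_zero] at h1
      exact h1.symm
    · have h1 : (s / ljD J x) • J x - ((J x).2.1 / ljD J x) • x ∈ phot f v :=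
        Submodule.sub_mem _ (Submodule.smul_mem _ _ hJx) (Submodule.smul_mem _ _ hxm)
      rw [mem_phot] at h1
      have e1 : ((s / ljD J x) • J x - ((J x).2.1 / ljD J x) • x).2.1 = 0 := by
        show s / ljD J x * (J x).2.1 - (J x).2.1 / ljD J x * s = 0
        ring
      have e2 : ((s / ljD J x) • J x - ((J x).2.1 / ljD J x) • x).2.2 = 1 := by
        show s / ljD J x * (J x).2.2 - (J x).2.1 / ljD J x * t = 1
        rw [div_mul_eq_mul_div, div_mul_eq_mul_div, ← sub_div, mul_comm (J x).2.1 t, hDx,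
          div_self hd0]
      rw [e1, e2, one_smul, zero_smul, zero_add] at h1
      exact h1.symm
  obtain ⟨x, hx1, hx2, hxn, hxN, hxD, hxv, hxf⟩ := hX v hv
  obtain ⟨y, hy1, hy2, hyn, hyN, hyD, hyv, hyf⟩ := hX w hw
  set z : E := s • (v - w) + t • (f v - f w) with hz
  have hzxy : x.1 - y.1 = z := by
    rw [hx1, hy1, hz]
    module
  have hN : ‖x - y‖ = ‖z‖ := by
    rw [Prod.norm_def, Prod.fst_sub, Prod.snd_sub, hzxy, hx2, hy2, sub_self, norm_zero]
    exact max_eq_left (norm_nonneg z)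
  have hJd : ‖J x - J y‖ ≤ M * ‖z‖ := by
    rw [← map_sub, ← hN]
    exact hM _
  have hJx : ‖J x‖ ≤ M := (hM x).trans (by nlinarith)
  have hJy : ‖J y‖ ≤ M := (hM y).trans (by nlinarith)
  have c1 : ∀ u : V E, ‖u.1‖ ≤ ‖u‖ := fun u => norm_fst_le u
  have c21 : ∀ u : V E, |u.2.1| ≤ ‖u‖ := fun u => (norm_fst_le u.2).trans (norm_snd_le u)
  have c22 : ∀ u : V E, |u.2.2| ≤ ‖u‖ := fun u => (norm_snd_le u.2).trans (norm_snd_le u)
  have hs : |s| ≤ 1 := abs_le_one_iff_mul_self_le_one.mpr (by nlinarith [sq_nonneg t])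
  have ht : |t| ≤ 1 := abs_le_one_iff_mul_self_le_one.mpr (by nlinarith [sq_nonneg s])
  have hz0 := norm_nonneg z
  -- the determinants
  have hDx : ljD J x = s * (J x).2.2 - t * (J x).2.1 := by
    unfold ljD
    rw [hx2]
  have hDy : ljD J y = s * (J y).2.2 - t * (J y).2.1 := by
    unfold ljD
    rw [hy2]
  have bD : ∀ a b c : ℝ, |a| ≤ c → |b| ≤ c → |s * a - t * b| ≤ 2 * c := by
    intro a b c ha hb
    have h1 : |s * a - t * b| ≤ |s * a| + |t * b| := abs_sub _ _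
    rw [abs_mul, abs_mul] at h1
    have h2 : |s| * |a| ≤ 1 * |a| := mul_le_mul_of_nonneg_right hs (abs_nonneg a)
    have h3 : |t| * |b| ≤ 1 * |b| := mul_le_mul_of_nonneg_right ht (abs_nonneg b)
    linarith
  have hDx2 : |ljD J x| ≤ 2 * M := by
    rw [hDx]
    exact bD _ _ _ ((c22 _).trans hJx) ((c21 _).trans hJx)
  have hDy2 : |ljD J y| ≤ 2 * M := by
    rw [hDy]
    exact bD _ _ _ ((c22 _).trans hJy) ((c21 _).trans hJy)
  have d21 : |(J x).2.1 - (J y).2.1| ≤ M * ‖z‖ := (c21 (J x - J y)).trans hJd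
  have d22 : |(J x).2.2 - (J y).2.2| ≤ M * ‖z‖ := (c22 (J x - J y)).trans hJd
  have d1 : ‖(J x).1 - (J y).1‖ ≤ M * ‖z‖ := (c1 (J x - J y)).trans hJd
  have hDD : |ljD J y - ljD J x| ≤ 2 * (M * ‖z‖) := by
    have e : ljD J y - ljD J x = -(s * ((J x).2.2 - (J y).2.2) - t * ((J x).2.1 - (J y).2.1)) := by
      rw [hDx, hDy]
      ring
    rw [e, abs_neg]
    exact bD _ _ _ d22 d21
  -- the two estimates
  have E1 : ∀ a b : ℝ, |a| ≤ M → |a - b| ≤ M * ‖z‖ →
      ‖(a / ljD J x) • x.1 - (b / ljD J y) • y.1‖ ≤ 6 * M ^ 2 * ‖z‖ / δ ^ 2 := by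
    intro a b ha hab
    refine (lj_quot hδ hxD hyD).trans ?_
    rw [hzxy, hyn]
    gcongr
    have h1 : |a| * |ljD J y| * ‖z‖ ≤ M * (2 * M) * ‖z‖ := by gcongr
    have h2 : |a| * |ljD J y - ljD J x| * 1 ≤ M * (2 * (M * ‖z‖)) * 1 := by gcongr
    have h3 : |a - b| * |ljD J x| * 1 ≤ M * ‖z‖ * (2 * M) * 1 := by gcongr
    nlinarith
  have E2 : ∀ a : ℝ, |a| ≤ 1 →
      ‖(a / ljD J x) • (J x).1 - (a / ljD J y) • (J y).1‖ ≤ 4 * M ^ 2 * ‖z‖ / δ ^ 2 := by
    intro a ha
    refine (lj_quot hδ hxD hyD).trans ?_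
    rw [sub_self, abs_zero, zero_mul, zero_mul, add_zero]
    have hJy1 : ‖(J y).1‖ ≤ M := (c1 _).trans hJy
    gcongr
    have h1 : |a| * |ljD J y| * ‖(J x).1 - (J y).1‖ ≤ 1 * (2 * M) * (M * ‖z‖) := by gcongr
    have h2 : |a| * |ljD J y - ljD J x| * ‖(J y).1‖ ≤ 1 * (2 * (M * ‖z‖)) * M := by gcongr
    nlinarith
  have F1 : ‖v - w‖ ≤ 10 * M ^ 2 * ‖z‖ / δ ^ 2 := by
    have e : v - w = (((J x).2.2 / ljD J x) • x.1 - ((J y).2.2 / ljD J y) • y.1) -
        ((t / ljD J x) • (J x).1 - (t / ljD J y) • (J y).1) := by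
      conv_lhs => rw [hxv, hyv]
      abel
    rw [e]
    refine (norm_sub_le _ _).trans ((add_le_add (E1 _ _ ((c22 _).trans hJx) d22) (E2 t ht)).trans
      (le_of_eq ?_))
    ring
  have F2 : ‖f v - f w‖ ≤ 10 * M ^ 2 * ‖z‖ / δ ^ 2 := by
    have e : f v - f w = ((s / ljD J x) • (J x).1 - (s / ljD J y) • (J y).1) -
        (((J x).2.1 / ljD J x) • x.1 - ((J y).2.1 / ljD J y) • y.1) := by
      conv_lhs => rw [hxf, hyf]
      abel
    rw [e]
    refine (norm_sub_le _ _).trans ((add_le_add (E2 s hs) (E1 _ _ ((c21 _).trans hJx) d21)).trans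
      (le_of_eq ?_))
    ring
  have e : 20 * M ^ 2 / δ ^ 2 * ‖z‖ = 10 * M ^ 2 * ‖z‖ / δ ^ 2 + 10 * M ^ 2 * ‖z‖ / δ ^ 2 := by
    ring
  rw [e]
  exact add_le_add F1 F2

end Pool.Agent.H2.AdS
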