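import Pool.Agent.H2.AdS.Gap.Chart

/-!
# Normalisation of a photon foliation near `P0` (row GAP-8, helper7 for helper2)
-/

set_option autoImplicit false

open scoped RealInnerProductSpace
open Filter Topology

namespace Pool.Agent.H2.AdS

variable {Q : Type*} [NormedAddCommGroup Q] [InnerProductSpace ℝ Q]

/-- one stage of the normalisation -/
theorem norm_stage [FiniteDimensional ℝ Q] {Λ : Set (Submodule ℝ (W Q))} (hΛ : FolW Λ)
    (h0 : P0 Q ∈ Λ) {q₀ : Q} (hq₀ : ‖q₀‖ = 1) (δ : ℝ) (hδ : 0 < δ) :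
    ∃ (l b m : ℝ) (R : Q → Q) (q' : Q), 0 < l ∧ l < δ ∧ |b| < δ ∧ 0 < m ∧ m < δ ∧
      (∀ q : Q, ‖q‖ ≤ 1 → PH (l • q) (R q) (l / 4 * ⟪R q - b • q, q⟫) ∈ Λ) ∧
      (∀ q : Q, ‖q‖ ≤ 1 → ‖R q - b • q‖ ≤ m) ∧ ‖q'‖ ≤ 1 ∧ m / 2 ≤ ‖R q' - b • q'‖ ∧
      ⟪R q₀ - b • q₀, q₀⟫ = 0 := by
  obtain ⟨ρ, r, hρ, hr, hcont, hr0⟩ := chart hΛ h0
  -- a bound for the chart near the origin
  set η : ℝ := min (δ / 4) (1 / 2) with hη
  have hη0 : 0 < η := lt_min (by linarith) (by norm_num)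
  have hηδ : η ≤ δ / 4 := min_le_left _ _
  have hη1 : η ≤ 1 / 2 := min_le_right _ _
  have hmem0 : ((0 : Q), (0 : ℝ)) ∈ {p : Q × ℝ | ‖p.1‖ < ρ ∧ |p.2| < ρ} := by
    simp [hρ]
  obtain ⟨d, hd, hd2⟩ := Metric.continuousOn_iff.mp hcont _ hmem0 η hη0
  set l : ℝ := min (min δ 1) (min ρ d) / 2 with hl
  have hl0 : 0 < l := by
    have : 0 < min (min δ 1) (min ρ d) := lt_min (lt_min hδ one_pos) (lt_min hρ hd)
    linarith
  have hl2 : l * 2 = min (min δ 1) (min ρ d) := by rw [hl]; ring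
  have hlδ : l < δ := by
    have : min (min δ 1) (min ρ d) ≤ δ := (min_le_left _ _).trans (min_le_left _ _)
    linarith
  have hl1 : l < 1 := by
    have : min (min δ 1) (min ρ d) ≤ 1 := (min_le_left _ _).trans (min_le_right _ _)
    linarith
  have hlρ : l < ρ := by
    have : min (min δ 1) (min ρ d) ≤ ρ := (min_le_right _ _).trans (min_le_left _ _)
    linarith
  have hld : l < d := by
    have : min (min δ 1) (min ρ d) ≤ d := (min_le_right _ _).trans (min_le_right _ _)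
    linarith
  have hdom : ∀ (x : Q) (s : ℝ), ‖x‖ ≤ l → |s| ≤ l / 4 → ‖x‖ < ρ ∧ |s| < ρ := by
    intro x s hx hs
    constructor <;> linarith
  have hsmall : ∀ (x : Q) (s : ℝ), ‖x‖ ≤ l → |s| ≤ l / 4 → ‖r x s‖ < η := by
    intro x s hx hs
    have h1 := hd2 (x, s) (hdom x s hx hs) (by
      rw [Prod.dist_eq]
      refine max_lt ?_ ?_
      · simp only [dist_zero_right]; linarith
      · simp only [dist_zero_right, Real.norm_eq_abs]; linarith)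
    simpa [hr0] using h1
  -- the intermediate value argument
  have hlq₀ : ‖l • q₀‖ ≤ l := by rw [norm_smul, hq₀, mul_one, Real.norm_eq_abs, abs_of_pos hl0]
  obtain ⟨s, hs, hgs⟩ : ∃ s : ℝ, |s| ≤ l / 4 ∧ ⟪r (l • q₀) s, q₀⟫ + 4 * s / l = 0 := by
    have hg : ContinuousOn (fun s : ℝ => ⟪r (l • q₀) s, q₀⟫ + 4 * s / l)
        (Set.Icc (-(l / 4)) (l / 4)) := by
      have h1 : ContinuousOn (fun s : ℝ => r (l • q₀) s) (Set.Icc (-(l / 4)) (l / 4)) := by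
        have h2 : ContinuousOn (fun s : ℝ => ((l • q₀, s) : Q × ℝ))
            (Set.Icc (-(l / 4)) (l / 4)) := by fun_prop
        exact hcont.comp h2 fun s hs => hdom _ _ hlq₀ (abs_le.mpr hs)
      refine (h1.inner continuousOn_const).add ?_
      fun_prop
    have h1 := intermediate_value_Icc (by linarith : -(l / 4) ≤ l / 4) hg
    have habs : ∀ s : ℝ, |s| ≤ l / 4 → |⟪r (l • q₀) s, q₀⟫| ≤ 1 / 2 := by
      intro s hs
      have h2 := abs_real_inner_le_norm (r (l • q₀) s) q₀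
      rw [hq₀, mul_one] at h2
      exact h2.trans ((hsmall _ _ hlq₀ hs).le.trans hη1)
    have h2 : (0 : ℝ) ∈ Set.Icc (⟪r (l • q₀) (-(l / 4)), q₀⟫ + 4 * (-(l / 4)) / l)
        (⟪r (l • q₀) (l / 4), q₀⟫ + 4 * (l / 4) / l) := by
      have e1 : 4 * (-(l / 4)) / l = -1 := by field_simp
      have e2 : 4 * (l / 4) / l = 1 := by field_simp
      have h3 := abs_le.mp (habs (-(l / 4)) (by rw [abs_neg, abs_of_pos (by linarith)]))
      have h4 := abs_le.mp (habs (l / 4) (by rw [abs_of_pos (by linarith)]))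
      rw [e1, e2]
      constructor <;> linarith [h3.2, h4.1]
    obtain ⟨s, hs, hs2⟩ := h1 h2
    exact ⟨s, abs_le.mpr hs, hs2⟩
  set b : ℝ := -(4 * s / l) with hb
  have hbr : b = ⟪r (l • q₀) s, q₀⟫ := by rw [hb]; linarith
  have hbη : |b| < η := by
    rw [hbr]
    have h2 := abs_real_inner_le_norm (r (l • q₀) s) q₀
    rw [hq₀, mul_one] at h2
    exact h2.trans_lt (hsmall _ _ hlq₀ hs)
  have hsb : s = -(l * b / 4) := by rw [hb]; field_simp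
  -- the leaves
  set R : Q → Q := fun q => r (l • q) (s * ‖q‖ ^ 2) with hR
  have hq1 : ∀ q : Q, ‖q‖ ≤ 1 → ‖l • q‖ ≤ l ∧ |s * ‖q‖ ^ 2| ≤ l / 4 := by
    intro q hq
    constructor
    · rw [norm_smul, Real.norm_eq_abs, abs_of_pos hl0]
      nlinarith
    · rw [abs_mul, abs_of_nonneg (sq_nonneg ‖q‖)]
      have h1 : ‖q‖ ^ 2 ≤ 1 := by
        have := norm_nonneg q
        nlinarith
      have h2 := abs_nonneg s
      nlinarith
  have hRη : ∀ q : Q, ‖q‖ ≤ 1 → ‖R q - b • q‖ ≤ 2 * η := by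
    intro q hq
    have h1 := (hsmall _ _ (hq1 q hq).1 (hq1 q hq).2).le
    have h2 : ‖b • q‖ ≤ η := by
      rw [norm_smul, Real.norm_eq_abs]
      have := norm_nonneg q
      have := abs_nonneg b
      nlinarith
    have h3 := norm_sub_le (R q) (b • q)
    have h4 : ‖R q‖ ≤ η := h1
    linarith
  have hRΛ : ∀ q : Q, ‖q‖ ≤ 1 → PH (l • q) (R q) (l / 4 * ⟪R q - b • q, q⟫) ∈ Λ := by
    intro q hq
    have h1 := hr (l • q) (s * ‖q‖ ^ 2) (hdom _ _ (hq1 q hq).1 (hq1 q hq).2).1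
      (hdom _ _ (hq1 q hq).1 (hq1 q hq).2).2
    have e : s * ‖q‖ ^ 2 + 1 / 4 * ⟪r (l • q) (s * ‖q‖ ^ 2), l • q⟫ =
        l / 4 * ⟪R q - b • q, q⟫ := by
      have hRq : R q = r (l • q) (s * ‖q‖ ^ 2) := rfl
      rw [← hRq, inner_sub_left, inner_smul_left, inner_smul_right, real_inner_self_eq_norm_sq]
      simp only [RCLike.conj_to_real]
      linear_combination ‖q‖ ^ 2 * hsb
    rw [e] at h1
    exact h1
  have hq₀1 : ‖q₀‖ ≤ 1 := hq₀.le
  have hRq₀ : R q₀ = r (l • q₀) s := by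
    simp only [hR]
    rw [hq₀]
    norm_num
  have horth : ⟪R q₀ - b • q₀, q₀⟫ = 0 := by
    rw [inner_sub_left, inner_smul_left, real_inner_self_eq_norm_sq, hq₀, hRq₀, ← hbr]
    simp
  -- the supremum
  set S : Set ℝ := {t | ∃ q : Q, ‖q‖ ≤ 1 ∧ t = ‖R q - b • q‖} with hS
  have hSb : BddAbove S := ⟨2 * η, by rintro t ⟨q, hq, rfl⟩; exact hRη q hq⟩
  have hSne : S.Nonempty := ⟨_, q₀, hq₀1, rfl⟩
  have hmem : ∀ q : Q, ‖q‖ ≤ 1 → ‖R q - b • q‖ ≤ sSup S := fun q hq => le_csSup hSb ⟨q, hq, rfl⟩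
  have hm0 : 0 < sSup S := by
    by_contra hneg
    have h1 : ‖R q₀ - b • q₀‖ = 0 := le_antisymm ((hmem q₀ hq₀1).trans (not_lt.mp hneg))
      (norm_nonneg _)
    have h2 : R q₀ = b • q₀ := sub_eq_zero.mp (norm_eq_zero.mp h1)
    have h3 := hRΛ q₀ hq₀1
    rw [h2, sub_self, inner_zero_left, mul_zero] at h3
    have h4 : (((-b, l), 0, 0) : W Q) ∈ PH (l • q₀) (b • q₀) 0 := by
      rw [mem_PH]
      refine ⟨?_, by simp, by simp⟩
      simp only [smul_smul]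
      rw [← add_smul]
      have : -b * l + l * b = 0 := by ring
      rw [this, zero_smul]
    have h5 : (((-b, l), 0, 0) : W Q) ∈ P0 Q := by
      rw [mem_P0]
      exact ⟨rfl, rfl⟩
    have h6 := hΛ.uni _ h3 _ h0 (((-b, l), 0, 0) : W Q) (by
      intro h
      have := congrArg (fun x : W Q => x.1.2) h
      simp only [Prod.fst_zero, Prod.snd_zero] at this
      exact hl0.ne' this) h4 h5
    have h7 := (PH_inj h6).1
    have h8 : ‖l • q₀‖ = 0 := by rw [h7, norm_zero]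
    rw [norm_smul, hq₀, mul_one, Real.norm_eq_abs, abs_of_pos hl0] at h8
    exact hl0.ne' h8
  have hmδ : sSup S < δ := by
    have : sSup S ≤ 2 * η := csSup_le hSne (by rintro t ⟨q, hq, rfl⟩; exact hRη q hq)
    linarith
  obtain ⟨t, ⟨q', hq', rfl⟩, hlt⟩ := exists_lt_of_lt_csSup hSne (by linarith : sSup S / 2 < sSup S)
  exact ⟨l, b, sSup S, R, q', hl0, hlδ, hbη.trans_le (by linarith), hm0, hmδ, hRΛ, hmem, hq',
    hlt.le, horth⟩

theorem norm_image {l b m : ℝ} (hl : 0 < l) (hm : 0 < m) {R q : Q} :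
    im (bL l b m hl.ne' hm.ne') (PH (l • q) R (l / 4 * ⟪R - b • q, q⟫)) =
      PH q (m⁻¹ • (R - b • q)) (1 / 4 * ⟪m⁻¹ • (R - b • q), q⟫) := by
  have h := map_bL_PH l b m hl.ne' hm.ne' q (m⁻¹ • (R - b • q))
    (1 / 4 * ⟪m⁻¹ • (R - b • q), q⟫)
  have e1 : b • q + m • m⁻¹ • (R - b • q) = R := by
    rw [smul_smul, mul_inv_cancel₀ hm.ne', one_smul]; abel
  have e2 : l * m * (1 / 4 * ⟪m⁻¹ • (R - b • q), q⟫) = l / 4 * ⟪R - b • q, q⟫ := by
    rw [inner_smul_left]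
    simp only [RCLike.conj_to_real]
    field_simp
  rw [e1, e2] at h
  exact h

theorem normalize [FiniteDimensional ℝ Q] {Λ : Set (Submodule ℝ (W Q))} (hΛ : FolW Λ)
    (h0 : P0 Q ∈ Λ) {q₀ : Q} (hq₀ : ‖q₀‖ = 1) (𝒰 : Ultrafilter ℕ)
    (h𝒰 : (𝒰 : Filter ℕ) ≤ atTop) :
    ∃ (l b m : ℕ → ℝ) (hl : ∀ n, 0 < l n) (hm : ∀ n, 0 < m n), Tendsto l 𝒰 (𝓝 0) ∧
      Tendsto b 𝒰 (𝓝 0) ∧ Tendsto m 𝒰 (𝓝 0) ∧
      (∃ P : ℕ → Submodule ℝ (W Q), (∀ n, P n ∈ Λ) ∧ ∃ r : Q, ⟪q₀, r⟫ = 0 ∧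
        LimW (fun n => bL (l n) (b n) (m n) (hl n).ne' (hm n).ne') 𝒰 P (PH q₀ r 0)) ∧
      ∃ P : ℕ → Submodule ℝ (W Q), (∀ n, P n ∈ Λ) ∧ ∃ (q r : Q) (c : ℝ), r ≠ 0 ∧
        LimW (fun n => bL (l n) (b n) (m n) (hl n).ne' (hm n).ne') 𝒰 P (PH q r c) := by
  have hst := fun n : ℕ => norm_stage hΛ h0 hq₀ (1 / ((n : ℝ) + 1)) (by positivity)
  choose l b m R q' hl hlδ hbδ hm hmδ hΛR hRm hq' hmq horth using hst
  have hz : Tendsto (fun n : ℕ => 1 / ((n : ℝ) + 1)) 𝒰 (𝓝 0) :=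
    tendsto_one_div_add_atTop_nhds_zero_nat.mono_left h𝒰
  have hlt : Tendsto l 𝒰 (𝓝 0) :=
    squeeze_zero (fun n => (hl n).le) (fun n => (hlδ n).le) hz
  have hmt : Tendsto m 𝒰 (𝓝 0) :=
    squeeze_zero (fun n => (hm n).le) (fun n => (hmδ n).le) hz
  have hbt : Tendsto b 𝒰 (𝓝 0) :=
    squeeze_zero_norm (fun n => (Real.norm_eq_abs (b n)).le.trans (hbδ n).le) hz
  have hnorm : ∀ n (q : Q), ‖q‖ ≤ 1 → ‖(m n)⁻¹ • (R n q - b n • q)‖ ≤ 1 := by
    intro n q hq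
    rw [norm_smul, norm_inv, Real.norm_eq_abs, abs_of_pos (hm n), inv_mul_le_iff₀ (hm n), mul_one]
    exact hRm n q hq
  have hNB : NeBot (𝒰 : Filter ℕ) := 𝒰.neBot
  refine ⟨l, b, m, hl, hm, hlt, hbt, hmt, ?_, ?_⟩
  · refine ⟨fun n => PH (l n • q₀) (R n q₀) (l n / 4 * ⟪R n q₀ - b n • q₀, q₀⟫),
      fun n => hΛR n q₀ hq₀.le, ?_⟩
    obtain ⟨r, hr, -⟩ := ultra_lim 𝒰 (u := fun n => (m n)⁻¹ • (R n q₀ - b n • q₀)) (C := 1)
      fun n => hnorm n q₀ hq₀.le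
    have ho : ∀ n, ⟪(m n)⁻¹ • (R n q₀ - b n • q₀), q₀⟫ = 0 := by
      intro n
      rw [inner_smul_left, horth n, mul_zero]
    refine ⟨r, ?_, ?_⟩
    · rw [real_inner_comm]
      refine tendsto_nhds_unique (hr.inner tendsto_const_nhds) ?_
      exact tendsto_const_nhds.congr fun n => (ho n).symm
    · refine LimW.of_params (a' := fun _ => q₀)
        (b' := fun n => (m n)⁻¹ • (R n q₀ - b n • q₀)) (c' := fun _ => 0)
        tendsto_const_nhds hr tendsto_const_nhds (Eventually.of_forall fun n => ?_)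
      rw [norm_image (hl n) (hm n), ho n, mul_zero]
  · refine ⟨fun n => PH (l n • q' n) (R n (q' n)) (l n / 4 * ⟪R n (q' n) - b n • q' n, q' n⟫),
      fun n => hΛR n (q' n) (hq' n), ?_⟩
    obtain ⟨q, hq, -⟩ := ultra_lim 𝒰 (u := q') (C := 1) hq'
    obtain ⟨r, hr, -⟩ := ultra_lim 𝒰 (u := fun n => (m n)⁻¹ • (R n (q' n) - b n • q' n))
      (C := 1) fun n => hnorm n (q' n) (hq' n)
    refine ⟨q, r, 1 / 4 * ⟪r, q⟫, ?_, ?_⟩
    · have h1 : (1 : ℝ) / 2 ≤ ‖r‖ := by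
        refine ge_of_tendsto hr.norm (Eventually.of_forall fun n => ?_)
        rw [norm_smul, norm_inv, Real.norm_eq_abs, abs_of_pos (hm n),
          le_inv_mul_iff₀ (hm n)]
        have := hmq n
        linarith
      intro h2
      rw [h2, norm_zero] at h1
      linarith
    · refine LimW.of_params (a' := q')
        (b' := fun n => (m n)⁻¹ • (R n (q' n) - b n • q' n))
        (c' := fun n => 1 / 4 * ⟪(m n)⁻¹ • (R n (q' n) - b n • q' n), q' n⟫)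
        hq hr ((hr.inner hq).const_mul _) (Eventually.of_forall fun n => ?_)
      rw [norm_image (hl n) (hm n)]

end Pool.Agent.H2.AdS
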