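import Pool.Agent.H2.AdS.Gap.Defs

/-!
# The limit leaves are invariant under the transvections of `Pp`
-/

set_option autoImplicit false

open scoped RealInnerProductSpace
open Filter Topology

namespace Pool.Agent.H2.AdS

variable {Q : Type*} [NormedAddCommGroup Q] [InnerProductSpace ℝ Q]

/-- the column of maximal length of an upper triangular matrix -/
theorem vert_frame {l b m : ℝ} (hl : 0 < l) (hm : 0 < m) :
    ∃ (t : ℝ) (X y : ℝ × ℝ), 0 < t ∧ l ≤ t ∧ m ≤ t ∧ |b| ≤ t ∧ t ≤ l + |b| + m ∧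
      X.1 ^ 2 + X.2 ^ 2 = 1 ∧ ‖y‖ ≤ 1 ∧ l * y.1 + b * y.2 = t * X.1 ∧ m * y.2 = t * X.2 := by
  set r : ℝ := Real.sqrt (b ^ 2 + m ^ 2) with hr
  have hr2 : r ^ 2 = b ^ 2 + m ^ 2 := Real.sq_sqrt (by positivity)
  have hr0 : 0 < r := Real.sqrt_pos.mpr (by positivity)
  have hmr : m ≤ r := by nlinarith [sq_nonneg b]
  have hbr : |b| ≤ r := Real.abs_le_sqrt (by nlinarith [sq_nonneg m])
  have hrb : r ≤ |b| + m := by
    nlinarith [abs_nonneg b, sq_abs b, mul_nonneg (abs_nonneg b) hm.le]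
  rcases le_total r l with h | h
  · refine ⟨l, (1, 0), (1, 0), hl, le_rfl, hmr.trans h, hbr.trans h, by
      linarith [abs_nonneg b], by norm_num, ?_, by simp, by simp⟩
    rw [Prod.norm_def]; simp
  · refine ⟨r, (b / r, m / r), (0, 1), hr0, h, hmr, hbr, by linarith, ?_, ?_, ?_, ?_⟩
    · simp only []
      field_simp
      linarith
    · rw [Prod.norm_def]; simp
    · simp only []
      field_simp
      ring
    · simp only []
      field_simp

omit [InnerProductSpace ℝ Q] in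
theorem vert_norm (p q : ℝ) : ‖((0, 0, (p, q)) : W Q)‖ = max |p| |q| := by
  have h1 : ‖((0, 0, (p, q)) : W Q)‖ = max ‖(0 : ℝ × ℝ)‖ (max ‖(0 : Q)‖ (max |p| |q|)) := rfl
  rw [h1, norm_zero, norm_zero, max_eq_right (le_max_of_le_left (abs_nonneg p)),
    max_eq_right (le_max_of_le_left (abs_nonneg p))]

/-- normalised preimages -/
theorem vert_pre {l b m : ℝ} (hl : 0 < l) (hm : 0 < m) {Y : ℝ × ℝ} (hY : Y ≠ 0) :
    ∃ (s : ℝ) (y : ℝ × ℝ), 0 < s ∧ ‖y‖ = 1 ∧ l * y.1 + b * y.2 = s * Y.1 ∧ m * y.2 = s * Y.2 := by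
  set y' : ℝ × ℝ := ((Y.1 - b * (Y.2 / m)) / l, Y.2 / m) with hy'
  have h1 : l * y'.1 + b * y'.2 = Y.1 := by
    simp only [hy']
    field_simp
    ring
  have h2 : m * y'.2 = Y.2 := by
    simp only [hy']
    field_simp
  have h0 : y' ≠ 0 := by
    intro h
    rw [h] at h1 h2
    apply hY
    refine Prod.ext ?_ ?_
    · rw [← h1]; simp
    · rw [← h2]; simp
  have hn : 0 < ‖y'‖ := norm_pos_iff.mpr h0
  refine ⟨‖y'‖⁻¹, ‖y'‖⁻¹ • y', inv_pos.mpr hn, ?_, ?_, ?_⟩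
  · rw [norm_smul, norm_inv, norm_norm, inv_mul_cancel₀ hn.ne']
  · simp only [Prod.smul_fst, Prod.smul_snd, smul_eq_mul]
    rw [← h1]; ring
  · simp only [Prod.smul_snd, smul_eq_mul]
    rw [← h2]; ring

theorem vert_symm {l b m : ℝ} (hl : 0 < l) (hm : 0 < m) {p y : ℝ × ℝ}
    (h1 : l * y.1 + b * y.2 = p.1) (h2 : m * y.2 = p.2) :
    (((p.1 - b * p.2 / m) / l, p.2 / m) : ℝ × ℝ) = y := by
  have e1 : p.2 / m = y.2 := by
    rw [← h2]
    field_simp
  have e2 : b * p.2 / m = b * y.2 := by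
    rw [mul_div_assoc, e1]
  refine Prod.ext ?_ e1
  simp only []
  rw [e2, div_eq_iff hl.ne', ← h1]
  ring

theorem vert_lin (a₁ a₂ : Q) (c p q : ℝ) (X Y : ℝ × ℝ) :
    p • ptH a₁ a₂ c X + q • ptH a₁ a₂ c Y = ptH a₁ a₂ c (p • X + q • Y) := by
  have h : p • ptH a₁ a₂ c X + q • ptH a₁ a₂ c Y ∈ PH a₁ a₂ c :=
    (PH a₁ a₂ c).add_mem ((PH a₁ a₂ c).smul_mem p (ptH_mem _ _ _ _))
      ((PH a₁ a₂ c).smul_mem q (ptH_mem _ _ _ _))
  exact eq_ptH h

theorem vert_smul (a₁ a₂ : Q) (c p : ℝ) (X : ℝ × ℝ) :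
    p • ptH a₁ a₂ c X = ptH a₁ a₂ c (p • X) := by
  have h : p • ptH a₁ a₂ c X ∈ PH a₁ a₂ c := (PH a₁ a₂ c).smul_mem p (ptH_mem _ _ _ _)
  exact eq_ptH h

/-- convergence to a point of a photon is determined by the first two components -/
theorem vert_conv {𝒰 : Ultrafilter ℕ} {z v : ℕ → W Q} {a₁ a₂ : Q} {c : ℝ} {X Y : ℝ × ℝ}
    (hdet : X.1 * Y.2 - X.2 * Y.1 ≠ 0)
    (hz1 : Tendsto (fun n => (z n).1) 𝒰 (𝓝 X))
    (hz2 : Tendsto (fun n => (z n).2.1) 𝒰 (𝓝 (X.1 • a₁ + X.2 • a₂)))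
    (hv : Tendsto v 𝒰 (𝓝 (ptH a₁ a₂ c Y))) (hzz : ∀ n, bW (z n) (z n) = 0)
    (hzv : ∀ n, bW (z n) (v n) = 0) : Tendsto z 𝒰 (𝓝 (ptH a₁ a₂ c X)) := by
  have hx1 : Tendsto (fun n => (z n).1.1) 𝒰 (𝓝 X.1) := (continuous_fst.tendsto _).comp hz1
  have hx2 : Tendsto (fun n => (z n).1.2) 𝒰 (𝓝 X.2) := (continuous_snd.tendsto _).comp hz1
  have hv1 : Tendsto (fun n => (v n).1.1) 𝒰 (𝓝 Y.1) :=
    ((continuous_fst.comp continuous_fst).tendsto _).comp hv
  have hv2 : Tendsto (fun n => (v n).1.2) 𝒰 (𝓝 Y.2) :=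
    ((continuous_snd.comp continuous_fst).tendsto _).comp hv
  have hvq : Tendsto (fun n => (v n).2.1) 𝒰 (𝓝 (ptH a₁ a₂ c Y).2.1) :=
    ((continuous_fst.comp continuous_snd).tendsto _).comp hv
  have hv3 : Tendsto (fun n => (v n).2.2.1) 𝒰 (𝓝 (ptH a₁ a₂ c Y).2.2.1) :=
    ((continuous_fst.comp (continuous_snd.comp continuous_snd)).tendsto _).comp hv
  have hv4 : Tendsto (fun n => (v n).2.2.2) 𝒰 (𝓝 (ptH a₁ a₂ c Y).2.2.2) :=
    ((continuous_snd.comp (continuous_snd.comp continuous_snd)).tendsto _).comp hv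
  set w := ptH a₁ a₂ c X with hw
  set w' := ptH a₁ a₂ c Y with hw'
  have e1 : bW w w = 0 := iso_PH (ptH_mem _ _ _ _) (ptH_mem _ _ _ _)
  have e2 : bW w w' = 0 := iso_PH (ptH_mem _ _ _ _) (ptH_mem _ _ _ _)
  have hwX : w.1 = X := rfl
  have hwX' : w.2.1 = X.1 • a₁ + X.2 • a₂ := rfl
  have hwY : w'.1 = Y := rfl
  have k1 : Tendsto (fun n => (z n).1.1 * (z n).2.2.1 + (z n).1.2 * (z n).2.2.2) 𝒰
      (𝓝 (X.1 * w.2.2.1 + X.2 * w.2.2.2)) := by
    have h1 : Tendsto (fun n => -(1 / 4) * ‖(z n).2.1‖ ^ 2) 𝒰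
        (𝓝 (-(1 / 4) * ‖X.1 • a₁ + X.2 • a₂‖ ^ 2)) := (hz2.norm.pow 2).const_mul _
    have h2 : -(1 / 4) * ‖X.1 • a₁ + X.2 • a₂‖ ^ 2 = X.1 * w.2.2.1 + X.2 * w.2.2.2 := by
      rw [bW_self, hwX, hwX'] at e1
      linarith
    rw [h2] at h1
    refine h1.congr fun n => ?_
    have h3 := hzz n
    rw [bW_self] at h3
    linarith
  have k2 : Tendsto (fun n => (v n).1.1 * (z n).2.2.1 + (v n).1.2 * (z n).2.2.2) 𝒰
      (𝓝 (Y.1 * w.2.2.1 + Y.2 * w.2.2.2)) := by
    have h1 := (((hz2.inner hvq).add (((hx1.mul hv3).add (hx2.mul hv4)).const_mul 2))).const_mul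
      (-(1 / 2))
    have h2 : -(1 / 2) * (⟪X.1 • a₁ + X.2 • a₂, w'.2.1⟫ + 2 * (X.1 * w'.2.2.1 + X.2 * w'.2.2.2)) =
        Y.1 * w.2.2.1 + Y.2 * w.2.2.2 := by
      unfold bW at e2
      rw [hwX, hwX', hwY] at e2
      linarith
    rw [h2] at h1
    refine h1.congr fun n => ?_
    have h3 := hzv n
    unfold bW at h3
    linarith
  obtain ⟨g1, g2⟩ := inv_lim hx1 hx2 hv1 hv2 hdet k1 k2
  have g1' : (Y.2 * (X.1 * w.2.2.1 + X.2 * w.2.2.2) - X.2 * (Y.1 * w.2.2.1 + Y.2 * w.2.2.2)) /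
      (X.1 * Y.2 - X.2 * Y.1) = w.2.2.1 := by
    rw [div_eq_iff hdet]; ring
  have g2' : (X.1 * (Y.1 * w.2.2.1 + Y.2 * w.2.2.2) - Y.1 * (X.1 * w.2.2.1 + X.2 * w.2.2.2)) /
      (X.1 * Y.2 - X.2 * Y.1) = w.2.2.2 := by
    rw [div_eq_iff hdet]; ring
  rw [g1'] at g1
  rw [g2'] at g2
  exact hz1.prodMk_nhds (hz2.prodMk_nhds (g1.prodMk_nhds g2))

theorem claimV [FiniteDimensional ℝ Q] {Λ : Set (Submodule ℝ (W Q))} (hΛ : FolW Λ)
    (hS : SmallW Λ) (𝒰 : Ultrafilter ℕ) {l b m : ℕ → ℝ} (hl : ∀ n, 0 < l n)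
    (hm : ∀ n, 0 < m n) (hl0 : Tendsto l 𝒰 (𝓝 0)) (hb0 : Tendsto b 𝒰 (𝓝 0))
    (hm0 : Tendsto m 𝒰 (𝓝 0)) (P : ℕ → Submodule ℝ (W Q)) (hP : ∀ n, P n ∈ Λ) (a₁ a₂ : Q)
    (c τ : ℝ)
    (hlim : LimW (fun n => bL (l n) (b n) (m n) (hl n).ne' (hm n).ne') 𝒰 P (PH a₁ a₂ c)) :
    ∃ P' : ℕ → Submodule ℝ (W Q), (∀ n, P' n ∈ Λ) ∧
      LimW (fun n => bL (l n) (b n) (m n) (hl n).ne' (hm n).ne') 𝒰 P' (PH a₁ a₂ (c + τ)) := by
  classical
  set A : ℕ → W Q ≃ₗ[ℝ] W Q := fun n => bL (l n) (b n) (m n) (hl n).ne' (hm n).ne' with hA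
  have hAiso : ∀ n x y, bW (A n x) (A n y) = bW x y := fun n x y => bW_bL _ _ _ _ _ x y
  obtain ⟨α₁, α₂, κ, hα₁, hα₂, hκ, hev⟩ := hlim.params hAiso fun n => hΛ.ph _ (hP n)
  choose t X y ht hlt hmt hbt htl hX hy hLy1 hLy2 using fun n => vert_frame (b := b n) (hl n) (hm n)
  -- the second vector
  have hYne : ∀ n, ((-(X n).2, (X n).1) : ℝ × ℝ) ≠ 0 := by
    intro n h
    have h1 : (X n).2 = 0 := by
      have := congrArg Prod.fst h
      simpa using this
    have h2 : (X n).1 = 0 := congrArg Prod.snd h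
    have h3 := hX n
    rw [h1, h2] at h3
    norm_num at h3
  choose s η hs hη hLη1 hLη2 using fun n => vert_pre (b := b n) (hl n) (hm n) (hYne n)
  have ht0 : Tendsto t 𝒰 (𝓝 0) := by
    have h1 : Tendsto (fun n => l n + |b n| + m n) 𝒰 (𝓝 (0 + |0| + 0)) :=
      (hl0.add hb0.abs).add hm0
    rw [abs_zero, add_zero, add_zero] at h1
    exact squeeze_zero (fun n => (ht n).le) htl h1
  -- the limits of `X`
  obtain ⟨X', hX', -⟩ := ultra_lim 𝒰 (u := X) (C := 1) fun n => by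
    rw [Prod.norm_def, Real.norm_eq_abs, Real.norm_eq_abs]
    refine max_le ?_ ?_
    · exact abs_le_one_iff_mul_self_le_one.mpr (by nlinarith [hX n, sq_nonneg (X n).2])
    · exact abs_le_one_iff_mul_self_le_one.mpr (by nlinarith [hX n, sq_nonneg (X n).1])
  have hX1 : Tendsto (fun n => (X n).1) 𝒰 (𝓝 X'.1) := (continuous_fst.tendsto _).comp hX'
  have hX2 : Tendsto (fun n => (X n).2) 𝒰 (𝓝 X'.2) := (continuous_snd.tendsto _).comp hX'
  have hXX' : X'.1 ^ 2 + X'.2 ^ 2 = 1 :=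
    tendsto_nhds_unique ((hX1.pow 2).add (hX2.pow 2)) (tendsto_const_nhds.congr fun n => (hX n).symm)
  have hY' : Tendsto (fun n => ((-(X n).2, (X n).1) : ℝ × ℝ)) 𝒰 (𝓝 (-X'.2, X'.1)) :=
    hX2.neg.prodMk_nhds hX1
  -- the points
  set v : ℕ → W Q := fun n => ptH (α₁ n) (α₂ n) (κ n + τ) (-(X n).2, (X n).1) with hv
  set uu : ℕ → W Q := fun n => (A n).symm (s n • v n) with huu
  have huu1 : ∀ n, (uu n).1 = η n := by
    intro n
    exact vert_symm (p := s n • (-(X n).2, (X n).1)) (hl n) (hm n) (hLη1 n) (hLη2 n)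
  have huune : ∀ n, uu n ≠ 0 := by
    intro n h
    have h1 := huu1 n
    rw [h] at h1
    have h2 := hη n
    rw [← h1] at h2
    simp at h2
  have hviso : ∀ n, bW (v n) (v n) = 0 := fun n => iso_PH (ptH_mem _ _ _ _) (ptH_mem _ _ _ _)
  have huuiso : ∀ n, bW (uu n) (uu n) = 0 := by
    intro n
    rw [← hAiso n]
    simp only [huu, LinearEquiv.apply_symm_apply]
    rw [bW_smul_left, bW_smul_right, hviso]
    ring
  choose P' hP' huP' using fun n => hΛ.cov (uu n) (huune n) (huuiso n)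
  refine ⟨P', hP', ?_⟩
  -- the points of `P n`
  set u : ℕ → W Q := fun n => (A n).symm (s n • ptH (α₁ n) (α₂ n) (κ n) (-(X n).2, (X n).1))
    with hu
  set x : ℕ → W Q := fun n => (A n).symm (t n • ptH (α₁ n) (α₂ n) (κ n) (X n)) with hx
  have huP : ∀ᶠ n in (𝒰 : Filter ℕ), u n ∈ P n := by
    filter_upwards [hev] with n hn
    have h1 : s n • ptH (α₁ n) (α₂ n) (κ n) (-(X n).2, (X n).1) ∈ im (A n) (P n) := by
      rw [hn]
      exact Submodule.smul_mem _ _ (ptH_mem _ _ _ _)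
    exact mem_im.mp h1
  have hxP : ∀ᶠ n in (𝒰 : Filter ℕ), x n ∈ P n := by
    filter_upwards [hev] with n hn
    have h1 : t n • ptH (α₁ n) (α₂ n) (κ n) (X n) ∈ im (A n) (P n) := by
      rw [hn]
      exact Submodule.smul_mem _ _ (ptH_mem _ _ _ _)
    exact mem_im.mp h1
  have hu1 : ∀ n, (u n).1 = η n := by
    intro n
    exact vert_symm (p := s n • (-(X n).2, (X n).1)) (hl n) (hm n) (hLη1 n) (hLη2 n)
  have hx1 : ∀ n, (x n).1 = y n := by
    intro n
    exact vert_symm (p := t n • X n) (hl n) (hm n) (hLy1 n) (hLy2 n)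
  -- the distance of `u` and `uu`
  have hdist : ∀ n, ‖u n - uu n‖ = |τ| * (l n * m n) := by
    intro n
    have h1 : u n - uu n = (0, 0, (τ * (l n * m n) * (η n).2, -(τ * (l n * m n)) * (η n).1)) := by
      have h1 := hLη1 n
      have h2 := hLη2 n
      simp only at h1 h2
      refine Prod.ext ?_ (Prod.ext ?_ (Prod.ext ?_ ?_))
      · rw [Prod.fst_sub, hu1, huu1, sub_self]
      · simp only [hu, huu, hv, hA, bL_symm_apply, ptH, Prod.smul_snd, Prod.smul_fst,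
          Prod.snd_sub, Prod.fst_sub, sub_self]
      · simp only [hu, huu, hv, hA, bL_symm_apply, ptH, Prod.smul_snd, Prod.smul_fst,
          Prod.snd_sub, Prod.fst_sub, smul_eq_mul]
        linear_combination -(τ * l n) * h2
      · simp only [hu, huu, hv, hA, bL_symm_apply, ptH, Prod.smul_snd, Prod.smul_fst,
          Prod.snd_sub, smul_eq_mul]
        linear_combination (τ * m n) * h1 - (τ * b n) * h2
    rw [h1, vert_norm]
    have h2 := hη n
    rw [Prod.norm_def, Real.norm_eq_abs, Real.norm_eq_abs] at h2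
    have h3 : 0 ≤ |τ| * (l n * m n) :=
      mul_nonneg (abs_nonneg _) (mul_nonneg (hl n).le (hm n).le)
    have h4 : |τ * (l n * m n)| = |τ| * (l n * m n) := by
      rw [abs_mul, abs_of_nonneg (mul_nonneg (hl n).le (hm n).le)]
    rw [abs_mul, abs_mul (-(τ * (l n * m n))), abs_neg, h4, ← mul_max_of_nonneg _ _ h3,
      max_comm, h2, mul_one]
  have hw : Tendsto (fun n => ptH (α₁ n) (α₂ n) (κ n) (X n)) 𝒰 (𝓝 (ptH a₁ a₂ c X')) :=
    tendsto_ptH hα₁ hα₂ hκ hX'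
  -- the points `x n` are bounded by `1`
  have hxn : ∀ᶠ n in (𝒰 : Filter ℕ), ‖x n‖ ≤ 1 := by
    have hw1 : Tendsto (fun n => (ptH (α₁ n) (α₂ n) (κ n) (X n)).2.1) 𝒰
        (𝓝 (ptH a₁ a₂ c X').2.1) := ((continuous_fst.comp continuous_snd).tendsto _).comp hw
    have hw3 : Tendsto (fun n => (ptH (α₁ n) (α₂ n) (κ n) (X n)).2.2.1) 𝒰
        (𝓝 (ptH a₁ a₂ c X').2.2.1) :=
      ((continuous_fst.comp (continuous_snd.comp continuous_snd)).tendsto _).comp hw
    have hw4 : Tendsto (fun n => (ptH (α₁ n) (α₂ n) (κ n) (X n)).2.2.2) 𝒰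
        (𝓝 (ptH a₁ a₂ c X').2.2.2) :=
      ((continuous_snd.comp (continuous_snd.comp continuous_snd)).tendsto _).comp hw
    have h1 : Tendsto (fun n => (x n).2) 𝒰 (𝓝 (0, (0, 0))) := by
      refine Tendsto.prodMk_nhds ?_ (Tendsto.prodMk_nhds ?_ ?_)
      · have := ht0.smul hw1
        rwa [zero_smul] at this
      · have := hl0.mul (ht0.mul hw3)
        rwa [zero_mul] at this
      · have := (hm0.mul (ht0.mul hw4)).add (hb0.mul (ht0.mul hw3))
        rwa [zero_mul, zero_mul, add_zero] at this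
    have h2 : Tendsto (fun n => ‖(x n).2‖) 𝒰 (𝓝 0) := by
      have := h1.norm
      simpa using this
    filter_upwards [h2.eventually (gt_mem_nhds zero_lt_one)] with n hn
    rw [Prod.norm_def, hx1]
    exact max_le (hy n) hn.le
  -- the nearest points
  have hne : ∀ n, ∃ q ∈ P' n, dist (x n) q < Metric.infDist (x n) (P' n) + t n ^ 2 := by
    intro n
    have hnon : ((P' n : Submodule ℝ (W Q)) : Set (W Q)).Nonempty := ⟨0, (P' n).zero_mem⟩
    exact (Metric.infDist_lt_iff hnon).mp (by have := ht n; nlinarith [pow_pos this 2])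
  choose xt hxt hxtd using hne
  have hδ : ∀ δ : ℝ, 0 < δ → ∀ᶠ n in (𝒰 : Filter ℕ), ‖xt n - x n‖ ≤ δ * t n := by
    intro δ hδ
    have hτ : 0 < Real.sqrt |τ| + 1 := by positivity
    obtain ⟨ρ, hρ, hSρ⟩ := hS (δ / 2 / (Real.sqrt |τ| + 1)) (by positivity)
    have h1 : Tendsto (fun n => |τ| * (l n * m n)) 𝒰 (𝓝 0) := by
      have := (hl0.mul hm0).const_mul |τ|
      rwa [mul_zero, mul_zero] at this
    filter_upwards [huP, hxP, hxn, h1.eventually (gt_mem_nhds hρ),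
      ht0.eventually (gt_mem_nhds (half_pos hδ))] with n h2 h3 h4 h5 h6
    obtain ⟨x', hx', hd⟩ := hSρ (P n) (hP n) (P' n) (hP' n) (u n) h2 (uu n) (huP' n) (by
        have h7 : ‖(u n).1‖ ≤ ‖u n‖ := norm_fst_le _
        rw [hu1, hη] at h7
        linarith) (by rw [hdist]; exact h5) (x n) h3 h4
    rw [hdist] at hd
    have h7 : Metric.infDist (x n) (P' n) ≤ ‖x n - x'‖ := by
      rw [← dist_eq_norm]
      exact Metric.infDist_le_dist_of_mem hx'
    have h8 : Real.sqrt (|τ| * (l n * m n)) ≤ Real.sqrt |τ| * t n := by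
      rw [Real.sqrt_mul (abs_nonneg τ)]
      refine mul_le_mul_of_nonneg_left ?_ (Real.sqrt_nonneg _)
      rw [Real.sqrt_le_left (ht n).le]
      nlinarith [hlt n, hmt n, hl n, hm n, ht n]
    have h9 : δ / 2 / (Real.sqrt |τ| + 1) * Real.sqrt (|τ| * (l n * m n)) ≤ δ / 2 * t n := by
      calc δ / 2 / (Real.sqrt |τ| + 1) * Real.sqrt (|τ| * (l n * m n))
          ≤ δ / 2 / (Real.sqrt |τ| + 1) * ((Real.sqrt |τ| + 1) * t n) := by
            refine mul_le_mul_of_nonneg_left (h8.trans ?_) (by positivity)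
            have := ht n
            nlinarith
        _ = δ / 2 * t n := by
            field_simp
    have h10 : ‖xt n - x n‖ < Metric.infDist (x n) (P' n) + t n ^ 2 := by
      have := hxtd n
      rwa [dist_comm, dist_eq_norm] at this
    have h11 := ht n
    nlinarith
  have he : Tendsto (fun n => ‖xt n - x n‖ / t n) 𝒰 (𝓝 0) := by
    rw [Metric.tendsto_nhds]
    intro ε hε
    filter_upwards [hδ (ε / 2) (half_pos hε)] with n hn
    rw [Real.dist_eq, sub_zero, abs_of_nonneg (div_nonneg (norm_nonneg _) (ht n).le),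
      div_lt_iff₀ (ht n)]
    have := ht n
    nlinarith
  have he' : Tendsto (fun n => ‖xt n - x n‖) 𝒰 (𝓝 0) := by
    have h1 := he.mul ht0
    rw [zero_mul] at h1
    refine h1.congr fun n => ?_
    exact div_mul_cancel₀ _ (ht n).ne'
  -- the blown up points
  set z : ℕ → W Q := fun n => (t n)⁻¹ • A n (xt n) with hz
  have hz1 : Tendsto (fun n => (z n).1) 𝒰 (𝓝 X') := by
    have hd1 : ∀ n, ‖(z n).1 - X n‖ ≤ 2 * ‖xt n - x n‖ := by
      intro n
      have e1 : (z n).1 - X n = (t n)⁻¹ • (l n * (xt n - x n).1.1 + b n * (xt n - x n).1.2,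
          m n * (xt n - x n).1.2) := by
        have h1 := hLy1 n
        have h2 := hLy2 n
        have h3 : t n ≠ 0 := (ht n).ne'
        refine Prod.ext ?_ ?_
        · simp only [hz, hA, bL_apply, Prod.fst_sub, Prod.snd_sub, Prod.smul_fst,
            smul_eq_mul, hx1]
          field_simp
          linear_combination h1
        · simp only [hz, hA, bL_apply, Prod.fst_sub, Prod.snd_sub, Prod.smul_fst,
            Prod.smul_snd, smul_eq_mul, hx1]
          field_simp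
          linear_combination h2
      have n1 : |(xt n - x n).1.1| ≤ ‖xt n - x n‖ := by
        rw [← Real.norm_eq_abs]
        exact (norm_fst_le _).trans (norm_fst_le _)
      have n2 : |(xt n - x n).1.2| ≤ ‖xt n - x n‖ := by
        rw [← Real.norm_eq_abs]
        exact (norm_snd_le _).trans (norm_fst_le _)
      rw [e1, norm_smul, norm_inv, Real.norm_eq_abs (t n), abs_of_pos (ht n), Prod.norm_def,
        Real.norm_eq_abs, Real.norm_eq_abs, inv_mul_le_iff₀ (ht n)]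
      refine max_le ?_ ?_
      · calc |l n * (xt n - x n).1.1 + b n * (xt n - x n).1.2|
            ≤ |l n| * |(xt n - x n).1.1| + |b n| * |(xt n - x n).1.2| := by
              rw [← abs_mul, ← abs_mul]; exact abs_add_le _ _
          _ ≤ t n * ‖xt n - x n‖ + t n * ‖xt n - x n‖ := by
              rw [abs_of_pos (hl n)]
              exact add_le_add (mul_le_mul (hlt n) n1 (abs_nonneg _) (ht n).le)
                (mul_le_mul (hbt n) n2 (abs_nonneg _) (ht n).le)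
          _ = t n * (2 * ‖xt n - x n‖) := by ring
      · rw [abs_mul, abs_of_pos (hm n)]
        calc m n * |(xt n - x n).1.2| ≤ t n * ‖xt n - x n‖ :=
              mul_le_mul (hmt n) n2 (abs_nonneg _) (ht n).le
          _ ≤ t n * (2 * ‖xt n - x n‖) := by
              refine mul_le_mul_of_nonneg_left ?_ (ht n).le
              linarith [norm_nonneg (xt n - x n)]
    have h1 : Tendsto (fun n => (z n).1 - X n) 𝒰 (𝓝 0) := by
      refine squeeze_zero_norm hd1 ?_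
      have := he'.const_mul 2
      rwa [mul_zero] at this
    have h2 := h1.add hX'
    rw [zero_add] at h2
    refine h2.congr fun n => ?_
    rw [sub_add_cancel]
  have hz2 : Tendsto (fun n => (z n).2.1) 𝒰 (𝓝 (X'.1 • a₁ + X'.2 • a₂)) := by
    have hw1 : Tendsto (fun n => (ptH (α₁ n) (α₂ n) (κ n) (X n)).2.1) 𝒰
        (𝓝 (X'.1 • a₁ + X'.2 • a₂)) := ((continuous_fst.comp continuous_snd).tendsto _).comp hw
    have h1 : Tendsto (fun n => (z n).2.1 - (ptH (α₁ n) (α₂ n) (κ n) (X n)).2.1) 𝒰 (𝓝 0) := by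
      refine squeeze_zero_norm (fun n => ?_) he
      have e1 : (z n).2.1 - (ptH (α₁ n) (α₂ n) (κ n) (X n)).2.1 =
          (t n)⁻¹ • (xt n - x n).2.1 := by
        simp only [hz, hx, hA, bL_apply, bL_symm_apply, Prod.snd_sub, Prod.fst_sub,
          Prod.smul_fst, Prod.smul_snd, smul_sub, smul_smul, inv_mul_cancel₀ (ht n).ne',
          one_smul]
      rw [e1, norm_smul, norm_inv, Real.norm_eq_abs, abs_of_pos (ht n), inv_mul_eq_div]
      exact div_le_div_of_nonneg_right ((norm_fst_le _).trans (norm_snd_le _)) (ht n).le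
    have h2 := h1.add hw1
    rw [zero_add] at h2
    refine h2.congr fun n => ?_
    rw [sub_add_cancel]
  have hvl : Tendsto v 𝒰 (𝓝 (ptH a₁ a₂ (c + τ) (-X'.2, X'.1))) :=
    tendsto_ptH hα₁ hα₂ (hκ.add_const τ) hY'
  have hph : ∀ n, ∀ p ∈ P' n, ∀ q ∈ P' n, bW p q = 0 := fun n => (hΛ.ph _ (hP' n)).iso
  have hAuu : ∀ n, A n (uu n) = s n • v n := fun n => (A n).apply_symm_apply _
  have hzl := vert_conv (a₁ := a₁) (a₂ := a₂) (c := c + τ) (X := X') (Y := (-X'.2, X'.1))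
    (by simp only []; nlinarith) hz1 hz2 hvl (fun n => by
      simp only [hz]
      rw [bW_smul_left, bW_smul_right, hAiso, hph n _ (hxt n) _ (hxt n), mul_zero, mul_zero])
    (fun n => by
      have h1 : bW (z n) (s n • v n) = 0 := by
        simp only [hz]
        rw [← hAuu, bW_smul_left, hAiso, hph n _ (hxt n) _ (huP' n), mul_zero]
      rw [bW_smul_right] at h1
      exact (mul_eq_zero.mp h1).resolve_left (hs n).ne')
  intro x' hx'
  set p : ℝ := x'.1.1 * X'.1 + x'.1.2 * X'.2 with hp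
  set q : ℝ := -x'.1.1 * X'.2 + x'.1.2 * X'.1 with hq
  refine ⟨fun n => p • ((t n)⁻¹ • xt n) + q • ((s n)⁻¹ • uu n), fun n => ?_, ?_⟩
  · exact (P' n).add_mem ((P' n).smul_mem _ ((P' n).smul_mem _ (hxt n)))
      ((P' n).smul_mem _ ((P' n).smul_mem _ (huP' n)))
  · have h1 := (hzl.const_smul p).add (hvl.const_smul q)
    rw [vert_lin] at h1
    have h2 : p • X' + q • ((-X'.2, X'.1) : ℝ × ℝ) = x'.1 := by
      refine Prod.ext ?_ ?_
      · simp only [Prod.fst_add, Prod.smul_fst, smul_eq_mul, hp, hq]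
        linear_combination x'.1.1 * hXX'
      · simp only [Prod.snd_add, Prod.smul_snd, smul_eq_mul, hp, hq]
        linear_combination x'.1.2 * hXX'
    rw [h2, ← eq_ptH hx'] at h1
    refine h1.congr fun n => ?_
    rw [map_add, map_smul, map_smul, map_smul, map_smul, hAuu, smul_smul (s n)⁻¹,
      inv_mul_cancel₀ (hs n).ne', one_smul]

end Pool.Agent.H2.AdS
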