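import Pool.Agent.H2.AdS.Gap.Dich
import Pool.Agent.H2.AdS.Gap.Vert
import Pool.Agent.H2.AdS.Gap.Norm

/-!
# The stage lemma
-/

set_option autoImplicit false

open scoped RealInnerProductSpace
open Filter Topology

namespace Pool.Agent.H2.AdS

variable {Q : Type*} [NormedAddCommGroup Q] [InnerProductSpace ℝ Q]

/-- an isotropic subspace that meets `PH 0 0 0` and `PH 0 0 1` meets `PH a b c` only if
`N y = 0` for a fixed `y` -/
theorem meet_PH {P'' : Submodule ℝ (W Q)} (hiso : ∀ x ∈ P'', ∀ y ∈ P'', bW x y = 0)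
    (h0 : ∃ x ∈ PH (0 : Q) 0 0, x ≠ 0 ∧ x ∈ P'') (h1 : ∃ x ∈ PH (0 : Q) 0 1, x ≠ 0 ∧ x ∈ P'') :
    ∃ y : ℝ × ℝ, y ≠ 0 ∧ ∀ (a b : Q) (c : ℝ), (∃ x ∈ PH a b c, x ≠ 0 ∧ x ∈ P'') →
      y.1 • a + y.2 • b = 0 := by
  obtain ⟨x, hx, hx0, hxP⟩ := h0
  obtain ⟨x', hx', hx'0, hx'P⟩ := h1
  have ex := eq_ptH hx
  have ex' := eq_ptH hx'
  set y := x.1 with hy
  set y' := x'.1 with hy'
  have e1 : x = (y, 0, 0) := by
    rw [ex]; simp [ptH]
  have e2 : x' = (y', 0, (-y'.2, y'.1)) := by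
    rw [ex']; simp [ptH]
  have hy0 : y ≠ 0 := by
    intro h
    apply hx0
    rw [e1, h]; rfl
  have hy'0 : y' ≠ 0 := by
    intro h
    apply hx'0
    rw [e2, h]; simp
  have hyy : y.2 * y'.1 - y.1 * y'.2 = 0 := by
    have := hiso x hxP x' hx'P
    rw [e1, e2] at this
    simp [bW] at this
    linarith
  have hr : 0 < y.1 ^ 2 + y.2 ^ 2 := by
    by_contra hcon
    push Not at hcon
    apply hy0
    have h2 : y.1 = 0 := by nlinarith [sq_nonneg y.1, sq_nonneg y.2]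
    have h3 : y.2 = 0 := by nlinarith [sq_nonneg y.1, sq_nonneg y.2]
    exact Prod.ext h2 h3
  -- `y' = s y`
  set s := (y.1 * y'.1 + y.2 * y'.2) / (y.1 ^ 2 + y.2 ^ 2) with hs
  have hs1 : y'.1 = s * y.1 := by
    rw [hs]; field_simp; linear_combination (y.2) * hyy
  have hs2 : y'.2 = s * y.2 := by
    rw [hs]; field_simp; linear_combination (-y.1) * hyy
  have hs0 : s ≠ 0 := by
    intro h
    apply hy'0
    rw [h] at hs1 hs2
    exact Prod.ext (by rw [hs1]; simp) (by rw [hs2]; simp)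
  have hz : ((0, 0, (-y.2, y.1)) : W Q) ∈ P'' := by
    have h2 : s⁻¹ • (x' - s • x) ∈ P'' := P''.smul_mem _ (P''.sub_mem hx'P (P''.smul_mem _ hxP))
    have h3 : s⁻¹ • (x' - s • x) = ((0, 0, (-y.2, y.1)) : W Q) := by
      rw [e1, e2]
      refine Prod.ext (Prod.ext ?_ ?_) (Prod.ext ?_ (Prod.ext ?_ ?_))
      · simp only [Prod.smul_fst, Prod.fst_sub, smul_eq_mul, hs1, Prod.fst_zero]; ring
      · simp only [Prod.smul_fst, Prod.fst_sub, Prod.snd_sub, Prod.smul_snd, smul_eq_mul, hs2,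
          Prod.fst_zero, Prod.snd_zero]; ring
      · simp
      · simp only [Prod.smul_fst, Prod.fst_sub, Prod.snd_sub, Prod.smul_snd, smul_eq_mul, hs2,
          Prod.fst_zero, Prod.snd_zero, mul_zero, sub_zero]
        field_simp
      · simp only [Prod.snd_sub, Prod.smul_snd, smul_eq_mul, hs1, Prod.snd_zero, mul_zero,
          sub_zero]
        field_simp
    rwa [h3] at h2
  refine ⟨y, hy0, fun a b c ⟨w, hw, hw0, hwP⟩ => ?_⟩
  have ew := eq_ptH hw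
  have k1 : y.1 * w.1.2 - y.2 * w.1.1 = 0 := by
    have := hiso w hwP _ hz
    simp [bW] at this
    linarith
  set t := (y.1 * w.1.1 + y.2 * w.1.2) / (y.1 ^ 2 + y.2 ^ 2) with ht
  have ht1 : w.1.1 = t * y.1 := by
    rw [ht]; field_simp; linear_combination (y.2) * (-k1)
  have ht2 : w.1.2 = t * y.2 := by
    rw [ht]; field_simp; linear_combination (y.1) * k1
  have ht0 : t ≠ 0 := by
    intro h
    apply hw0
    rw [h] at ht1 ht2
    have h4 : w.1 = 0 := Prod.ext (by rw [ht1]; simp) (by rw [ht2]; simp)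
    rw [ew, h4]
    simp [ptH]
  obtain ⟨f1, f2, f3⟩ := hw
  have k2 : w.2.1 = t • (y.1 • a + y.2 • b) := by
    rw [f1, ht1, ht2]; module
  have k3 := hiso w hwP x hxP
  rw [e1] at k3
  simp [bW] at k3
  rw [f2, f3, ht1, ht2, k2] at k3
  have k4 : ‖y.1 • a + y.2 • b‖ ^ 2 = 0 := by
    have h5 : ‖y.1 • a + y.2 • b‖ ^ 2 = y.1 * ⟪a, y.1 • a + y.2 • b⟫ +
        y.2 * ⟪b, y.1 • a + y.2 • b⟫ := by
      rw [← real_inner_self_eq_norm_sq]
      nth_rewrite 1 [inner_add_left, inner_smul_left, inner_smul_left]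
      simp
    rw [h5]
    simp only [inner_smul_right] at k3
    have h6 : t * (y.1 * ⟪a, y.1 • a + y.2 • b⟫ + y.2 * ⟪b, y.1 • a + y.2 • b⟫) = 0 := by
      linarith
    exact (mul_eq_zero.mp h6).resolve_left ht0
  exact norm_eq_zero.mp (pow_eq_zero_iff two_ne_zero |>.mp k4)

/-- a closed foliation which contains all `PH 0 0 η` contains `Pp` -/
theorem Pp_mem_of {Λ : Set (Submodule ℝ (W Q))} (hΛ : FolW Λ)
    (h : ∀ η : ℝ, PH (0 : Q) 0 η ∈ Λ) : Pp Q ∈ Λ := by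
  obtain ⟨𝒰, h𝒰⟩ := Ultrafilter.exists_le (atTop : Filter ℕ)
  have hε : Tendsto (fun n : ℕ => 1 / ((n : ℝ) + 1)) 𝒰 (𝓝 0) :=
    tendsto_one_div_add_atTop_nhds_zero_nat.mono_left h𝒰
  have hn : ∀ n : ℕ, (n : ℝ) + 1 ≠ 0 := fun n => by positivity
  obtain ⟨P', hP', h1, h2⟩ := hΛ.closed 𝒰 (fun n => PH (0 : Q) 0 ((n : ℝ) + 1))
    (fun n => ((0, -(1 / ((n : ℝ) + 1))), 0, (1, 0)))
    (fun n => ((1 / ((n : ℝ) + 1), 0), 0, (0, 1)))
    ((0, 0), 0, (1, 0)) ((0, 0), 0, (0, 1)) (fun n => by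
      refine ⟨h _, ?_, ?_⟩
      · rw [mem_PH]
        have := hn n
        refine ⟨by simp, ?_, by simp⟩
        simp only [inner_zero_left, mul_zero, zero_sub, mul_neg, neg_neg]
        field_simp
      · rw [mem_PH]
        have := hn n
        refine ⟨by simp, by simp, ?_⟩
        simp only [inner_zero_left, mul_zero, zero_add]
        field_simp)
    ((Tendsto.prodMk_nhds tendsto_const_nhds (by simpa using hε.neg)).prodMk_nhds
      tendsto_const_nhds)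
    ((Tendsto.prodMk_nhds hε tendsto_const_nhds).prodMk_nhds tendsto_const_nhds)
  have : Pp Q = P' := by
    refine phW_Pp.eq_of_le (hΛ.ph P' hP') fun x hx => ?_
    have e : x = x.2.2.1 • (((0, 0), 0, (1, 0)) : W Q) + x.2.2.2 • (((0, 0), 0, (0, 1)) : W Q) := by
      refine Prod.ext ?_ (Prod.ext ?_ (Prod.ext ?_ ?_))
      · rw [hx.1]; simp; rfl
      · rw [hx.2]; simp
      · simp
      · simp
    rw [e]
    exact P'.add_mem (P'.smul_mem _ h1) (P'.smul_mem _ h2)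
  rw [this]; exact hP'

/-- A leaf different from the leaf `Pp` is some `PH a b c`. -/
theorem FolW.exists_PH {Λ : Set (Submodule ℝ (W Q))} (hΛ : FolW Λ) (hp : Pp Q ∈ Λ)
    {P : Submodule ℝ (W Q)} (hP : P ∈ Λ) (hne : P ≠ Pp Q) : ∃ a b c, P = PH a b c := by
  refine (hΛ.ph P hP).exists_PH fun x hx hx' => ?_
  by_contra h0
  exact hne (hΛ.uni P hP _ hp x h0 hx hx')

/-- **The stage lemma.** -/
theorem stage [FiniteDimensional ℝ Q] (hQ : ∃ q : Q, q ≠ 0) {Λ : Set (Submodule ℝ (W Q))}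
    (hΛ : FolW Λ) (hS : SmallW Λ) (hc : CocW Λ) (h0 : P0 Q ∈ Λ) :
    ∃ g : W Q ≃ₗ[ℝ] W Q, (∀ x y, bW (g x) (g y) = bW x y) ∧ Pp Q ∈ mapS g Λ ∧
      P0 Q ∈ mapS g Λ ∧ (∀ τ, StW (mapS g Λ) (zt τ)) ∧
      ((∀ κ, StW Λ (yk κ)) → ∀ κ, StW (mapS g Λ) (yk κ)) := by
  obtain ⟨𝒰, h𝒰⟩ := Ultrafilter.exists_le (atTop : Filter ℕ)
  obtain ⟨q₁, hq₁⟩ := hQ
  have hq₀ : ‖(‖q₁‖⁻¹ • q₁ : Q)‖ = 1 := by
    rw [norm_smul, norm_inv, norm_norm, inv_mul_cancel₀ (norm_ne_zero_iff.mpr hq₁)]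
  set q₀ : Q := ‖q₁‖⁻¹ • q₁ with hq₀d
  obtain ⟨l, b, m, hl, hm, hl0, hb0, hm0, ⟨P₁, hP₁, r₁, hr₁, hlim₁⟩, P₂, hP₂, q₂, r₂, c₂, hr₂,
    hlim₂⟩ := normalize hΛ h0 hq₀ 𝒰 h𝒰
  set A : ℕ → W Q ≃ₗ[ℝ] W Q := fun n => bL (l n) (b n) (m n) (hl n).ne' (hm n).ne' with hAd
  have hA : ∀ n x y, bW (A n x) (A n y) = bW x y := fun n x y => bW_bL _ _ _ _ _ x y
  have hcl : ∀ (P : ℕ → Submodule ℝ (W Q)) (a b : Q) (c τ : ℝ), (∀ n, P n ∈ Λ) →
      LimW A 𝒰 P (PH a b c) → ∃ P' : ℕ → Submodule ℝ (W Q), (∀ n, P' n ∈ Λ) ∧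
        LimW A 𝒰 P' (PH a b (c + τ)) := fun P a b c τ hP hlim =>
    claimV hΛ hS 𝒰 hl hm hl0 hb0 hm0 P hP a b c τ hlim
  have hlim0 : LimW A 𝒰 (fun _ => P0 Q) (PH (0 : Q) 0 0) := by
    refine LimW.of_params (a' := fun _ => 0) (b' := fun _ => 0) (c' := fun _ => 0)
      tendsto_const_nhds tendsto_const_nhds tendsto_const_nhds (Eventually.of_forall fun n => ?_)
    have := map_bL_PH (l n) (b n) (m n) (hl n).ne' (hm n).ne' (0 : Q) 0 0
    simp only [smul_zero, add_zero, mul_zero] at this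
    exact this
  have hη : ∀ η : ℝ, ∃ P : ℕ → Submodule ℝ (W Q), (∀ n, P n ∈ Λ) ∧
      LimW A 𝒰 P (PH (0 : Q) 0 η) := by
    intro η
    have := hcl _ 0 0 0 η (fun _ => h0) hlim0
    rwa [zero_add] at this
  rcases dichotomy hΛ hc A hA 𝒰 with ⟨g, hg, hg1, hg2⟩ | ⟨P'', hiso, hmeet⟩
  · have hΛ' : FolW (mapS g Λ) := hΛ.mapS hg
    have hη' : ∀ η : ℝ, PH (0 : Q) 0 η ∈ mapS g Λ := by
      intro η
      obtain ⟨P, hP, hlim⟩ := hη η
      exact hg1 P hP _ (phW_PH _ _ _) hlim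
    have hPp : Pp Q ∈ mapS g Λ := Pp_mem_of hΛ' hη'
    refine ⟨g, hg, hPp, hη' 0, fun τ => ⟨bW_zt τ, fun P' hP' => ?_⟩, fun hy κ =>
      ⟨bW_yk κ, fun P' hP' => ?_⟩⟩
    · by_cases hne : P' = Pp Q
      · rw [hne, map_zt_Pp]; exact hPp
      · obtain ⟨a, b', c, rfl⟩ := hΛ'.exists_PH hPp hP' hne
        obtain ⟨P, hP, hlim⟩ := hg2 _ hP'
        obtain ⟨P₃, hP₃, hlim₃⟩ := hcl P a b' c τ hP hlim
        rw [map_zt_PH]
        exact hg1 P₃ hP₃ _ (phW_PH _ _ _) hlim₃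
    · obtain ⟨P, hP, hlim⟩ := hg2 _ hP'
      refine hg1 (fun n => im (yk (κ / (l n * m n))) (P n)) (fun n => (hy _).map _ (hP n)) _
        ((hΛ'.ph P' hP').map (bW_yk κ)) ?_
      rintro _ ⟨z, hz, rfl⟩
      obtain ⟨u, hu, huz⟩ := hlim z hz
      refine ⟨fun n => yk (κ / (l n * m n)) (u n), fun n => apply_mem_im.mpr (hu n), ?_⟩
      have hcont : Continuous (yk κ : W Q ≃ₗ[ℝ] W Q) :=
        (yk κ : W Q ≃ₗ[ℝ] W Q).toLinearMap.continuous_of_finiteDimensional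
      refine ((hcont.tendsto z).comp huz).congr fun n => ?_
      exact (bL_yk (l n) (b n) (m n) (hl n).ne' (hm n).ne' κ (u n)).symm
  · exfalso
    obtain ⟨y, hy0, hy⟩ := meet_PH hiso
      (hmeet _ (fun _ => h0) _ (phW_PH _ _ _) hlim0) (by
        obtain ⟨P, hP, hlim⟩ := hη 1
        exact hmeet P hP _ (phW_PH _ _ _) hlim)
    have h1 := hy q₀ r₁ 0 (hmeet P₁ hP₁ _ (phW_PH _ _ _) hlim₁)
    have h2 := hy q₂ r₂ c₂ (hmeet P₂ hP₂ _ (phW_PH _ _ _) hlim₂)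
    have h3 : y.1 = 0 := by
      have := congrArg (fun z : Q => ⟪q₀, z⟫) h1
      simp only [inner_add_right, inner_smul_right, real_inner_self_eq_norm_sq, hq₀, hr₁,
        inner_zero_right] at this
      linarith
    rw [h3, zero_smul, zero_add] at h2
    rcases smul_eq_zero.mp h2 with h4 | h4
    · exact hy0 (Prod.ext h3 h4)
    · exact hr₂ h4

end Pool.Agent.H2.AdS
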