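import Pool.Agent.H2.AdS.Gap.Defs

/-!
# GAP-2: unbounded sequences of isometries of `W Q` (helper63)
-/

set_option autoImplicit false

open scoped RealInnerProductSpace
open Filter Topology

namespace Pool.Agent.H2.AdS

section Gen

variable {X : Type*} [NormedAddCommGroup X] [NormedSpace ℝ X]

/-- normalised operators whose norms tend to infinity converge to a nonzero operator -/
theorem unb_gen1 [FiniteDimensional ℝ X] (𝒰 : Ultrafilter ℕ) (f : ℕ → X →L[ℝ] X)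
    (hinf : Tendsto (fun n => ‖f n‖) 𝒰 atTop) :
    ∃ T : X →L[ℝ] X, T ≠ 0 ∧ Tendsto (fun n => ‖f n‖⁻¹ • f n) 𝒰 (𝓝 T) := by
  have : ProperSpace (X →L[ℝ] X) := FiniteDimensional.proper ℝ (X →L[ℝ] X)
  obtain ⟨T, -, hT⟩ := Limit_ultra (isCompact_closedBall (0 : X →L[ℝ] X) 1) 𝒰
    (f := fun n => ‖f n‖⁻¹ • f n) (Eventually.of_forall fun n => by
      rw [mem_closedBall_zero_iff, norm_smul, norm_inv, norm_norm]
      exact inv_mul_le_one)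
  refine ⟨T, ?_, hT⟩
  rintro rfl
  have h1 := hT.norm
  have h2 : ‖(0 : X →L[ℝ] X)‖ = 1 := by
    refine tendsto_nhds_unique h1 (tendsto_const_nhds.congr' ?_)
    filter_upwards [hinf.eventually_gt_atTop 0] with n hn
    rw [norm_smul, norm_inv, norm_norm]
    exact (inv_mul_cancel₀ hn.ne').symm
  rw [norm_zero] at h2
  exact zero_ne_one h2

theorem unb_gen2 [FiniteDimensional ℝ X] (𝒰 : Ultrafilter ℕ) (f g : ℕ → X →L[ℝ] X)
    (hfg : ∀ n, ‖g n‖ ≤ 9 * ‖f n‖) :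
    ∃ S : X →L[ℝ] X, Tendsto (fun n => ‖f n‖⁻¹ • g n) 𝒰 (𝓝 S) := by
  have : ProperSpace (X →L[ℝ] X) := FiniteDimensional.proper ℝ (X →L[ℝ] X)
  obtain ⟨S, -, hS⟩ := Limit_ultra (isCompact_closedBall (0 : X →L[ℝ] X) 9) 𝒰
    (f := fun n => ‖f n‖⁻¹ • g n) (Eventually.of_forall fun n => by
      rw [mem_closedBall_zero_iff, norm_smul, norm_inv, norm_norm]
      have h1 : ‖f n‖⁻¹ * ‖f n‖ ≤ 1 := inv_mul_le_one
      have h2 := mul_le_mul_of_nonneg_left (hfg n) (inv_nonneg.2 (norm_nonneg (f n)))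
      linarith)
  exact ⟨S, hS⟩

theorem unb_eval {𝒰 : Ultrafilter ℕ} {f : ℕ → X →L[ℝ] X} {g : X →L[ℝ] X}
    (h : Tendsto f 𝒰 (𝓝 g)) {u : ℕ → X} {u' : X} (hu : Tendsto u 𝒰 (𝓝 u')) :
    Tendsto (fun n => f n (u n)) 𝒰 (𝓝 (g u')) := by
  have h1 : Continuous fun p : (X →L[ℝ] X) × X => p.1 p.2 := by fun_prop
  exact (h1.tendsto (g, u')).comp (h.prodMk_nhds hu)

end Gen

variable {Q : Type*} [NormedAddCommGroup Q] [InnerProductSpace ℝ Q]

theorem unb_bW_le (x y : W Q) : |bW x y| ≤ 9 * ‖x‖ * ‖y‖ := by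
  unfold bW
  have h1 : |⟪x.2.1, y.2.1⟫| ≤ ‖x.2.1‖ * ‖y.2.1‖ := abs_real_inner_le_norm _ _
  have a1 : ∀ z : W Q, ‖z.2.1‖ ≤ ‖z‖ := fun z => (norm_fst_le z.2).trans (norm_snd_le z)
  have a2 : ∀ z : W Q, |z.1.1| ≤ ‖z‖ := fun z => (norm_fst_le z.1).trans (norm_fst_le z)
  have a3 : ∀ z : W Q, |z.1.2| ≤ ‖z‖ := fun z => (norm_snd_le z.1).trans (norm_fst_le z)
  have a4 : ∀ z : W Q, |z.2.2.1| ≤ ‖z‖ := fun z =>
    (norm_fst_le z.2.2).trans ((norm_snd_le z.2).trans (norm_snd_le z))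
  have a5 : ∀ z : W Q, |z.2.2.2| ≤ ‖z‖ := fun z =>
    (norm_snd_le z.2.2).trans ((norm_snd_le z.2).trans (norm_snd_le z))
  have d1 : ‖x.2.1‖ * ‖y.2.1‖ ≤ ‖x‖ * ‖y‖ :=
    mul_le_mul (a1 x) (a1 y) (norm_nonneg _) (norm_nonneg _)
  have d2 : |x.1.1| * |y.2.2.1| ≤ ‖x‖ * ‖y‖ :=
    mul_le_mul (a2 x) (a4 y) (abs_nonneg _) (norm_nonneg _)
  have d3 : |x.1.2| * |y.2.2.2| ≤ ‖x‖ * ‖y‖ :=
    mul_le_mul (a3 x) (a5 y) (abs_nonneg _) (norm_nonneg _)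
  have d4 : |x.2.2.1| * |y.1.1| ≤ ‖x‖ * ‖y‖ :=
    mul_le_mul (a4 x) (a2 y) (abs_nonneg _) (norm_nonneg _)
  have d5 : |x.2.2.2| * |y.1.2| ≤ ‖x‖ * ‖y‖ :=
    mul_le_mul (a5 x) (a3 y) (abs_nonneg _) (norm_nonneg _)
  rw [← abs_mul] at d2 d3 d4 d5
  have h2 := h1.trans d1
  rw [abs_le] at h2 d2 d3 d4 d5 ⊢
  constructor <;> linarith [h2.1, h2.2, d2.1, d2.2, d3.1, d3.2, d4.1, d4.2, d5.1, d5.2]

theorem unb_norm_sq_le (x : W Q) : ‖x‖ ^ 2 ≤ bW x (x.2.2, x.2.1, x.1) := by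
  have h : bW x (x.2.2, x.2.1, x.1) = ‖x.2.1‖ ^ 2 + 2 * (x.1.1 ^ 2 + x.1.2 ^ 2) +
      2 * (x.2.2.1 ^ 2 + x.2.2.2 ^ 2) := by
    simp only [bW, real_inner_self_eq_norm_sq]
    ring
  have hp : ∀ z : ℝ × ℝ, ‖z‖ ^ 2 ≤ z.1 ^ 2 + z.2 ^ 2 := by
    intro z
    rw [Prod.norm_def]
    rcases max_cases ‖z.1‖ ‖z.2‖ with ⟨h2, -⟩ | ⟨h2, -⟩ <;> rw [h2, Real.norm_eq_abs, sq_abs]
    · nlinarith [sq_nonneg z.2]
    · nlinarith [sq_nonneg z.1]
  have h1 := hp x.1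
  have h2 := hp x.2.2
  rw [h]
  have e1 : ‖x‖ = max ‖x.1‖ (max ‖x.2.1‖ ‖x.2.2‖) := rfl
  rw [e1]
  rcases max_cases ‖x.1‖ (max ‖x.2.1‖ ‖x.2.2‖) with ⟨h3, -⟩ | ⟨h3, -⟩ <;> rw [h3]
  · nlinarith [sq_nonneg ‖x.2.1‖, sq_nonneg x.2.2.1, sq_nonneg x.2.2.2, sq_nonneg x.1.1,
      sq_nonneg x.1.2]
  · rcases max_cases ‖x.2.1‖ ‖x.2.2‖ with ⟨h4, -⟩ | ⟨h4, -⟩ <;> rw [h4]
    · nlinarith [sq_nonneg x.2.2.1, sq_nonneg x.2.2.2, sq_nonneg x.1.1, sq_nonneg x.1.2]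
    · nlinarith [sq_nonneg ‖x.2.1‖, sq_nonneg x.2.2.1, sq_nonneg x.2.2.2, sq_nonneg x.1.1,
        sq_nonneg x.1.2]

omit [InnerProductSpace ℝ Q] in
theorem unb_norm_flip (x : W Q) : ‖((x.2.2, x.2.1, x.1) : W Q)‖ = ‖x‖ := by
  have h1 : ‖((x.2.2, x.2.1, x.1) : W Q)‖ = max ‖x.2.2‖ (max ‖x.2.1‖ ‖x.1‖) := rfl
  have h2 : ‖x‖ = max ‖x.1‖ (max ‖x.2.1‖ ‖x.2.2‖) := rfl
  rw [h1, h2, max_comm ‖x.2.1‖ ‖x.1‖, ← max_assoc, max_comm ‖x.2.2‖ ‖x.1‖, max_assoc,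
    max_comm ‖x.2.2‖ ‖x.2.1‖]

/-- the negative part of the form -/
theorem unb_bW_diff (x : W Q) : -(x.1.1 - x.2.2.1) ^ 2 - (x.1.2 - x.2.2.2) ^ 2 ≤ bW x x := by
  rw [bW_self]
  nlinarith [sq_nonneg ‖x.2.1‖, sq_nonneg (x.1.1 + x.2.2.1), sq_nonneg (x.1.2 + x.2.2.2)]

/-- two isotropic vectors orthogonal to each other and to a negative vector are proportional -/
theorem unb_rank {u w k : W Q} (hu : bW u u = 0) (hw : bW w w = 0) (huw : bW u w = 0)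
    (hk : bW k k < 0) (hku : bW k u = 0) (hkw : bW k w = 0) (hu0 : u ≠ 0) :
    ∃ c : ℝ, w = c • u := by
  set p : ℝ := u.1.1 - u.2.2.1 with hp
  set q : ℝ := u.1.2 - u.2.2.2 with hq
  set r : ℝ := w.1.1 - w.2.2.1 with hr
  set s : ℝ := w.1.2 - w.2.2.2 with hs
  have key : ∀ c : ℝ, r = c * p → s = c * q → w = c • u := by
    intro c h1 h2
    refine (eq_of_diff ?_ hw ?_ ?_).symm
    · rw [bW_smul_left, bW_smul_right, hu]; ring
    · rw [bW_smul_left, huw]; ring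
    · refine Prod.ext ?_ ?_
      · change c * u.1.1 - c * u.2.2.1 = w.1.1 - w.2.2.1
        rw [← hr, h1, hp]; ring
      · change c * u.1.2 - c * u.2.2.2 = w.1.2 - w.2.2.2
        rw [← hs, h2, hq]; ring
  by_cases hdet : p * s - q * r = 0
  · by_cases h1 : p = 0
    · have h2 : q ≠ 0 := by
        intro h2
        exact hu0 (eq_zero_of_diff hu (Prod.ext h1 h2))
      refine ⟨s / q, key _ ?_ ?_⟩
      · rw [h1] at hdet ⊢
        have h3 : q * r = 0 := by linarith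
        rw [(mul_eq_zero.1 h3).resolve_left h2]
        ring
      · field_simp
    · refine ⟨r / p, key _ ?_ ?_⟩
      · field_simp
      · field_simp
        linarith
  · exfalso
    set a : ℝ := k.1.1 - k.2.2.1 with ha
    set b : ℝ := k.1.2 - k.2.2.2 with hb
    set α : ℝ := (a * s - b * r) / (p * s - q * r) with hα
    set β : ℝ := (p * b - q * a) / (p * s - q * r) with hβ
    have e1 : α * p + β * r = a := by
      rw [hα, hβ, div_mul_eq_mul_div, div_mul_eq_mul_div, ← add_div, div_eq_iff hdet]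
      ring
    have e2 : α * q + β * s = b := by
      rw [hα, hβ, div_mul_eq_mul_div, div_mul_eq_mul_div, ← add_div, div_eq_iff hdet]
      ring
    have hzz : bW (α • u + β • w) (α • u + β • w) = 0 := by
      simp only [bW_add_left, bW_add_right, bW_smul_left, bW_smul_right, hu, hw, huw,
        bW_comm w u]
      ring
    have hzk : bW k (α • u + β • w) = 0 := by
      simp only [bW_add_right, bW_smul_right, hku, hkw]
      ring
    have h1 : bW (α • u + β • w - k) (α • u + β • w - k) = bW k k := by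
      rw [bW_sub_left, bW_sub_right, bW_sub_right, hzz, hzk, bW_comm _ k, hzk]
      ring
    have h2 := unb_bW_diff (α • u + β • w - k)
    have h3 : (α • u + β • w - k).1.1 - (α • u + β • w - k).2.2.1 = 0 := by
      change α * u.1.1 + β * w.1.1 - k.1.1 - (α * u.2.2.1 + β * w.2.2.1 - k.2.2.1) = 0
      rw [hp, hr, ha] at e1
      linarith
    have h4 : (α • u + β • w - k).1.2 - (α • u + β • w - k).2.2.2 = 0 := by
      change α * u.1.2 + β * w.1.2 - k.1.2 - (α * u.2.2.2 + β * w.2.2.2 - k.2.2.2) = 0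
      rw [hq, hs, hb] at e2
      linarith
    rw [h1, h3, h4] at h2
    linarith

theorem unb_inv_norm [FiniteDimensional ℝ Q] {F : W Q ≃ₗ[ℝ] W Q} (hF : ∀ x y, bW (F x) (F y) = bW x y) :
    ‖LinearMap.toContinuousLinearMap (F.symm : W Q →ₗ[ℝ] W Q)‖ ≤
      9 * ‖LinearMap.toContinuousLinearMap (F : W Q →ₗ[ℝ] W Q)‖ := by
  refine ContinuousLinearMap.opNorm_le_bound _ (by positivity) fun y => ?_
  change ‖F.symm y‖ ≤ _
  set z := F.symm y with hz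
  have h1 := unb_norm_sq_le z
  have h2 : bW z (z.2.2, z.2.1, z.1) = bW y (F (z.2.2, z.2.1, z.1)) := by
    rw [← hF, hz, LinearEquiv.apply_symm_apply]
  have h3 := (le_abs_self _).trans (unb_bW_le y (F (z.2.2, z.2.1, z.1)))
  have h4 : ‖F (z.2.2, z.2.1, z.1)‖ ≤
      ‖LinearMap.toContinuousLinearMap (F : W Q →ₗ[ℝ] W Q)‖ * ‖z‖ := by
    have := (LinearMap.toContinuousLinearMap (F : W Q →ₗ[ℝ] W Q)).le_opNorm (z.2.2, z.2.1, z.1)
    rw [unb_norm_flip] at this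
    exact this
  rw [h2] at h1
  rcases eq_or_lt_of_le (norm_nonneg z) with h5 | h5
  · rw [← h5]
    positivity
  · have h6 : ‖z‖ * ‖z‖ ≤
        (9 * ‖LinearMap.toContinuousLinearMap (F : W Q →ₗ[ℝ] W Q)‖ * ‖y‖) * ‖z‖ := by
      calc ‖z‖ * ‖z‖ = ‖z‖ ^ 2 := by ring
        _ ≤ 9 * ‖y‖ * ‖F (z.2.2, z.2.1, z.1)‖ := h1.trans h3
        _ ≤ 9 * ‖y‖ * (‖LinearMap.toContinuousLinearMap (F : W Q →ₗ[ℝ] W Q)‖ * ‖z‖) :=
            mul_le_mul_of_nonneg_left h4 (by positivity)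
        _ = _ := by ring
    exact le_of_mul_le_mul_right h6 h5

/-- An unbounded sequence of isometries of `W Q` with a bounded orbit at `x₀`, normalised, tends
to the rank one operator `u' ↦ bW u' l • l'`. -/
theorem unb_struct [FiniteDimensional ℝ Q]
    (F : ℕ → W Q ≃ₗ[ℝ] W Q) (hF : ∀ n x y, bW (F n x) (F n y) = bW x y) (𝒰 : Ultrafilter ℕ)
    {K : Set (W Q)} (hK : IsCompact K) (hK1 : K ⊆ {x | bW x x = -1}) {x₀ : W Q}
    (hx₀ : bW x₀ x₀ = -1) (hk : ∀ n, (F n).symm x₀ ∈ K)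
    (hinf : Tendsto (fun n => ‖LinearMap.toContinuousLinearMap (F n : W Q →ₗ[ℝ] W Q)‖) 𝒰 atTop) :
    ∃ (c : ℕ → ℝ) (l l' k x₁ : W Q), (∀ᶠ n in (𝒰 : Filter ℕ), 0 < c n) ∧ Tendsto c 𝒰 (𝓝 0) ∧
      l ≠ 0 ∧ l' ≠ 0 ∧ bW l l = 0 ∧ bW l' l' = 0 ∧ bW x₁ l = 1 ∧ bW k k = -1 ∧
      Tendsto (fun n => (F n).symm x₀) 𝒰 (𝓝 k) ∧ bW k l = 0 ∧ bW x₀ l' = 0 ∧
      ∀ (u : ℕ → W Q) (u' : W Q), Tendsto u 𝒰 (𝓝 u') →
        Tendsto (fun n => c n • F n (u n)) 𝒰 (𝓝 (bW u' l • l')) := by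
  have _ := hx₀
  set f : ℕ → W Q →L[ℝ] W Q :=
    fun n => LinearMap.toContinuousLinearMap (F n : W Q →ₗ[ℝ] W Q) with hf
  set g : ℕ → W Q →L[ℝ] W Q :=
    fun n => LinearMap.toContinuousLinearMap ((F n).symm : W Q →ₗ[ℝ] W Q) with hg
  set c : ℕ → ℝ := fun n => ‖f n‖⁻¹ with hc
  have hcpos : ∀ᶠ n in (𝒰 : Filter ℕ), 0 < c n := by
    filter_upwards [hinf.eventually_gt_atTop 0] with n hn
    exact inv_pos.2 hn
  have hc0 : Tendsto c 𝒰 (𝓝 0) := tendsto_inv_atTop_zero.comp hinf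
  obtain ⟨T, hT0, hT⟩ := unb_gen1 𝒰 f hinf
  obtain ⟨S, hS⟩ := unb_gen2 𝒰 f g fun n => unb_inv_norm (hF n)
  have hTx : ∀ x, Tendsto (fun n => c n • F n x) 𝒰 (𝓝 (T x)) := fun x =>
    unb_eval hT (u := fun _ => x) tendsto_const_nhds
  have hSx : ∀ x, Tendsto (fun n => c n • (F n).symm x) 𝒰 (𝓝 (S x)) := fun x =>
    unb_eval hS (u := fun _ => x) tendsto_const_nhds
  have hFs : ∀ n x y, bW (F n x) y = bW x ((F n).symm y) := fun n x y => by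
    rw [← hF n x, LinearEquiv.apply_symm_apply]
  have hF' : ∀ n x y, bW ((F n).symm x) ((F n).symm y) = bW x y := fun n x y => by
    rw [← hFs, LinearEquiv.apply_symm_apply]
  have hadj : ∀ x y, bW (T x) y = bW x (S y) := by
    intro x y
    refine tendsto_nhds_unique (tendsto_bW (hTx x) tendsto_const_nhds)
      ((tendsto_bW tendsto_const_nhds (hSx y)).congr fun n => ?_)
    rw [bW_smul_left, bW_smul_right, hFs]
  have hSS : ∀ x y, bW (S x) (S y) = 0 := by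
    intro x y
    have h1 : Tendsto (fun n => c n * (c n * bW x y)) 𝒰 (𝓝 (0 * (0 * bW x y))) :=
      hc0.mul (hc0.mul_const _)
    rw [zero_mul] at h1
    refine tendsto_nhds_unique (tendsto_bW (hSx x) (hSx y)) (h1.congr fun n => ?_)
    rw [bW_smul_left, bW_smul_right, hF']
  have hTT : ∀ x y, bW (T x) (T y) = 0 := by
    intro x y
    have h1 : Tendsto (fun n => c n * (c n * bW x y)) 𝒰 (𝓝 (0 * (0 * bW x y))) :=
      hc0.mul (hc0.mul_const _)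
    rw [zero_mul] at h1
    refine tendsto_nhds_unique (tendsto_bW (hTx x) (hTx y)) (h1.congr fun n => ?_)
    rw [bW_smul_left, bW_smul_right, hF]
  obtain ⟨k, hkK, hkl⟩ := Limit_ultra hK 𝒰 (Eventually.of_forall hk)
  have hkk : bW k k = -1 := hK1 hkK
  have hkS : ∀ y, bW k (S y) = 0 := by
    intro y
    have h1 : Tendsto (fun n => c n * bW x₀ y) 𝒰 (𝓝 (0 * bW x₀ y)) := hc0.mul_const _
    rw [zero_mul] at h1
    refine tendsto_nhds_unique (tendsto_bW hkl (hSx y)) (h1.congr fun n => ?_)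
    rw [bW_smul_right, hF']
  have hxT : ∀ x, bW x₀ (T x) = 0 := by
    intro x
    have h1 : Tendsto (fun n => c n * bW ((F n).symm x₀) x) 𝒰 (𝓝 (0 * bW k x)) :=
      hc0.mul (tendsto_bW hkl tendsto_const_nhds)
    rw [zero_mul] at h1
    refine tendsto_nhds_unique (tendsto_bW tendsto_const_nhds (hTx x)) (h1.congr fun n => ?_)
    rw [bW_smul_right, bW_comm x₀, hFs, bW_comm x]
  obtain ⟨x₂, hx₂⟩ : ∃ x, T x ≠ 0 := by
    by_contra h
    push Not at h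
    exact hT0 (ContinuousLinearMap.ext h)
  obtain ⟨y₀, hy₀⟩ : ∃ y, bW (T x₂) y ≠ 0 := by
    by_contra h
    push Not at h
    exact hx₂ (bW_nondeg h)
  have hl0 : S y₀ ≠ 0 := by
    intro h
    rw [hadj, h, bW_zero_right] at hy₀
    exact hy₀ rfl
  have hSy : ∀ y, ∃ s : ℝ, S y = s • S y₀ := fun y =>
    unb_rank (hSS _ _) (hSS _ _) (hSS _ _) (by rw [hkk]; norm_num) (hkS _) (hkS _) hl0
  rw [hadj] at hy₀
  set l : W Q := S y₀ with hl
  set x₁ : W Q := (bW x₂ l)⁻¹ • x₂ with hx₁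
  have hx₁l : bW x₁ l = 1 := by
    rw [hx₁, bW_smul_left]
    exact inv_mul_cancel₀ hy₀
  have hTx₁ : ∀ x, T x = bW x l • T x₁ := by
    intro x
    refine sub_eq_zero.1 (bW_nondeg fun y => ?_)
    obtain ⟨s, hs⟩ := hSy y
    rw [bW_sub_left, bW_smul_left, hadj, hadj, hs, bW_smul_right, bW_smul_right, hx₁l]
    ring
  have hl'0 : T x₁ ≠ 0 := by
    intro h
    exact hx₂ (by rw [hTx₁ x₂, h, smul_zero])
  refine ⟨c, l, T x₁, k, x₁, hcpos, hc0, hl0, hl'0, hSS _ _, hTT _ _, hx₁l, hkk, hkl, hkS _,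
    hxT _, fun u u' hu => ?_⟩
  rw [← hTx₁ u']
  exact unb_eval hT hu

end Pool.Agent.H2.AdS
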